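import Pool.Agent.MP_db5b97_nt.H67.Spec

/-! Lattices stable under all cycles of length three. -/

namespace Pool.Agent.MP_db5b97_nt.H67

open H85 H30 Module MulAction

namespace RALTX

variable {G Y : Type} [Group G] [MulAction G Y] {M : AddSubgroup (Y →₀ ℤ)}

noncomputable def D (n : ℤ) (k l : Y) : Y →₀ ℤ := Finsupp.single k n - Finsupp.single l n

theorem D_smul (g : G) (n : ℤ) (k l : Y) : g • D n k l = D n (g • k) (g • l) :=
  (smul_sub _ _ _).trans
    (congrArg₂ _ (Finsupp.comapSMul_single _ _ _) (Finsupp.comapSMul_single _ _ _))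

theorem D_mul (c n : ℤ) (k l : Y) : D (c * n) k l = c • D n k l := by simp [D, smul_sub]

theorem ap {g : G} {a b : Y} (h : g • b = a) (m : Y →₀ ℤ) : (g • m) a = m b := by
  rw [← inv_smul_smul g b, h]
  exact Finsupp.comapSMul_apply g m a

theorem five [Fintype Y] (h : 5 ≤ Fintype.card Y) (a b c d : Y) :
    ∃ x, x ≠ a ∧ x ≠ b ∧ x ≠ c ∧ x ≠ d := by
  classical
  obtain ⟨x, -, hx⟩ := Finset.exists_mem_notMem_of_card_lt_card (s := {a, b, c, d})
    (t := Finset.univ) (Finset.card_le_four.trans_lt h)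
  exact ⟨x, by simpa only [Finset.mem_insert, Finset.mem_singleton, not_or] using hx⟩

variable (hM : Stab (⊤ : Subgroup G) M)
  (h3 : ∀ i j k : Y, i ≠ j → i ≠ k → j ≠ k → ∃ g : G, g • i = j ∧ g • j = k ∧ g • k = i ∧
    ∀ l, l ≠ i → l ≠ j → l ≠ k → g • l = l)

include hM h3

theorem all {n : ℤ} {j l : Y} (hjl : j ≠ l) (h : D n j l ∈ M) (k p : Y) : D n k p ∈ M := by
  have h1 : ∀ p, D n j p ∈ M := fun p => by
    by_cases h1 : j = p
    · simp [D, h1]
    by_cases h2 : l = p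
    · exact h2 ▸ h
    obtain ⟨g, a1, a2, -⟩ := h3 j l p hjl h1 h2
    have := hM g trivial _ h
    rw [D_smul, a1, a2] at this
    simpa [D] using M.add_mem h this
  simpa [D] using M.sub_mem (h1 p) (h1 k)

theorem key [Fintype Y] (h5 : 5 ≤ Fintype.card Y) {m : Y →₀ ℤ} (hm : m ∈ M) (j i k' l' : Y) :
    D (m j - m i) k' l' ∈ M := by
  classical
  by_cases hij : i = j
  · simp [D, hij]
  obtain ⟨k, k1, k2, -⟩ := five h5 i j i i
  obtain ⟨l, l1, l2, l3, -⟩ := five h5 i j k k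
  obtain ⟨p, p1, p2, p3, p4⟩ := five h5 i j k l
  obtain ⟨g, a1, -, -, a4⟩ := h3 i j k hij k1.symm k2.symm
  obtain ⟨h, b1, b2, b3, b4⟩ := h3 j l p l2.symm p2.symm p4.symm
  obtain ⟨v, hv, v1, v2, v3⟩ : ∃ v ∈ M, v j = m j - m i ∧ v l = 0 ∧ v p = 0 :=
    ⟨m - g • m, M.sub_mem hm (hM g trivial m hm), by rw [Finsupp.sub_apply, ap a1],
      by rw [Finsupp.sub_apply, ap (a4 l l1 l2 l3), sub_self],
      by rw [Finsupp.sub_apply, ap (a4 p p1 p2 p3), sub_self]⟩
  refine all hM h3 l2.symm ?_ k' l'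
  convert M.sub_mem hv (hM h trivial v hv) using 1
  ext a
  rw [Finsupp.sub_apply]
  by_cases c1 : a = j
  · rw [c1, ap b3]
    simp [D, v1, v3, l2.symm]
  by_cases c2 : a = l
  · rw [c2, ap b1]
    simp [D, v1, v2, l2]
  by_cases c3 : a = p
  · rw [c3, ap b2]
    simp [D, v2, v3, p2, p4]
  rw [ap (b4 a c1 c2 c3)]
  simp [D, c1, c2]

end RALTX

open RALTX in
theorem rowALT : RowALT := by
  intro G Y A _ _ _ _ _ M y hA h5 hM h3
  classical
  let S : AddSubgroup ℤ :=
    { carrier := {n | ∀ k l, D n k l ∈ M}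
      add_mem' := fun {a b} ha hb k l => by
        convert M.add_mem (ha k l) (hb k l) using 1
        simp only [D, Finsupp.single_add]
        abel
      zero_mem' := fun k l => by simp [D]
      neg_mem' := fun {a} ha k l => by
        rw [← neg_one_mul, D_mul]
        exact M.zsmul_mem (ha k l) _ }
  obtain ⟨d, hd⟩ := Int.subgroup_cyclic S
  have d1 : d ∈ S := hd ▸ AddSubgroup.subset_closure rfl
  have d2 : ∀ m ∈ M, ∀ i j, d ∣ m i - m j := fun m hm i j => by
    obtain ⟨c, hc⟩ := AddSubgroup.mem_closure_singleton.1 (hd.le (key hM h3 h5 hm i j))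
    exact ⟨c, by rw [← hc, smul_eq_mul, mul_comm]⟩
  by_cases d0 : d = 0
  · have := free_sub M
    refine (kill_triv (hA _) fun s _ m hm => Finsupp.ext fun a => ?_).of_dvd (one_dvd _)
    rw [ap (smul_inv_smul s a)]
    exact sub_eq_zero.1 (zero_dvd_iff.1 (d0 ▸ d2 m hm _ _))
  have K2 := kill_perm (U := stabilizer G y) (ι := SubMulAction.ofStabilizer G y)
    (fun k => D d k.1 y) (Fintype.linearIndependent_iff.2 fun g hg i => by
      have hi : i.1 ≠ y := i.2
      have := DFunLike.congr_fun hg i.1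
      rw [Finsupp.finsetSum_apply, Finset.sum_eq_single i (fun k _ hk => by
        simp [D, hi, (Subtype.val_injective.ne hk).symm]) (by simp)] at this
      simpa [D, hi, d0] using this)
    (fun u k => by rw [D_smul, show (u : G) • y = y from u.2]; rfl) hA
  obtain ⟨M2, K2, m1, m2⟩ : ∃ M2, Kill A (stabilizer G y) M2 1 ∧ M2 ≤ M ∧ ∀ k, D d k y ∈ M2 := by
    refine ⟨_, K2, (Submodule.span_le (p := AddSubgroup.toIntSubmodule M)).2 ?_, fun k => ?_⟩
    · rintro _ ⟨k, rfl⟩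
      exact d1 _ _
    · by_cases h : k = y
      · simp [D, h]
      · exact Submodule.subset_span ⟨⟨k, h⟩, rfl⟩
  have m3 : ∀ w : Y →₀ ℤ, (∀ k, d ∣ w k) → ∑ k, w k = 0 → w ∈ M2 := fun w h1 h2 => by
    have : w = ∑ k, D (w k) k y := by
      simp only [D, Finset.sum_sub_distrib, Finsupp.univ_sum_single]
      rw [← Finsupp.single_finsetSum, h2, Finsupp.single_zero, sub_zero]
    rw [this]
    refine sum_mem fun k _ => ?_
    obtain ⟨c, hc⟩ := h1 k
    rw [hc, mul_comm, D_mul]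
    exact M2.zsmul_mem (m2 k) c
  obtain ⟨a, ha⟩ : ∃ a : (Y →₀ ℤ) → Y →₀ ℤ, ∀ m k, a m k = ∑ l, m l :=
    ⟨fun m => Finsupp.equivFunOnFinite.symm fun _ => ∑ l, m l, fun _ _ => rfl⟩
  have a1 : ∀ x z, a (x + z) = a x + a z := fun x z => Finsupp.ext fun k => by
    simp [ha, Finset.sum_add_distrib]
  have a2 : ∀ (s : G) m, s • a m = a m := fun s m => Finsupp.ext fun k => by
    rw [ap (smul_inv_smul s k), ha, ha]
  have a3 : ∀ (s : G) m, a (s • m) = a m := fun s m => Finsupp.ext fun k => by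
    rw [ha, ha]
    exact (Fintype.sum_equiv (MulAction.toPerm s) _ _ fun l => (ap rfl m).symm).symm
  have b1 : ∀ m ∈ M, Fintype.card Y • m - a m ∈ M2 := fun m hm => m3 _ (fun k => by
      simpa [ha] using Finset.dvd_sum fun l (_ : l ∈ Finset.univ) => d2 m hm k l)
    (by simp [ha, Finset.mul_sum])
  have := free_sub (M ⊓ Fix (Y →₀ ℤ) (⊤ : Subgroup G))
  have K1 : Kill A (stabilizer G y) (M ⊓ Fix (Y →₀ ℤ) (⊤ : Subgroup G)) 1 :=
    kill_triv (hA _) fun s _ m hm => hm.2 s trivial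
  intro c hc
  obtain ⟨β1, k1⟩ := K1 c (hc.mono le_rfl inf_le_left)
  obtain ⟨β2, k2⟩ := K2 c (hc.mono le_rfl m1)
  have := bd_split (M1 := M ⊓ Fix (Y →₀ ℤ) (⊤ : Subgroup G)) hc inf_le_left m1 a
    (fun m => Fintype.card Y • m - a m) (n := Fintype.card Y)
    (fun x _ z _ => a1 x z) (fun x _ z _ => by simp only [a1, smul_add]; abel)
    (fun m hm => ⟨by simpa using M.sub_mem (M.nsmul_mem hm (Fintype.card Y)) (m1 (b1 m hm)),
      fun s _ => a2 s m⟩) b1 (fun s _ m _ => by rw [a2, a3])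
    (fun s _ m _ => by simp only [smul_sub, a2, a3, smul_comm s]) (fun m _ => by simp) k1 k2
  rw [one_mul] at this
  exact ⟨_, this⟩

end Pool.Agent.MP_db5b97_nt.H67
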