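import Pool.Agent.MP_db5b97_nt.H67.Spec

/-! Row C2G: groups that move two points only. -/

namespace Pool.Agent.MP_db5b97_nt.H67

open H85 H30 Module

namespace RC2GX

theorem two {Y : Type} {X : Finset Y} {f : Y → Y} {a b : Y} (hf : Function.Injective f)
    (hX : ∀ x ∈ X, f x ∈ X) (h : ∀ x ∈ X, x ≠ a → x ≠ b → f x = x) (h0 : ∃ x ∈ X, f x ≠ x) :
    a ∈ X ∧ b ∈ X ∧ f a = b ∧ f b = a := by
  obtain ⟨x, hx, h0⟩ := h0
  have k : ∀ y ∈ X, f y ≠ y → y = a ∨ y = b := fun y hy hn => by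
    by_contra hc
    rw [not_or] at hc
    exact hn (h y hy hc.1 hc.2)
  have h1 : f (f x) ≠ f x := fun e => h0 (hf e)
  have h2 : f (f (f x)) ≠ f (f x) := fun e => h1 (hf e)
  have k1 := k _ (hX x hx) h1
  have k2 := k _ (hX _ (hX x hx)) h2
  have hy := hX x hx
  rcases k x hx h0 with rfl | rfl
  · have e := k1.resolve_left h0
    rw [e] at k2 h1 hy
    exact ⟨hx, hy, e, k2.resolve_right h1⟩
  · have e := k1.resolve_right h0
    rw [e] at k2 h1 hy
    exact ⟨hy, hx, k2.resolve_left h1, e⟩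

end RC2GX

theorem rowC2G : RowC2 → RowC2G := by
  intro hC X H N M c a b hN hNH hX h h' hs hM hc hcN hab hm
  classical
  by_cases h0 : ∀ σ ∈ H, ∀ x ∈ X, σ x = x
  · exact bd_triv hX hN hNH h hs hM hc hcN le_rfl (fix_supp hs h0)
  push Not at h0
  obtain ⟨τ, hτ, h0⟩ := h0
  have sw : ∀ σ ∈ H, (∃ x ∈ X, σ x ≠ x) → ∀ x ∈ X, σ x = Equiv.swap a b x := by
    intro σ hσ h1 x hx
    obtain ⟨-, -, e1, e2⟩ := RC2GX.two σ.injective (hX σ hσ) (hab σ hσ) h1
    rw [Equiv.swap_apply_def]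
    split_ifs with k1 k2
    · rw [k1, e1]
    · rw [k2, e2]
    · exact hab σ hσ x hx k1 k2
  obtain ⟨ha, hb, -, -⟩ := RC2GX.two τ.injective (hX τ hτ) (hab τ hτ) h0
  have : Ope N := ⟨hN⟩
  have : Nrm H N := ⟨fun s hs t ht => h' _ (mul_mem (mul_mem hs (hNH ht)) (inv_mem hs))
    fun x hx => by
      rw [AlgEquiv.mul_apply, AlgEquiv.mul_apply, h t ht _ (hX _ (inv_mem hs) x hx)]
      exact s.apply_symm_apply x⟩
  have := Qt.faithful (S := H) (N := N) (T := N) inf_le_right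
  obtain ⟨β, hβ⟩ := transferX hX h hs hNH hM hc hcN (P := ⊤) (n := 1) (by
    let _ := Qt.xact hX h
    have hj : Function.Injective (jX X) := Finsupp.mapDomain_injective Subtype.val_injective
    refine hC (Qt H N) X _ _ ⊤ ((⟨τ, hτ⟩ : H) : Qt H N) ⟨a, ha⟩ ⟨b, hb⟩ (rowNT2.h90 _ _ _)
      (fun q => iff_of_true trivial ?_) ?_ (fun y => Subtype.ext ?_)
      (fun q _ => Quotient.inductionOn' q fun s y hy =>
        AddSubgroup.mem_comap.2 ((jX_smul hX h s y).symm ▸ hM s s.2 _ hy)) fun m k e => ?_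
    · induction q using QuotientGroup.induction_on with
      | H s =>
        by_cases h1 : ∀ x ∈ X, (s : Ga) x = x
        · exact Or.inl ((QuotientGroup.eq_one_iff s).2 (h' _ s.2 h1))
        · push Not at h1
          refine Or.inr (QuotientGroup.eq.2 (h' _ (mul_mem (inv_mem s.2) hτ) fun x hx => ?_))
          change (s : Ga).symm (τ x) = x
          rw [sw τ hτ h0 x hx, ← sw s s.2 h1 x hx, AlgEquiv.symm_apply_apply]
    · refine (QuotientGroup.eq_one_iff (N := N.subgroupOf H) ((⟨τ, hτ⟩ : H) * ⟨τ, hτ⟩)).2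
        (h' _ (mul_mem hτ hτ) fun x hx => ?_)
      change τ (τ x) = x
      rw [sw τ hτ h0 _ (hX τ hτ x hx), sw τ hτ h0 x hx, Equiv.swap_apply_self]
    · exact (sw τ hτ h0 y y.2).trans (Subtype.val_injective.swap_apply ⟨a, ha⟩ ⟨b, hb⟩ y)
    · obtain ⟨m', k', e'⟩ := hm τ hτ h0 (jX X m) k
        ((jX_smul hX h ⟨τ, hτ⟩ m).symm.trans ((congrArg (jX X) e).trans (map_neg _ _)))
      obtain ⟨z, rfl⟩ : ∃ z, jX X z = m' :=
        ⟨_, Finsupp.mapDomain_comapDomain _ Subtype.val_injective m'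
          fun x hx => ⟨⟨x, hs m' k' hx⟩, rfl⟩⟩
      refine ⟨z, k', hj ?_⟩
      rw [map_sub, e']
      exact congrArg _ (jX_smul hX h ⟨τ, hτ⟩ z).symm)
  exact ⟨β, hβ.mono (fun s hs => mem_pre.2 ⟨hs, trivial⟩) le_rfl⟩

end Pool.Agent.MP_db5b97_nt.H67
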