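import Pool.Agent.MP_db5b97_nt.H67.Spec

/-! Dimension at most three. -/

namespace Pool.Agent.MP_db5b97_nt.H67

open H85 H30 Module

theorem rowCOM : RowSTR → RowCOM := by
  intro hS E W _ _ _ _ _ π E0 c m hd
  induction h : finrank Om W using Nat.strong_induction_on generalizing W with
  | _ n ih =>
    by_cases hI : Ir E W
    · obtain ⟨E', _, _, π', φ, -, h2, h3, c', h4, h5⟩ := c.img
      rcases hS E' W π' _ ⟨c', h4, h5 m⟩ (by omega)
        (fun V hV => hI V fun e w hw => h3 e w ▸ hV _ w hw) with k | ⟨V, V', d1, d2, hc, -⟩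
      · intro g u hg hu w
        simpa only [h3] using k (φ g) (φ u) ((h2 g).trans hg) ((h2 u).trans hu) w
      · have := Submodule.finrank_add_eq_of_isCompl hc
        omega
    · simp only [Ir, not_forall, not_or] at hI
      obtain ⟨V, s, v0, v1⟩ := hI
      have d0 : finrank Om V ≠ 0 := fun h => v0 (Submodule.finrank_eq_zero.1 h)
      have d1 := Submodule.finrank_lt v1
      have d2 := V.finrank_quotient_add_finrank
      have k1 := (letI := subAct s; ih _ (h ▸ d1) V (c.sub s) (by omega) rfl)
      have k2 := (letI := quoAct s; ih _ (by omega) (W ⧸ V) (c.quo s) (by omega) rfl)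
      intro g u hg hu w
      have := c.uni (V := V) (g := (u * g)⁻¹ * (g * u)) (by simp [hg, hu]) (fun w hw => by
        have e : g • u • w = u • g • w := congrArg Subtype.val (k1 g u hg hu ⟨w, hw⟩)
        rw [mul_smul, mul_smul, e, ← mul_smul u, inv_smul_smul]) (fun w => by
        have e : g • u • w - u • g • w ∈ V := (Submodule.Quotient.eq V).1 (k2 g u hg hu (V.mkQ w))
        have e' := s (u * g)⁻¹ _ e
        rwa [smul_sub, ← mul_smul u, inv_smul_smul, ← mul_smul g, ← mul_smul] at e') w
      rwa [mul_smul, inv_smul_eq_iff, mul_smul, mul_smul] at this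

end Pool.Agent.MP_db5b97_nt.H67
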