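import Pool.Agent.MP_db5b97_nt.H67.Spec

/-! Permuted decompositions in dimension at most five. -/

namespace Pool.Agent.MP_db5b97_nt.H67

open H85 H30 Module

namespace RDECX

variable {E W : Type} [Group E] [AddCommGroup W] [Module Om W] [DistribMulAction E W]
  {π : E →* Ga} {E0 : Subgroup E}

theorem dis {Y S T : Set (Submodule Om W)} (hY : sSupIndep Y) (hS : S ⊆ Y) (hT : T ⊆ Y)
    (h : Disjoint S T) : Disjoint (sSup S) (sSup T) := by
  have e : ∀ R : Set (Submodule Om W), R ⊆ Y →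
      sSup R ≤ ⨆ i ∈ (Subtype.val ⁻¹' R : Set Y), (i : Submodule Om W) := fun R hR =>
    sSup_le fun V hV =>
      le_iSup₂_of_le (f := fun (i : Y) (_ : i ∈ (Subtype.val ⁻¹' R : Set Y)) =>
        (i : Submodule Om W)) ⟨V, hR hV⟩ hV le_rfl
  exact (((sSupIndep_iff Y).1 hY).disjoint_biSup_biSup (h.preimage Subtype.val)).mono
    (e S hS) (e T hT)

/-- the orbit under the kernel -/
def O (h : SL W π) (V : Submodule Om W) : Set (Submodule Om W) :=
  {V' | ∃ g, π g = 1 ∧ smap h g V = V'}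

theorem self_mem (h : SL W π) (V : Submodule Om W) : V ∈ O h V := ⟨1, map_one π, smap_one h V⟩

theorem O_eq (h : SL W π) {V V' : Submodule Om W} (k : V' ∈ O h V) : O h V' = O h V := by
  obtain ⟨g, hg, rfl⟩ := k
  ext Z
  constructor
  · rintro ⟨u, hu, rfl⟩
    exact ⟨u * g, by rw [map_mul, hu, hg, mul_one], smap_mul h u g V⟩
  · rintro ⟨u, hu, rfl⟩
    exact ⟨u * g⁻¹, by rw [map_mul, map_inv, hu, hg, inv_one, mul_one], by
      rw [← smap_mul, inv_mul_cancel_right]⟩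

theorem O_dis (h : SL W π) {V V' : Submodule Om W} (k : V' ∉ O h V) :
    Disjoint (O h V) (O h V') :=
  Set.disjoint_left.2 fun Z h1 h2 => k (by
    rw [← O_eq h h1, O_eq h h2]
    exact self_mem h V')

theorem smul_sSup (h : SL W π) {S T : Set (Submodule Om W)} (e : E)
    (k : ∀ V ∈ S, smap h e V ∈ T) {w : W} (hw : w ∈ sSup S) : e • w ∈ sSup T := by
  have : sSup S ≤ smap h e⁻¹ (sSup T) := sSup_le fun V hV x hx => by
    rw [mem_smap, inv_inv]
    exact le_sSup (k V hV) ((smul_mem_smap h).2 hx)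
  have h1 := this hw
  rwa [mem_smap, inv_inv] at h1

theorem B_smul (h : SL W π) (e : E) {V : Submodule Om W} {w : W} (hw : w ∈ sSup (O h V)) :
    e • w ∈ sSup (O h (smap h e V)) := by
  refine smul_sSup h e ?_ hw
  rintro _ ⟨g, hg, rfl⟩
  exact ⟨e * g * e⁻¹, by simp [hg], by rw [← smap_mul, inv_mul_cancel_right, smap_mul]⟩

theorem B_smap (h : SL W π) (e : E) (V : Submodule Om W) :
    smap h e (sSup (O h V)) = sSup (O h (smap h e V)) := by
  ext w
  rw [mem_smap]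
  refine ⟨fun k => smul_inv_smul e w ▸ B_smul h e k, fun k => ?_⟩
  have := B_smul h e⁻¹ k
  rwa [← smap_mul, inv_mul_cancel, smap_one] at this

theorem trans {h : SL W π} {Y : Set (Submodule Om W)} (hI : Ir E W) (hY : Fam π h Y)
    {V V' : Submodule Om W} (hV : V ∈ Y) (hV' : V' ∈ Y) : ∃ e, smap h e V = V' := by
  obtain ⟨-, h1, -, h2, -, h3⟩ := hY
  by_contra hn
  have h4 : Stb E (sSup (Set.range fun e => smap h e V)) := fun e w hw =>
    smul_sSup h e (by
      rintro _ ⟨u, rfl⟩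
      exact ⟨e * u, smap_mul h e u V⟩) hw
  rcases hI _ h4 with k | k
  · exact h1 ((le_bot_iff.1 (k ▸ le_sSup ⟨1, smap_one h V⟩ : V ≤ ⊥)) ▸ hV)
  · have := h2.disjoint_sSup (y := Set.range fun e => smap h e V) hV' (by
      rintro _ ⟨u, rfl⟩
      exact h3 u V hV) hn
    rw [k, disjoint_top] at this
    exact h1 (this ▸ hV')

theorem com {h : SL W π} [FiniteDimensional Om W] {Y : Set (Submodule Om W)} (hY : sSup Y = ⊤)
    (k : ∀ V ∈ Y, finrank Om (sSup (O h V) : Submodule Om W) ≤ 1) : Com W π := by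
  intro g u hg hu
  let Z : Submodule Om W :=
    { carrier := {w | g • u • w = u • g • w}
      add_mem' := fun {x y} hx hy => by
        show g • u • (x + y) = u • g • (x + y)
        rw [smul_add, smul_add, smul_add, smul_add, hx, hy]
      zero_mem' := by simp
      smul_mem' := fun a w hw => by
        show g • u • a • w = u • g • a • w
        rw [SL.ker h hu, SL.ker h hg, SL.ker h hg, SL.ker h hu, hw] }
  have : sSup Y ≤ Z := sSup_le fun V hV w hw => by
    obtain ⟨v, hv⟩ := finrank_le_one_iff.1 (k V hV)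
    have e : ∀ x : E, π x = 1 → ∃ a : Om, x • (v : W) = a • v := fun x hx => by
      have h1 := B_smul h x v.2
      rw [O_eq h ⟨x, hx, rfl⟩] at h1
      obtain ⟨a, ha⟩ := hv ⟨_, h1⟩
      exact ⟨a, (congrArg Subtype.val ha).symm⟩
    obtain ⟨a, ha⟩ := e g hg
    obtain ⟨b, hb⟩ := e u hu
    obtain ⟨d, hd⟩ := hv ⟨w, le_sSup (self_mem h V) hw⟩
    have h2 : w = d • (v : W) := (congrArg Subtype.val hd).symm
    rw [h2]
    refine Z.smul_mem d ?_
    show g • u • (v : W) = u • g • (v : W)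
    rw [ha, hb, SL.ker h hg, SL.ker h hu, ha, hb, smul_comm]
  exact fun w => this (hY ▸ Submodule.mem_top)

theorem ker_ne [FiniteDimensional Om W] (c : Cm W π E0) {Y : Set (Submodule Om W)}
    (hY : Fam π c.sl Y) {V : Submodule Om W} (hV : V ∈ Y) : ∃ V' ∈ Y, V' ∉ O c.sl V := by
  obtain ⟨-, -, h1, -, h2, h3⟩ := hY
  by_contra! hn
  let _ := smapAct c.sl
  have h4 := c.min (MulAction.stabilizer E V) (c.op_smap V) fun e => by
    obtain ⟨g, hg, k⟩ := hn _ (h3 e V hV)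
    refine ⟨g⁻¹, by rw [map_inv, hg, inv_one], ?_⟩
    show smap c.sl (g⁻¹ * e) V = V
    rw [smap_mul, ← k, ← smap_mul, inv_mul_cancel, smap_one]
  have h5 : sSup Y ≤ V := sSup_le fun Z hZ => by
    obtain ⟨g, hg, rfl⟩ := hn Z hZ
    exact (h4 g hg : smap c.sl g V = V).le
  rw [h2, top_le_iff] at h5
  exact h1 (h5 ▸ hV)

end RDECX

open RDECX in
theorem rowDEC : RowDEC := by
  intro E W _ _ _ _ _ _ π E0 c Y h5 hI hY
  by_cases k : ∀ V ∈ Y, finrank Om (sSup (O c.sl V) : Submodule Om W) ≤ 1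
  · exact Or.inl (com hY.2.2.2.2.1 k)
  right
  push Not at k
  obtain ⟨V, hV, k⟩ := k
  obtain ⟨V', hV', k'⟩ := ker_ne c hY hV
  have hO : ∀ Z ∈ Y, O c.sl Z ⊆ Y := by
    rintro Z hZ _ ⟨g, -, rfl⟩
    exact hY.2.2.2.2.2 g Z hZ
  have hr : ∀ Z ∈ Y, finrank Om (sSup (O c.sl Z) : Submodule Om W) =
      finrank Om (sSup (O c.sl V) : Submodule Om W) := fun Z hZ => by
    obtain ⟨e, rfl⟩ := RDECX.trans hI hY hV hZ
    rw [← B_smap, finrank_smap]
  have hd := dis hY.2.2.2.1 (hO V hV) (hO V' hV') (O_dis c.sl k')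
  have h1 := Submodule.finrank_sup_add_finrank_inf_eq (sSup (O c.sl V)) (sSup (O c.sl V'))
  rw [hd.eq_bot, finrank_bot, hr V' hV'] at h1
  have h2 : ∀ Z ∈ Y, Z ∈ O c.sl V ∨ Z ∈ O c.sl V' := fun Z hZ => by
    by_contra! hn
    have h3 := dis hY.2.2.2.1 (Set.union_subset (hO V hV) (hO V' hV')) (hO Z hZ)
      ((O_dis c.sl hn.1).union_left (O_dis c.sl hn.2))
    rw [sSup_union] at h3
    have h4 := Submodule.finrank_sup_add_finrank_inf_eq (sSup (O c.sl V) ⊔ sSup (O c.sl V'))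
      (sSup (O c.sl Z))
    rw [h3.eq_bot, finrank_bot, hr Z hZ] at h4
    have h6 := Submodule.finrank_le (sSup (O c.sl V) ⊔ sSup (O c.sl V') ⊔ sSup (O c.sl Z))
    omega
  have h3 := Submodule.finrank_le (sSup (O c.sl V) ⊔ sSup (O c.sl V'))
  have h4 : finrank Om (sSup (O c.sl V) : Submodule Om W) = 2 := by omega
  have h6 : ∀ (e : E) (Z : Submodule Om W), smap c.sl e V ∈ O c.sl Z →
      smap c.sl e V' ∉ O c.sl Z := fun e Z a b => by
    have a1 := B_smap c.sl e V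
    have b1 := B_smap c.sl e V'
    rw [O_eq c.sl a] at a1
    rw [O_eq c.sl b, ← a1] at b1
    have := congrArg (smap c.sl e⁻¹) b1
    rw [← smap_mul, ← smap_mul, inv_mul_cancel, smap_one, smap_one] at this
    rw [this, disjoint_self] at hd
    rw [hd, finrank_bot] at h4
    omega
  have h7 : ∀ (e : E) (Z Z' : Submodule Om W), smap c.sl e Z ∈ O c.sl Z' →
      ∀ w ∈ sSup (O c.sl Z), e • w ∈ sSup (O c.sl Z') := fun e Z Z' a w hw =>
    O_eq c.sl a ▸ B_smul c.sl e hw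
  refine ⟨_, _, h4, (hr V' hV').trans h4, ⟨hd, ?_⟩, fun e => ?_⟩
  · rw [codisjoint_iff, eq_top_iff, ← hY.2.2.2.2.1, ← sSup_union]
    exact sSup_le_sSup h2
  · have a := h2 _ (hY.2.2.2.2.2 e V hV)
    have b := h2 _ (hY.2.2.2.2.2 e V' hV')
    rcases a with a | a
    · exact Or.inl ⟨h7 e _ _ a, h7 e _ _ (b.resolve_left (h6 e _ a))⟩
    · exact Or.inr ⟨h7 e _ _ a, h7 e _ _ (b.resolve_right (h6 e _ a))⟩

end Pool.Agent.MP_db5b97_nt.H67
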