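import Pool.Agent.MP_db5b97_nt.H67.Spec

/-! Common eigenspaces of a normal commutative subgroup. -/

namespace Pool.Agent.MP_db5b97_nt.H67

open H85 H30 Module

namespace REIGX

variable {E W : Type} [Group E] [AddCommGroup W] [Module Om W] [DistribMulAction E W]
  {A : Subgroup E}

/-- the common eigenspace -/
noncomputable def V (hL : Lin W A) (χ : A → Om) : Submodule Om W :=
  ⨅ g : A, Module.End.eigenspace (lin hL g.2) (χ g)

theorem mem_V (hL : Lin W A) {χ : A → Om} {w : W} :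
    w ∈ V hL χ ↔ ∀ g : A, g.1 • w = χ g • w := by
  simp only [V, Submodule.mem_iInf, Module.End.mem_eigenspace_iff, lin_apply]

theorem indep (hL : Lin W A) (hc : ∀ g ∈ A, ∀ u ∈ A, g * u = u * g) : iSupIndep (V hL) := by
  refine (Module.End.independent_iInf_maxGenEigenspace_of_forall_mapsTo
    (fun g : A => (lin hL g.2 : Module.End Om W))
    fun i j φ => Module.End.mapsTo_maxGenEigenspace_of_comm ?_ φ).mono fun χ =>
      iInf_mono fun g => (Module.End.genEigenspace _ _).monotone le_top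
  ext w
  show j.1 • i.1 • w = i.1 • j.1 • w
  rw [← mul_smul, ← mul_smul, hc _ j.2 _ i.2]

theorem span_top [FiniteDimensional Om W] [Finite A] (hL : Lin W A)
    (hc : ∀ g ∈ A, ∀ u ∈ A, g * u = u * g) (S : Submodule Om W) (hS : Inv A S)
    (h : ∀ w, (∀ g ∈ A, ∃ c : Om, g • w = c • w) → w ∈ S) : S = ⊤ := by
  obtain ⟨e, he⟩ := maschke hL hS
  refine eq_top_iff.2 fun w _ => ?_
  by_cases hw : w - e w = 0
  · rw [sub_eq_zero.1 hw]; exact he.mem w
  obtain ⟨W1, k1, -, k2, -⟩ := decomp hL _ _ rfl (he.ker_inv (W2 := ⊤) fun _ _ _ _ => trivial) _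
    (he.sub_mem le_top trivial) hw
  obtain ⟨x, hx, hx0⟩ := (Submodule.ne_bot_iff _).1 k2.2.1
  refine absurd ((Submodule.eq_bot_iff _).1 (he.disj (W2 := ⊤)) x
    ⟨h x fun g hg => ?_, k1 hx⟩) hx0
  obtain ⟨c, hc⟩ := schur hL k2 hg fun g' hg' y _ => by
    rw [← mul_smul, ← mul_smul, hc g hg g' hg']
  exact ⟨c, hc x hx⟩

end REIGX

open REIGX in
theorem rowEIG : RowEIG := by
  intro E W _ _ _ _ _ π h A hfin hN hA hc ⟨g, hg, hg'⟩
  have hL : Lin W A := fun g hg => SL.ker h (hA hg)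
  have hi := indep hL hc
  refine ⟨V hL '' {χ | V hL χ ≠ ⊥}, (WellFoundedGT.finite_ne_bot_of_iSupIndep hi).image _, ?_, ?_,
    hi.sSupIndep_range.mono (Set.image_subset_range _ _), ?_, ?_⟩
  · rintro ⟨χ, h1, h2⟩
    exact h1 h2
  · rintro ⟨χ, -, h2⟩
    exact hg' ⟨χ ⟨g, hg⟩, fun w => (mem_V hL).1 (h2.ge trivial) ⟨g, hg⟩⟩
  · refine span_top hL hc _ (fun u hu w hw => ?_) fun w hw => ?_
    · refine (sSup_le (a := Submodule.comap (lin hL hu) (sSup (V hL '' {χ | V hL χ ≠ ⊥}))) ?_) hw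
      rintro _ ⟨χ, h1, rfl⟩ x hx
      show u • x ∈ sSup (V hL '' {χ | V hL χ ≠ ⊥})
      rw [(mem_V hL).1 hx ⟨u, hu⟩]
      exact Submodule.smul_mem _ _ (le_sSup (s := V hL '' {χ | V hL χ ≠ ⊥}) ⟨χ, h1, rfl⟩ hx)
    · by_cases h0 : w = 0
      · rw [h0]
        exact zero_mem _
      choose χ hχ using hw
      have h1 : w ∈ V hL fun g => χ g.1 g.2 := (mem_V hL).2 fun g => hχ g.1 g.2
      exact le_sSup (s := V hL '' {χ | V hL χ ≠ ⊥})
        ⟨_, (Submodule.ne_bot_iff _).2 ⟨w, h1, h0⟩, rfl⟩ h1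
  · rintro e _ ⟨χ, h1, rfl⟩
    have key : V hL (fun g => π e (χ ⟨e⁻¹ * g.1 * e, by simpa using hN.conj_mem _ g.2 e⁻¹⟩)) =
        smap h e (V hL χ) := by
      ext w
      rw [mem_smap, mem_V, mem_V]
      constructor
      · intro k u
        have k1 := k ⟨e * u.1 * e⁻¹, hN.conj_mem _ u.2 e⟩
        have k2 : (⟨e⁻¹ * (e * u.1 * e⁻¹) * e, by simp [mul_assoc]⟩ : A) = u :=
          Subtype.ext (by simp [mul_assoc])
        simp only [k2] at k1
        rw [mul_smul, mul_smul, smul_eq_iff_eq_inv_smul, h, ← AlgEquiv.mul_apply, ← map_mul,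
          inv_mul_cancel, map_one, AlgEquiv.one_apply] at k1
        exact k1
      · intro k u
        have k1 := congrArg (e • ·) (k ⟨e⁻¹ * u.1 * e, by simpa using hN.conj_mem _ u.2 e⁻¹⟩)
        simp only [mul_smul, smul_inv_smul] at k1
        rw [k1, h, smul_inv_smul]
    refine ⟨_, ?_, key⟩
    obtain ⟨w, hw, h0⟩ := (Submodule.ne_bot_iff _).1 h1
    show V hL _ ≠ ⊥
    rw [key]
    exact (Submodule.ne_bot_iff _).2 ⟨e • w, (smul_mem_smap h).2 hw, (smul_ne_zero_iff_ne e).2 h0⟩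

end Pool.Agent.MP_db5b97_nt.H67
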