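import Pool.Agent.MP_db5b97_nt.H67.Spec
import Pool.Agent.MP_db5b97_nt.H53.DT

/-! Frames adapted to a decomposition. -/

namespace Pool.Agent.MP_db5b97_nt.H67

open H85 H30 Module

theorem rowFR : RowFR := by
  classical
  intro E W _ _ _ _ _ π E0 V V' c hc hV hV' hVV
  have key : ∀ V : Submodule Om W, Stb E V → ∃ (X : Finset Om) (w : Om → W),
      X.card = finrank Om V ∧ Submodule.span Om (w '' X) = V ∧
      ∀ e : E, ∀ x ∈ X, π e x ∈ X ∧ ∃ u : Om, e • w x = u • w (π e x) := by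
    intro V hV
    let _ := subAct hV
    have c' := c.sub hV
    obtain ⟨X, w, h1, -, h3, h4⟩ := H53.rowTOR H53.rowDS E V π E0 c'.sl c'.op c'.st c'.fin
      fun g h hg hh w => Subtype.ext (hc g h hg hh w)
    refine ⟨X, fun x => w x, h1, ?_, fun e x hx => ⟨(h4 e x hx).1, ?_⟩⟩
    · have := congrArg (Submodule.map V.subtype) h3
      rw [Submodule.map_span, Submodule.map_top, Submodule.range_subtype, Set.image_image] at this
      exact this
    · obtain ⟨u, hu⟩ := (h4 e x hx).2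
      exact ⟨u, congrArg Subtype.val hu⟩
  obtain ⟨X1, w1, a1, a2, a3⟩ := key V hV
  obtain ⟨X2, w2, b1, b2, b3⟩ := key V' hV'
  obtain ⟨t, ht⟩ : ∃ t : ℕ, ∀ x ∈ X2, x + t ∉ X1 := by
    have : ((fun n : ℕ => (n : Om)) ⁻¹' (Set.image2 (· - ·) (X1 : Set Om) (X2 : Set Om))).Finite :=
      (Set.Finite.image2 _ X1.finite_toSet X2.finite_toSet).preimage Nat.cast_injective.injOn
    obtain ⟨t, ht⟩ := this.exists_notMem
    exact ⟨t, fun x hx h => ht ⟨_, h, x, hx, by simp⟩⟩
  let X := X1 ∪ X2.image (· + (t : Om))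
  let w : Om → W := fun x => if x ∈ X1 then w1 x else w2 (x - t)
  have hw1 : ∀ x ∈ X1, w x = w1 x := fun x hx => if_pos hx
  have hw2 : ∀ x ∈ X2, w (x + t) = w2 x := fun x hx => by
    simp only [w, if_neg (ht x hx), add_sub_cancel_right]
  have hcard : X.card = finrank Om W := by
    rw [Finset.card_union_of_disjoint, Finset.card_image_of_injective _ (add_left_injective _), a1,
      b1, Submodule.finrank_add_eq_of_isCompl hVV]
    refine Finset.disjoint_left.2 fun x hx h => ?_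
    obtain ⟨y, hy, rfl⟩ := Finset.mem_image.1 h
    exact ht y hy hx
  have hspan : Submodule.span Om (w '' X) = ⊤ := by
    refine top_unique (hVV.sup_eq_top.ge.trans (sup_le ?_ ?_))
    · rw [← a2]
      refine Submodule.span_mono ?_
      rintro _ ⟨x, hx, rfl⟩
      exact ⟨x, Finset.mem_union_left _ hx, hw1 x hx⟩
    · rw [← b2]
      refine Submodule.span_mono ?_
      rintro _ ⟨x, hx, rfl⟩
      exact ⟨x + t, Finset.mem_union_right _ (Finset.mem_image_of_mem _ hx), hw2 x hx⟩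
  refine ⟨X, X1, w, ⟨hcard, ?_, hspan, fun e x hx => ?_⟩, Finset.subset_union_left, a1,
    fun e y hy => (a3 e y hy).1⟩
  · refine linearIndependent_of_top_le_span_of_card_eq_finrank ?_ (by simpa using hcard)
    rw [← hspan]
    refine Submodule.span_mono ?_
    rintro _ ⟨x, hx, rfl⟩
    exact ⟨⟨x, hx⟩, rfl⟩
  · rcases Finset.mem_union.1 hx with hx | hx
    · obtain ⟨k1, u, k2⟩ := a3 e x hx
      exact ⟨Finset.mem_union_left _ k1, u, by rw [hw1 x hx, hw1 _ k1, k2]⟩
    · obtain ⟨y, hy, rfl⟩ := Finset.mem_image.1 hx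
      obtain ⟨k1, u, k2⟩ := b3 e y hy
      rw [map_add, map_natCast]
      exact ⟨Finset.mem_union_right _ (Finset.mem_image_of_mem _ k1), u, by
        rw [hw2 y hy, hw2 _ k1, k2]⟩

end Pool.Agent.MP_db5b97_nt.H67
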