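import Pool.Agent.MP_db5b97_nt.H67.Spec

/-! Small dimensions: Frobenius groups. -/

namespace Pool.Agent.MP_db5b97_nt.H67

open H85 H30 Module

namespace RFROBX

variable {G V A : Type} [Group G] [AddCommGroup V] [DistribMulAction G V] [AddCommGroup A]
  [DistribMulAction G A] {N H : Subgroup G} {M : AddSubgroup V}

/-- an equivariant map from the non-trivial elements of `N` to `H` -/
theorem exists_sec (h1 : ∀ h ∈ H, ∀ n ∈ N, h * n * h⁻¹ ∈ N)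
    (h2 : ∀ h ∈ H, ∀ n ∈ N, h * n * h⁻¹ = n → h = 1 ∨ n = 1) :
    ∃ g : G → G, (∀ n, g n ∈ H) ∧ ∀ s ∈ H, ∀ n ∈ N, n ≠ 1 → g (s * n * s⁻¹) = s * g n := by
  let R : Setoid G := ⟨fun a b => ∃ s ∈ H, s * a * s⁻¹ = b,
    ⟨fun a => ⟨1, H.one_mem, by simp⟩,
      fun ⟨s, hs, e⟩ => ⟨s⁻¹, H.inv_mem hs, by rw [← e]; group⟩,
      fun ⟨s, hs, e⟩ ⟨t, ht, e'⟩ => ⟨t * s, H.mul_mem ht hs, by rw [← e', ← e]; group⟩⟩⟩
  have hr : ∀ n, ∃ s ∈ H, s * (Quotient.mk R n).out * s⁻¹ = n := fun n => Quotient.mk_out (s := R) n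
  choose g hg hg' using hr
  refine ⟨g, hg, fun s hs n hn hn1 => ?_⟩
  have e1 := hg' (s * n * s⁻¹)
  rw [← show Quotient.mk R n = Quotient.mk R (s * n * s⁻¹) from Quotient.sound ⟨s, hs, rfl⟩] at e1
  have e2 := hg' n
  rcases h2 (s * g n * (g (s * n * s⁻¹))⁻¹) (H.mul_mem (H.mul_mem hs (hg n)) (H.inv_mem (hg _))) _
    (h1 s hs n hn) (by
      calc _ = s * g n * (g (s * n * s⁻¹))⁻¹ *
            (g (s * n * s⁻¹) * (Quotient.mk R n).out * (g (s * n * s⁻¹))⁻¹) *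
            (s * g n * (g (s * n * s⁻¹))⁻¹)⁻¹ := by rw [e1]
        _ = s * (g n * (Quotient.mk R n).out * (g n)⁻¹) * s⁻¹ := by group
        _ = _ := by rw [e2]) with e | e
  · exact (mul_inv_eq_one.1 e).symm
  · exact absurd (conj_eq_one_iff.1 e) hn1

/-- conjugation as a permutation of `N` -/
def cjE (h1 : ∀ h ∈ H, ∀ n ∈ N, h * n * h⁻¹ ∈ N) {s : G} (hs : s ∈ H) : N ≃ N where
  toFun n := ⟨s * n * s⁻¹, h1 s hs n n.2⟩
  invFun n := ⟨s⁻¹ * n * s⁻¹⁻¹, h1 _ (H.inv_mem hs) n n.2⟩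
  left_inv n := Subtype.ext (by simp [mul_assoc])
  right_inv n := Subtype.ext (by simp [mul_assoc])

theorem main [Finite G] [Module.Free ℤ ↥(M ⊓ Fix V N)] (h90 : H90 A H)
    (h1 : ∀ h ∈ H, ∀ n ∈ N, h * n * h⁻¹ ∈ N)
    (h2 : ∀ h ∈ H, ∀ n ∈ N, h * n * h⁻¹ = n → h = 1 ∨ n = 1) (hH : Stab H M) (hN : Stab N M)
    (h3 : ∀ h ∈ H, ∀ y ∈ M, (∀ n ∈ N, n • y = y) → h • y = y) : Kill A H M (Nat.card N) := by
  intro c hc
  have := Fintype.ofFinite N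
  obtain ⟨g, hg, hg'⟩ := exists_sec h1 h2
  obtain ⟨β0, hβ0⟩ := kill_triv (Y := M ⊓ Fix V N) h90 (fun s hs y hy => h3 s hs y hy.1 hy.2) c
    (hc.mono le_rfl inf_le_left)
  have hd : ∀ (n : N), ∀ y ∈ M, (n : G) • y - y ∈ M := fun n y hy => sub_mem (hN n n.2 y hy) hy
  have hd' : ∀ (n : N), ∀ y ∈ M, (g n)⁻¹ • ((n : G) • y - y) ∈ M := fun n y hy =>
    hH _ (H.inv_mem (hg n)) _ (hd n y hy)
  have hT : ∀ y ∈ M, ∑ n : N, (n : G) • y ∈ M ⊓ Fix V N := fun y hy =>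
    ⟨sum_mem fun n _ => hN n n.2 y hy, fun s hs => by
      rw [Finset.smul_sum, ← Equiv.sum_comp (Equiv.mulLeft (⟨s, hs⟩ : N)) fun n => (n : G) • y]
      exact Finset.sum_congr rfl fun n _ => (mul_smul _ _ _).symm⟩
  refine ⟨fun y => ∑ n : N, c (g n) ((g n)⁻¹ • ((n : G) • y - y)) + β0 (∑ n : N, (n : G) • y),
    fun x hx y hy => ?_, fun s hs y hy => ?_⟩
  · have e : ∀ n : N, c (g n) ((g n)⁻¹ • ((n : G) • (x + y) - (x + y))) =
        c (g n) ((g n)⁻¹ • ((n : G) • x - x)) + c (g n) ((g n)⁻¹ • ((n : G) • y - y)) := fun n => by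
      rw [← hc.1 _ (hg n) _ (hd' n x hx) _ (hd' n y hy), ← smul_add, smul_add (n : G),
        add_sub_add_comm]
    simp only [e]
    simp only [smul_add, Finset.sum_add_distrib, hβ0.1 _ (hT x hx) _ (hT y hy)]
    abel
  · have e1 : ∑ n : N, (n : G) • s • y = s • ∑ n : N, (n : G) • y := by
      rw [Finset.smul_sum, ← Equiv.sum_comp (cjE h1 hs) fun n => (n : G) • s • y]
      exact Finset.sum_congr rfl fun n _ => by simp [cjE, mul_smul]
    have e2 : ∑ n : N, c (g n) ((g n)⁻¹ • ((n : G) • s • y - s • y)) =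
        ∑ n : N, (c s ((n : G) • y - y) + s • c (g n) ((g n)⁻¹ • ((n : G) • y - y))) := by
      rw [← Equiv.sum_comp (cjE h1 hs) fun n => c (g n) ((g n)⁻¹ • ((n : G) • s • y - s • y))]
      refine Finset.sum_congr rfl fun n _ => ?_
      show c (g (s * n * s⁻¹)) ((g (s * n * s⁻¹))⁻¹ • ((s * n * s⁻¹) • s • y - s • y)) = _
      by_cases hn : (n : G) = 1
      · simp [hn, (hc.1 _ (hg _)).zero, (hc.1 s hs).zero]
      · rw [hg' s hs n n.2 hn, mul_smul, mul_smul, inv_smul_smul, ← smul_sub, mul_inv_rev, mul_smul,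
          inv_smul_smul, hc.2 s hs _ (hg n) _ (hd' n y hy), smul_inv_smul]
    have e3 := hβ0.2 s hs _ (hT y hy)
    have e4 : ∑ n : N, c s ((n : G) • y - y) =
        c s (∑ n : N, (n : G) • y) - Nat.card N • c s y := by
      rw [← (hc.1 s hs).sum _ fun n _ => hd n y hy, Finset.sum_sub_distrib, Finset.sum_const,
        Finset.card_univ, (hc.1 s hs).sub (hT y hy).1 (nsmul_mem hy _), (hc.1 s hs).nsmul hy,
        Nat.card_eq_fintype_card]
    beta_reduce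
    rw [e1, e2, Finset.sum_add_distrib, e4, ← Finset.smul_sum, smul_add]
    rw [one_smul] at e3
    rw [e3]
    abel

end RFROBX

theorem rowFROB : RowFROB := by
  intro G Y A _ _ _ _ _ _ N H M h90 h1 h2 hH hN h3
  have := free_sub (M ⊓ Fix (Y →₀ ℤ) N)
  exact RFROBX.main h90 h1 h2 hH hN h3

end Pool.Agent.MP_db5b97_nt.H67
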