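import Pool.Agent.MP_db5b97_nt.H67.Spec

/-! Primes of good reduction. -/

namespace Pool.Agent.MP_db5b97_nt.H67

open H85 NumberField Polynomial

theorem exists_int {F : Type} [Field F] [NumberField F] (w : Sp F) {x : F}
    (hx : w.valuation F x ≤ 1) : ∃ y : 𝓞 F, w.valuation F (x - y) < 1 := by
  obtain ⟨n, d, e⟩ := w.exists_primeCompl_mul_eq_of_integer x hx
  obtain ⟨u, i, hi, hu⟩ := w.isMaximal.exists_inv d.2
  refine ⟨u * n, ?_⟩
  have e1 : x - ((u * n : 𝓞 F) : F) = x * (i : 𝓞 F) := by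
    have e2 := congrArg (fun t : 𝓞 F => (t : F)) hu
    have e3 : x * ((d : 𝓞 F) : F) = n := e
    simp only [map_add, map_mul, map_one] at e2 ⊢
    linear_combination (-x) * e2 + (u : F) * e3
  rw [e1, map_mul]
  exact mul_lt_one_of_nonneg_of_lt_one_right hx zero_le ((val_lt_one_iff w i).2 hi)

theorem rowGD : RowGD := by
  intro F _ _ w a c h2 ha hc δ hδ
  obtain ⟨a', ea⟩ := exists_int w ha.le
  obtain ⟨c', ec⟩ := exists_int w hc.le
  have := w.isMaximal
  let _ := Ideal.Quotient.field w.asIdeal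
  have : Finite (𝓞 F ⧸ w.asIdeal) := Ideal.finiteQuotientOfFreeOfNeBot _ w.ne_bot
  let _ := Fintype.ofFinite (𝓞 F ⧸ w.asIdeal)
  have a0 : Ideal.Quotient.mk w.asIdeal a' ≠ 0 := fun h => by
    have h1 := (val_lt_one_iff w a').2 (Ideal.Quotient.eq_zero_iff_mem.1 h)
    have := Valuation.map_add_lt _ ea h1
    rw [sub_add_cancel, ha] at this
    exact lt_irrefl _ this
  have t0 : ringChar (𝓞 F ⧸ w.asIdeal) ≠ 2 := fun h => by
    have h1 : ((2 : ℕ) : 𝓞 F ⧸ w.asIdeal) = 0 := h ▸ ringChar.Nat.cast_ringChar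
    rw [← map_natCast (Ideal.Quotient.mk w.asIdeal), Ideal.Quotient.eq_zero_iff_mem] at h1
    have := val_nat_lt_one h1
    rw [Nat.cast_ofNat, h2] at this
    exact lt_irrefl _ this
  obtain ⟨s, t, e⟩ := FiniteField.exists_root_sum_quadratic (R := 𝓞 F ⧸ w.asIdeal) (f := X ^ 2)
    (g := C (-Ideal.Quotient.mk _ a') * X ^ 2 + C 0 * X + C (-Ideal.Quotient.mk _ c'))
    (degree_X_pow 2) (degree_quadratic (neg_ne_zero.2 a0))
    ((FiniteField.odd_card_of_char_ne_two t0))
  obtain ⟨s, rfl⟩ := Ideal.Quotient.mk_surjective s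
  obtain ⟨t, rfl⟩ := Ideal.Quotient.mk_surjective t
  have e1 : w.valuation F ((s : F) ^ 2 - a * (t : F) ^ 2 - c) < 1 := by
    have h1 := (val_lt_one_iff w (s ^ 2 - a' * t ^ 2 - c')).2 (Ideal.Quotient.eq_zero_iff_mem.1 (by
      simp only [eval_add, eval_mul, eval_pow, eval_C, eval_X] at e
      simp only [map_sub, map_mul, map_pow]
      linear_combination e))
    rw [show (s : F) ^ 2 - a * (t : F) ^ 2 - c = ((s ^ 2 - a' * t ^ 2 - c' : 𝓞 F) : F) -
      (a - a') * (t : F) ^ 2 - (c - c') by simp only [map_sub, map_mul, map_pow]; ring]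
    refine Valuation.map_sub_lt _ (Valuation.map_sub_lt _ h1 ?_) ec
    rw [map_mul, map_pow]
    exact mul_lt_one_of_lt_of_le ea (pow_le_one' (val_le_one w t) 2)
  rcases (val_le_one w s).eq_or_lt with hs | hs
  · obtain ⟨z, hz⟩ := newton (w.valuation F) (p := 0) (c := a * (t : F) ^ 2 + c) (y := s) h2.le
      (by rw [add_zero, map_mul, h2, hs, mul_one]) (by convert e1 using 2; ring) hδ
    exact ⟨z, t, by convert hz using 2; ring⟩
  · have a1 : a ≠ 0 := fun h => by simp [h] at ha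
    have ht : w.valuation F t = 1 := by
      refine (val_le_one w t).eq_or_lt.resolve_right fun ht => ?_
      have h1 : w.valuation F ((s : F) ^ 2 - a * (t : F) ^ 2) < 1 := Valuation.map_sub_lt _
        (by rw [map_pow]; exact pow_lt_one' hs two_ne_zero)
        (by rw [map_mul, ha, one_mul, map_pow]; exact pow_lt_one' ht two_ne_zero)
      have := Valuation.map_sub_lt _ h1 e1
      rw [sub_sub_cancel, hc] at this
      exact lt_irrefl _ this
    have k : ∀ z : F, w.valuation F ((s : F) ^ 2 - a * z ^ 2 - c) =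
        w.valuation F (z ^ 2 + 0 * z - ((s : F) ^ 2 - c) / a) := fun z => by
      rw [show (s : F) ^ 2 - a * z ^ 2 - c = -(a * (z ^ 2 + 0 * z - ((s : F) ^ 2 - c) / a)) by
        field_simp; ring, Valuation.map_neg, map_mul, ha, one_mul]
    obtain ⟨z, hz⟩ := newton (w.valuation F) (p := 0) (c := ((s : F) ^ 2 - c) / a) (y := t) h2.le
      (by rw [add_zero, map_mul, h2, ht, mul_one]) (k t ▸ e1) hδ
    exact ⟨s, z, k z ▸ hz⟩

end Pool.Agent.MP_db5b97_nt.H67
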