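import Pool.Agent.MP_db5b97_nt.H67.Spec

/-! Row H2: rank one is impossible for a minimal group. -/

namespace Pool.Agent.MP_db5b97_nt.H67

open H85 H30 Module

namespace RH2X

section Alg

variable {R : Type} [Ring R] [Algebra Om R] [Nontrivial R] {I J : R}

theorem ne_neg_one : (1 : R) ≠ -1 := fun h => by
  have e : (2 : Om) • (1 : R) = 0 := by rw [two_smul]; exact eq_neg_iff_add_eq_zero.1 h
  exact one_ne_zero ((smul_eq_zero.1 e).resolve_left two_ne_zero)

theorem sgn {A X : R} {a : Om} (hA : A * A = -1) (hX : X * X = -1) (h : X = a • A) :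
    X = A ∨ X = -A := by
  rw [h, smul_mul_smul_comm, hA] at hX
  have e : a * a = 1 := smul_left_injective Om (neg_ne_zero.2 (one_ne_zero (α := R)))
    (hX.trans (one_smul Om _).symm)
  rcases mul_self_eq_one_iff.1 e with rfl | rfl
  · exact Or.inl (by rw [h, one_smul])
  · exact Or.inr (by rw [h, neg_smul, one_smul])

omit [Algebra Om R] [Nontrivial R] in
theorem kk (hI : I * I = -1) (hJ : J * J = -1) (h : I * J = -(J * I)) : I * J * (I * J) = -1 := by
  have e : J * I = -(I * J) := by rw [h, neg_neg]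
  calc _ = I * (J * I) * J := by simp only [mul_assoc]
    _ = -(I * I * (J * J)) := by rw [e]; simp only [mul_assoc, mul_neg, neg_mul]
    _ = -1 := by rw [hI, hJ]; simp

theorem six (hI : I * I = -1) (hJ : J * J = -1) (h : I * J = -(J * I)) {X Y : R}
    (hX : X * X = -1) (hY : Y * Y = -1) (hXY : X * Y = -(Y * X))
    (k : ∃ (a : Om) (A : R), A ∈ ({1, I, J, I * J} : Set _) ∧ X = a • A) :
    (X = I ∨ X = -I) ∨ (X = J ∨ X = -J) ∨ X = I * J ∨ X = -(I * J) := by
  obtain ⟨a, A, rfl | rfl | rfl | rfl, k⟩ := k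
  · exfalso
    have e : X * Y = Y * X := by rw [k, smul_mul_assoc, mul_smul_comm, one_mul, mul_one]
    have e2 : Y * X * X * Y = 1 := by rw [mul_assoc Y, hX, mul_neg_one, neg_mul, hY, neg_neg]
    have e3 := congrArg (· * X * Y) (e.symm.trans hXY)
    simp only [neg_mul, e2] at e3
    exact ne_neg_one e3
  · exact Or.inl (sgn hI hX k)
  · exact Or.inr (Or.inl (sgn hJ hX k))
  · exact Or.inr (Or.inr (sgn (kk hI hJ h) hX k))

theorem eight (hI : I * I = -1) (hJ : J * J = -1) (h : I * J = -(J * I)) {X Y : R}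
    (hXY : X * Y = -(Y * X))
    (kX : (X = I ∨ X = -I) ∨ (X = J ∨ X = -J) ∨ X = I * J ∨ X = -(I * J))
    (kY : (Y = I ∨ Y = -I) ∨ (Y = J ∨ Y = -J) ∨ Y = I * J ∨ Y = -(I * J)) :
    ∃ a b c : ℤˣ, X + Y + X * Y = (a : ℤ) • I + (b : ℤ) • J + (c : ℤ) • (I * J) := by
  have hK := kk hI hJ h
  have e1 : J * I = -(I * J) := by rw [h, neg_neg]
  have e2 : I * (I * J) = -J := by rw [← mul_assoc, hI, neg_one_mul]
  have e3 : I * J * J = -I := by rw [mul_assoc, hJ, mul_neg_one]
  have e4 : I * J * I = J := by rw [mul_assoc, e1, mul_neg, e2, neg_neg]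
  have e5 : J * (I * J) = I := by rw [← mul_assoc, e1, neg_mul, e3, neg_neg]
  have n1 := ne_neg_one (R := R)
  have n2 := n1.symm
  generalize hk : I * J = K at *
  rcases kX with (k | k) | (k | k) | k | k <;> rcases kY with (l | l) | (l | l) | l | l <;>
    rw [k, l] at hXY ⊢ <;>
    simp only [mul_neg, neg_mul, neg_neg, hI, hJ, hK, hk, e1, e2, e3, e4, e5, n1, n2] at hXY ⊢ <;>
    first
      | (refine ⟨1, 1, 1, ?_⟩; simp only [Units.val_one]; abel1)
      | (refine ⟨1, 1, -1, ?_⟩; simp only [Units.val_one, Units.val_neg]; abel1)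
      | (refine ⟨1, -1, 1, ?_⟩; simp only [Units.val_one, Units.val_neg]; abel1)
      | (refine ⟨1, -1, -1, ?_⟩; simp only [Units.val_one, Units.val_neg]; abel1)
      | (refine ⟨-1, 1, 1, ?_⟩; simp only [Units.val_one, Units.val_neg]; abel1)
      | (refine ⟨-1, 1, -1, ?_⟩; simp only [Units.val_one, Units.val_neg]; abel1)
      | (refine ⟨-1, -1, 1, ?_⟩; simp only [Units.val_one, Units.val_neg]; abel1)
      | (refine ⟨-1, -1, -1, ?_⟩; simp only [Units.val_one, Units.val_neg]; abel1)

end Alg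

variable {E W : Type} [Group E] [AddCommGroup W] [Module Om W] [DistribMulAction E W]
  {π : E →* Ga}

theorem flip {c : SL W π} {I J : End Om W} (t : PB c I) (hI : I * I = -1)
    (h : I * J = -(J * I)) : ∃ g : E, π g = 1 ∧ cj c g I = I ∧ cj c g J = -J := by
  obtain ⟨-, ⟨g, a, h1, -, h2⟩, -⟩ := t
  have e : ∀ X Y : End Om W, X * I = Y * I → X = Y := fun X Y k => by
    have e := congrArg (· * I) k
    simp only [mul_assoc, hI, mul_neg_one] at e
    exact neg_injective e
  exact ⟨g, h1, e _ _ (cj_ker c h2 I), e _ _ ((cj_ker c h2 J).trans (by rw [h, neg_mul]))⟩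

end RH2X

open RH2X in
theorem rowH2 : RowH2 := by
  intro E W _ _ _ _ _ _ π E0 c I J pI pJ hI hJ h hall
  have h' : J * I = -(I * J) := by rw [h, neg_neg]
  obtain ⟨g, g1, g2, g3⟩ := RH2X.flip pI hI h
  obtain ⟨u, u1, u3, u2⟩ := RH2X.flip pJ hJ h'
  have g4 : cj c.sl g (I * J) = -(I * J) := by rw [cj_comp, g2, g3, mul_neg]
  have u4 : cj c.sl u (I * J) = -(I * J) := by rw [cj_comp, u2, u3, neg_mul]
  generalize hT : I + J + I * J = T
  let U : Subgroup E :=
    { carrier := {e | cj c.sl e T = T ∨ cj c.sl e T = -T}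
      one_mem' := Or.inl (cj_one _ _)
      mul_mem' := fun {e f} he hf => by
        show _ ∨ _
        rcases he with he | he <;> rcases hf with hf | hf <;>
          simp only [cj_mul, hf, he, cj_neg, neg_neg, true_or, or_true]
      inv_mem' := fun {e} he => he.imp (fun k => cj_inj c.sl e (by
        rw [← cj_mul, mul_inv_cancel, cj_one, k])) fun k => cj_inj c.sl e (by
        rw [← cj_mul, mul_inv_cancel, cj_one, cj_neg, k, neg_neg]) }
  have hU : Opn π E0 U := (c.toCx.op_cj T).mono fun e he => Or.inl he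
  have key : ∀ e, ∃ a b d : ℤˣ,
      cj c.sl e T = (a : ℤ) • I + (b : ℤ) • J + (d : ℤ) • (I * J) := fun e => by
    have sq : ∀ X : End Om W, X * X = -1 → (cj c.sl e X : End Om W) * cj c.sl e X = -1 :=
      fun X k => by rw [← cj_comp, k, cj_neg, cj_id]
    have an : ∀ X Y : End Om W, X * Y = -(Y * X) →
        (cj c.sl e X : End Om W) * cj c.sl e Y = -((cj c.sl e Y : End Om W) * cj c.sl e X) :=
      fun X Y k => by rw [← cj_comp, k, cj_neg, cj_comp]
    rw [← hT, cj_add, cj_add, cj_comp]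
    exact eight hI hJ h (an I J h)
      (six hI hJ h (sq I hI) (sq J hJ) (an I J h) (hall _ (pI.cj e)))
      (six hI hJ h (sq J hJ) (sq I hI) (an J I h') (hall _ (pJ.cj e)))
  have m := c.min U hU (fun e => by
    obtain ⟨a, b, d, k⟩ := key e
    have mem : ∀ v : E, π v = 1 → (cj c.sl v (cj c.sl e T) = T ∨ cj c.sl v (cj c.sl e T) = -T) →
        ∃ v, π v = 1 ∧ v * e ∈ U := fun v h1 h2 => ⟨v, h1, by
      show _ ∨ _
      rwa [cj_mul]⟩
    have gu : π (g * u) = 1 := by rw [map_mul, g1, u1, mul_one]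
    rw [k, ← hT] at mem
    rcases Int.units_eq_one_or a with rfl | rfl <;> rcases Int.units_eq_one_or b with rfl | rfl <;>
      rcases Int.units_eq_one_or d with rfl | rfl <;>
      simp only [Units.val_one, Units.val_neg, one_smul, neg_smul] at mem
    · exact mem 1 (map_one π) (Or.inl (cj_one _ _))
    · refine mem _ gu (Or.inr ?_)
      simp only [cj_mul, cj_add, cj_neg, g2, g3, g4, u2, u3, u4]
      abel1
    · refine mem _ u1 (Or.inr ?_)
      simp only [cj_add, cj_neg, u2, u3, u4]
      abel1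
    · refine mem _ g1 (Or.inl ?_)
      simp only [cj_add, cj_neg, g2, g3, g4]
      abel1
    · refine mem _ g1 (Or.inr ?_)
      simp only [cj_add, cj_neg, g2, g3, g4]
      abel1
    · refine mem _ u1 (Or.inl ?_)
      simp only [cj_add, cj_neg, u2, u3, u4]
      abel1
    · refine mem _ gu (Or.inl ?_)
      simp only [cj_mul, cj_add, cj_neg, g2, g3, g4, u2, u3, u4]
      abel1
    · refine mem 1 (map_one π) (Or.inr ?_)
      rw [cj_one]
      abel1) g g1
  have two : ∀ X : End Om W, X + X = 0 → X = 0 := fun X k =>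
    (smul_eq_zero.1 ((two_smul Om X).trans k)).resolve_left two_ne_zero
  change cj c.sl g T = T ∨ cj c.sl g T = -T at m
  rw [← hT, cj_add, cj_add, g2, g3, g4] at m
  have n1 := ne_neg_one (R := End Om W)
  rcases m with m | m
  · have e := congrArg (· * J) (two (J + I * J) (by
      rw [← sub_eq_zero.2 m.symm]
      abel1))
    simp only [add_mul, mul_assoc, hJ, mul_neg_one, zero_mul] at e
    rw [← add_neg_eq_zero.1 e] at hI
    exact n1 (by simpa using hI)
  · have e := two I (by
      rw [← sub_eq_zero.2 m]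
      abel1)
    rw [e, mul_zero] at hI
    exact one_ne_zero (neg_eq_zero.1 hI.symm)

end Pool.Agent.MP_db5b97_nt.H67
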