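import Pool.Agent.MP_db5b97_nt.H67.Spec

/-! Row H4: rank two is impossible for a minimal group. -/

namespace Pool.Agent.MP_db5b97_nt.H67

open H85 H30 Module

namespace RH4X

/-- a sign as a scalar -/
noncomputable def sg (u : ℤˣ) : Om := ((u : ℤ) : Om)

theorem sg_mul (u v : ℤˣ) : sg (u * v) = sg u * sg v := by simp [sg]

theorem sg_one : sg 1 = 1 := by simp [sg]

theorem sg_sq (u : ℤˣ) : sg u * sg u = 1 := by rw [← sg_mul, Int.units_mul_self, sg_one]

theorem sg_map (s : Ga) (u : ℤˣ) : s (sg u) = sg u := map_intCast s _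

theorem sg_inj {u v : ℤˣ} (h : sg u = sg v) : u = v := Units.ext (Int.cast_injective (α := Om) h)

theorem sg_smul {M : Type} [AddCommGroup M] [Module Om M] (u : ℤˣ) (x : M) :
    ((u : ℤˣ) : ℤ) • x = sg u • x := (Int.cast_smul_eq_zsmul Om _ x).symm

theorem flip {M : Type} [AddCommGroup M] [Module Om M] {u : ℤˣ} {x y : M} (h : x = sg u • y) :
    y = sg u • x := by rw [h, smul_smul, sg_sq, one_smul]

variable {E W : Type} [Group E] [AddCommGroup W] [Module Om W] [DistribMulAction E W]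
  {π : E →* Ga}

theorem pb_list {c : SL W π} {f : Fin 6 → End Om W} (hf : ∀ i, PB c (f i)) (l : List (Fin 6)) :
    PB c (l.map f).prod := by
  induction l with
  | nil => exact PB.one c
  | cons a l ih =>
    rw [List.map_cons, List.prod_cons]
    exact (hf a).mul ih

theorem hs_cj (c : SL W π) {h : Fin 6 → Fin 6 → End Om W} (t : Hs h) (e : E) :
    Hs (R := End Om W) fun i j => cj c e (h i j) :=
  ⟨fun i j k => by rw [← cj_comp, t.mul], fun i => by rw [t.one, cj_id],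
    fun i j hij => by rw [← cj_comp, t.sq i j hij, cj_neg, cj_id]⟩

theorem signs (H : RowH4s) {c : SL W π} {h : Fin 6 → Fin 6 → End Om W} (t : Hs h)
    (hp : ∀ i j, PB c (h i j)) (v : Fin 6 → ℤˣ) (hv : ∏ i, v i = 1) :
    ∃ g : E, π g = 1 ∧ ∀ i j, cj c g (h i j) = sg (v i * v j) • h i j := by
  obtain ⟨l, hl⟩ := (H _ h t).2 v hv
  obtain ⟨⟨a, h1, h2⟩, ⟨g, b, h3, -, h5⟩, -⟩ := pb_list (hp 0) l
  refine ⟨g, h3, fun i j => smul_right_injective _ h1 ?_⟩
  have e1 := congrArg (· * (l.map (h 0)).prod) ((cj_ker c h5 (h i j)).trans (hl i j))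
  simp only [sg_smul, smul_mul_assoc, mul_assoc, h2, mul_smul_comm, mul_one] at e1
  show a • cj c g (h i j) = a • sg (v i * v j) • h i j
  rw [e1, smul_comm]

theorem zsq (H : RowH4s) [Nontrivial W] {h : Fin 6 → Fin 6 → End Om W} (t : Hs h) {z : Om}
    (hz : h 0 1 * h 2 3 * h 4 5 = z • (1 : End Om W)) : z ^ 2 = -1 := by
  have e1 := (H _ h t).1 (Equiv.swap 0 5 * Equiv.swap 1 4 * Equiv.swap 2 3)
  have e2 : Equiv.Perm.sign (Equiv.swap 0 5 * Equiv.swap 1 4 * Equiv.swap 2 3 :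
      Equiv.Perm (Fin 6)) = -1 := by
    rw [map_mul, map_mul, Equiv.Perm.sign_swap (by decide), Equiv.Perm.sign_swap (by decide),
      Equiv.Perm.sign_swap (by decide)]
    decide
  rw [e2] at e1
  change h 5 4 * h 3 2 * h 1 0 = _ at e1
  have e3 : h 0 1 * h 2 3 * h 4 5 * (h 5 4 * h 3 2 * h 1 0) = 1 := by
    calc _ = h 0 1 * (h 2 3 * (h 4 5 * h 5 4) * h 3 2) * h 1 0 := by simp only [mul_assoc]
      _ = 1 := by simp only [t.mul, t.one, mul_one]
  rw [e1, hz] at e3
  simp only [Units.val_neg, Units.val_one, neg_smul, one_smul, mul_neg, smul_mul_smul_comm,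
    mul_one] at e3
  refine smul_left_injective Om (one_ne_zero (α := End Om W)) ?_
  show z ^ 2 • (1 : End Om W) = (-1 : Om) • (1 : End Om W)
  rw [pow_two, neg_smul, one_smul]
  exact neg_eq_iff_eq_neg.1 e3

end RH4X

open RH4X in
theorem rowH4 : RowH4b → RowH4s → RowMU → RowLAB → RowH4 := by
  intro Hb Hs' Hmu Hlab E W _ _ _ _ _ _ π E0 c h t hp ⟨z, hz⟩ hall
  obtain ⟨b1, b2⟩ := Hb _ h t
  have b3 := fun e : E => b1 _ (hs_cj c.sl t e) fun i j => hall _ ((hp i j).cj e)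
  choose σ0 s hs using b3
  simp only [sg_smul] at hs
  have hσ : ∀ e f, σ0 (e * f) = σ0 e * σ0 f := fun e f => b2 _ _ fun i j => by
    have e1 := hs (e * f) i j
    rw [cj_mul, hs f, cj_smul, hs e] at e1
    exact ⟨_, by rw [flip e1, smul_smul, smul_smul]; rfl⟩
  let σ : E →* Equiv.Perm (Fin 6) := MonoidHom.mk' σ0 hσ
  have hσ0 : ∀ e, σ0 e = σ e := fun _ => rfl
  simp only [hσ0] at hs
  have h1 : ∀ e, (∀ i j, ∃ a : Om, cj c.sl e (h i j) = a • h i j) → σ e = 1 := fun e he =>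
    b2 _ _ fun i j => by
      obtain ⟨a, ha⟩ := he i j
      exact ⟨_, by rw [flip (hs e i j), ha, smul_smul]; rfl⟩
  have h2 : ∀ g, π g = 1 → σ g = 1 := fun g hg => h1 g fun i j => (hp i j).2.2 g hg
  have h3 : OP π E0 fun e => ∀ i j, cj c.sl e (h i j) = h i j :=
    OP.all fun i => OP.all fun j => c.toCx.op_cj (h i j)
  have h4 : ∀ e, (∀ i j, cj c.sl e (h i j) = h i j) → σ e = 1 := fun e he =>
    h1 e fun i j => ⟨1, by rw [he, one_smul]⟩
  obtain ⟨α, hα, hα'⟩ := Hlab E (Fin 6) π E0 σ c.op h2 (h3.mono h4)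
  obtain ⟨μ, hμ, hμ'⟩ := Hmu α hα
  choose τ ht hτ using fun e => hμ' (π e) (σ e) (hα' e)
  have z2 := zsq Hs' t hz
  have z0 : z ≠ 0 := fun h0 => by simp [h0] at z2
  have h5 : ∀ e, ∏ i, (s e i * τ e i) = 1 := fun e => by
    have e1 := congrArg (cj c.sl e) hz
    rw [cj_comp, cj_comp, hs, hs, hs, cj_smul, cj_id, smul_mul_smul_comm, smul_mul_smul_comm,
      (Hs' _ h t).1, sg_smul, hz, smul_smul, smul_smul, hτ e z z2] at e1
    have e2 := mul_right_cancel₀ z0 (smul_left_injective Om (one_ne_zero (α := End Om W)) e1)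
    rw [← sg_mul, ← sg_mul, ← sg_mul] at e2
    have e3 := mul_right_cancel (sg_inj e2)
    rw [Finset.prod_mul_distrib, ← e3, Fin.prod_univ_six, ← Int.units_mul_self (s e 0 * s e 1 *
      (s e 2 * s e 3) * (s e 4 * s e 5))]
    simp only [mul_assoc]
  let m : Fin 6 → Fin 6 → End Om W := fun i j => (μ i * μ j) • h i j
  have h6 : ∀ e i j, cj c.sl e (m i j) =
      sg (s e i * τ e i * (s e j * τ e j)) • m (σ e i) (σ e j) := fun e i j => by
    simp only [m]
    rw [cj_smul, hs, map_mul, ht, ht, smul_smul, smul_smul]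
    congr 1
    simp only [sg_mul]
    simp only [sg]
    ring
  let U : Subgroup E :=
    { carrier := {e | ∀ i j, cj c.sl e (m i j) = m (σ e i) (σ e j)}
      one_mem' := fun i j => by rw [cj_one, map_one]; rfl
      mul_mem' := fun {e f} he hf i j => by rw [cj_mul, hf, he, map_mul]; rfl
      inv_mem' := fun {e} he i j => by
        have e1 := congrArg (cj c.sl e⁻¹) (he (σ e⁻¹ i) (σ e⁻¹ j))
        rw [← cj_mul, inv_mul_cancel, cj_one, ← Equiv.Perm.mul_apply, ← Equiv.Perm.mul_apply (σ e),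
          ← map_mul, mul_inv_cancel, map_one] at e1
        exact e1.symm }
  have hU : Opn π E0 U := (h3.and (OP.all fun i => op_fix (μ i))).mono fun e he i j => by
    simp only [m]
    rw [h4 e he.1, cj_smul, he.1, map_mul, he.2, he.2]
    rfl
  have h7 : ∀ g (v : Fin 6 → ℤˣ), π g = 1 → (∀ i j, cj c.sl g (h i j) = sg (v i * v j) • h i j) →
      ∀ i j, cj c.sl g (m i j) = sg (v i * v j) • m i j := fun g v hg hv i j => by
    simp only [m]
    rw [cj_smul, hv, hg, AlgEquiv.one_apply, smul_comm]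
  have h8 := c.min U hU fun e => by
    obtain ⟨g, hg, hv⟩ := signs Hs' t hp (fun i => s e ((σ e)⁻¹ i) * τ e ((σ e)⁻¹ i))
      ((Equiv.prod_comp (σ e)⁻¹ fun i => s e i * τ e i).trans (h5 e))
    refine ⟨g, hg, fun i j => ?_⟩
    rw [cj_mul, h6, cj_smul, h7 g _ hg hv, sg_map, map_mul, h2 g hg, one_mul, smul_smul]
    simp only [Equiv.Perm.coe_inv, Equiv.symm_apply_apply, sg_sq, one_smul]
  obtain ⟨g, hg, hv⟩ := signs Hs' t hp (fun i => if i = 0 ∨ i = 1 then -1 else 1) (by decide)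
  have e1 := h8 g hg 0 2
  rw [h7 g _ hg hv, h2 g hg] at e1
  change sg (-1 * 1) • m 0 2 = m 0 2 at e1
  have e2 : m 0 2 ≠ 0 := smul_ne_zero (mul_ne_zero (hμ 0) (hμ 2)) fun h0 => by
    have := t.mul 0 2 0
    rw [h0, zero_mul, t.one] at this
    exact zero_ne_one this
  have e3 : sg (-1 * 1) = sg 1 := smul_left_injective Om e2 (e1.trans (by
    show _ = sg 1 • m 0 2
    rw [sg_one, one_smul]))
  exact absurd (sg_inj e3) (by decide)

end Pool.Agent.MP_db5b97_nt.H67
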