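import Pool.Agent.MP_db5b97_nt.H67.Spec

/-! From two commuting quaternion pairs to a system of fifteen square roots of minus one. -/

namespace Pool.Agent.MP_db5b97_nt.H67

open H85 H30 Module

namespace RH4aX

abbrev T : Type := Fin 4 × Fin 4 × Fin 4

def xr : Fin 4 → Fin 4 → Fin 4 := ![![0, 1, 2, 3], ![1, 0, 3, 2], ![2, 3, 0, 1], ![3, 2, 1, 0]]

def sg : Fin 4 → Fin 4 → Fin 4 := ![![0, 0, 0, 0], ![0, 2, 0, 2], ![0, 2, 2, 0], ![0, 0, 2, 2]]

def mu (s t : T) : T :=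
  (s.1 + t.1 + sg s.2.1 t.2.1 + sg s.2.2 t.2.2, xr s.2.1 t.2.1, xr s.2.2 t.2.2)

def g : Fin 6 → T := ![(0, 0, 0), (0, 1, 0), (0, 2, 0), (1, 3, 1), (1, 3, 2), (1, 3, 3)]

def gi : Fin 6 → T := ![(0, 0, 0), (2, 1, 0), (2, 2, 0), (3, 3, 1), (3, 3, 2), (3, 3, 3)]

def hT (a b : Fin 6) : T := mu (gi a) (g b)

theorem c1 : ∀ a b c, mu (hT a b) (hT b c) = hT a c := by decide +kernel

theorem c2 : ∀ a, hT a a = (0, 0, 0) := by decide +kernel

theorem c3 : ∀ a b, a ≠ b → mu (hT a b) (hT a b) = (2, 0, 0) := by decide +kernel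

theorem c4 : ∃ n, mu (mu (hT 0 1) (hT 2 3)) (hT 4 5) = (n, 0, 0) := by decide +kernel

theorem c5 : ∀ x y, ∃ a b, (hT a b).2 = (x, y) := by decide +kernel

variable {R : Type} [Ring R] [Algebra Om R]

def q (I J : R) : Fin 4 → R := ![1, I, J, I * J]

omit [Algebra Om R] in
theorem q_mem (I J : R) (x : Fin 4) : q I J x ∈ ({1, I, J, I * J} : Set R) := by
  fin_cases x <;> simp [q]

omit [Algebra Om R] in
theorem mem_q {I J A : R} (h : A ∈ ({1, I, J, I * J} : Set R)) : ∃ x, A = q I J x := by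
  rcases h with h | h | h | h
  exacts [⟨0, h⟩, ⟨1, h⟩, ⟨2, h⟩, ⟨3, h⟩]

theorem q_mul {i : Om} (hi : i ^ 2 = -1) {I J : R} (h1 : I * I = -1) (h2 : J * J = -1)
    (h3 : I * J = -(J * I)) (x y : Fin 4) :
    q I J x * q I J y = i ^ (sg x y : ℕ) • q I J (xr x y) := by
  have a1 : J * I = -(I * J) := by rw [h3, neg_neg]
  have a2 : I * (I * J) = -J := by rw [← mul_assoc, h1, neg_one_mul]
  have a3 : J * (I * J) = I := by rw [← mul_assoc, a1, neg_mul, mul_assoc, h2, mul_neg_one, neg_neg]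
  have a4 : I * J * I = J := by rw [mul_assoc, a1, mul_neg, a2, neg_neg]
  have a5 : I * J * J = -I := by rw [mul_assoc, h2, mul_neg_one]
  have a6 : I * J * (I * J) = -1 := by rw [mul_assoc, a3, h1]
  fin_cases x <;> fin_cases y <;> simp [q, sg, xr, hi, h1, h2, a1, a2, a3, a4, a5, a6]

omit [Algebra Om R] in
theorem q_comm {I J I' J' : R} (h1 : I * I' = I' * I) (h2 : I * J' = J' * I) (h3 : J * I' = I' * J)
    (h4 : J * J' = J' * J) (x y : Fin 4) : Commute (q I' J' y) (q I J x) := by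
  have k : ∀ A : R, Commute A I → Commute A J → Commute A (q I J x) := fun A a b => by
    fin_cases x
    exacts [Commute.one_right A, a, b, a.mul_right b]
  have a : Commute I' (q I J x) := k I' h1.symm h3.symm
  have b : Commute J' (q I J x) := k J' h2.symm h4.symm
  fin_cases y
  exacts [Commute.one_left _, a, b, a.mul_left b]

theorem pw {i : Om} (hi : i ^ 2 = -1) (a b : Fin 4) :
    i ^ ((a + b : Fin 4) : ℕ) = i ^ (a : ℕ) * i ^ (b : ℕ) := by
  have h4 : i ^ 4 = 1 := by rw [show 4 = 2 * 2 from rfl, pow_mul, hi, neg_one_sq]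
  rw [Fin.val_add, ← pow_eq_pow_mod _ h4, pow_add]

end RH4aX

open RH4aX

theorem rowH4a : RowH4a := by
  intro R _ _ I J I' J' h1 h2 h3 k1 k2 k3 e1 e2 e3 e4
  obtain ⟨i, hi⟩ := IsAlgClosed.exists_pow_nat_eq (-1 : Om) (n := 2) (by norm_num)
  have i0 : i ≠ 0 := by
    rintro rfl
    norm_num at hi
  let ev : T → R := fun t => i ^ (t.1 : ℕ) • (q I J t.2.1 * q I' J' t.2.2)
  have hm : ∀ s t, ev s * ev t = ev (mu s t) := fun s t => by
    simp only [ev, mu]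
    rw [smul_mul_smul_comm, mul_assoc, ← mul_assoc (q I' J' _), (q_comm e1 e2 e3 e4 _ _).eq,
      mul_assoc, ← mul_assoc, q_mul hi h1 h2 h3, q_mul hi k1 k2 k3, smul_mul_smul_comm, smul_smul,
      pw hi, pw hi, pw hi, mul_assoc (_ * _)]
  have h0 : ∀ n, ev (n, 0, 0) = i ^ (n : ℕ) • (1 : R) := fun n => by simp [ev, q]
  refine ⟨fun a b => ev (hT a b), ⟨fun a b c => by rw [hm, c1], fun a => by rw [c2, h0]; simp,
    fun a b h => by rw [hm, c3 a b h, h0]; simp [hi]⟩, ?_,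
    fun a b => ⟨_, _, _, pow_ne_zero _ i0, q_mem I J _, q_mem I' J' _, rfl⟩, fun A hA B hB => ?_⟩
  · obtain ⟨n, hn⟩ := c4
    exact ⟨_, by beta_reduce; rw [hm, hm, hn, h0]⟩
  · obtain ⟨x, rfl⟩ := mem_q hA
    obtain ⟨y, rfl⟩ := mem_q hB
    obtain ⟨a, b, h⟩ := c5 x y
    refine ⟨(i ^ ((hT a b).1 : ℕ))⁻¹, a, b, ?_⟩
    simp only [ev, h]
    rw [smul_smul, inv_mul_cancel₀ (pow_ne_zero _ i0), one_smul]

end Pool.Agent.MP_db5b97_nt.H67
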