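import Pool.Agent.MP_db5b97_nt.H67.Spec

/-! Comparison of two systems of fifteen square roots of minus one. -/

namespace Pool.Agent.MP_db5b97_nt.H67

open H85 H30 Module

namespace RH4bX

/-- two pairs with exactly one common point -/
def ac (a b c d : Fin 6) : Prop :=
  a ≠ b ∧ c ≠ d ∧ (a = c ∧ b ≠ d ∨ a = d ∧ b ≠ c ∨ b = c ∧ a ≠ d ∨ b = d ∧ a ≠ c)

theorem four {a b c d e f g k x : Fin 6} (h1 : ac a b c d) (h2 : ac a b e f) (h3 : ac a b g k)
    (h4 : ac c d e f) (h5 : ac c d g k) (h6 : ac e f g k) (p : x = a ∨ x = b)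
    (q : x = c ∨ x = d) : x = e ∨ x = f := by
  unfold ac at *
  grind

theorem fresh : ∀ a b c d : Fin 6, ∃ e, e ≠ a ∧ e ≠ b ∧ e ≠ c ∧ e ≠ d := by decide

variable {R : Type} [Ring R] {h h' : Fin 6 → Fin 6 → R}

theorem unit (t : Hs h) (i j : Fin 6) : IsUnit (h i j) :=
  ⟨⟨h i j, h j i, by rw [t.mul, t.one], by rw [t.mul, t.one]⟩, rfl⟩

theorem anti (t : Hs h) {i j k : Fin 6} (hij : i ≠ j) (hik : i ≠ k) (hjk : j ≠ k) :
    h i j * h i k = -(h i k * h i j) := by
  have e1 := t.mul j i k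
  have e2 := t.mul k i j
  rw [t.symm hij, neg_mul] at e1
  rw [t.symm hik, neg_mul, t.symm hjk, ← e1, neg_neg] at e2
  exact e2.symm

theorem comm (t : Hs h) {a b c d : Fin 6} (n : ¬ ac a b c d) : h a b * h c d = h c d * h a b := by
  by_cases h1 : a = b
  · rw [h1, t.one, one_mul, mul_one]
  by_cases h2 : c = d
  · rw [h2, t.one, one_mul, mul_one]
  have : a = c ∧ b = d ∨ a = d ∧ b = c ∨ a ≠ c ∧ a ≠ d ∧ b ≠ c ∧ b ≠ d := by
    unfold ac at n
    grind
  rcases this with ⟨rfl, rfl⟩ | ⟨rfl, rfl⟩ | ⟨p, q, r, s⟩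
  · rfl
  · rw [t.mul, t.mul, t.one, t.one]
  · rw [← t.mul c a d, t.symm p, neg_mul, mul_neg, neg_mul, ← mul_assoc, anti t h1 p r, neg_mul,
      mul_assoc, anti t h1 q s, mul_neg, neg_neg, mul_assoc]

variable [Algebra Om R]

theorem zero_of {x : R} (e : x = -x) : x = 0 := by
  have : (2 : Om) • x = 0 := by
    rw [two_smul]
    exact add_eq_zero_iff_eq_neg.2 e
  exact (smul_eq_zero.1 this).resolve_left two_ne_zero

variable [Nontrivial R]

theorem ac_of (t : Hs h) {x y : R} (hx : IsUnit x) (hy : IsUnit y) (e : x * y = -(y * x))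
    {u v : Om} {a b c d : Fin 6} (e1 : x = u • h a b) (e2 : y = v • h c d) : ac a b c d := by
  by_contra n
  have : y * x = x * y := by
    rw [e1, e2, smul_mul_smul_comm, smul_mul_smul_comm, comm t n, mul_comm u v]
  rw [this] at e
  exact (hx.mul hy).ne_zero (zero_of e)

theorem pm (t : Hs h) {x : R} (hx : x * x = -1) {u : Om} {a b : Fin 6} (hab : a ≠ b)
    (e : x = u • h a b) : ∃ s : ℤˣ, x = (s : ℤ) • h a b := by
  rw [e, smul_mul_smul_comm, t.sq a b hab, smul_neg, neg_inj] at hx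
  have h1 : u * u = 1 := smul_left_injective Om (one_ne_zero (α := R)) (hx.trans (one_smul _ _).symm)
  rcases mul_self_eq_one_iff.1 h1 with rfl | rfl
  · exact ⟨1, by simpa using e⟩
  · exact ⟨-1, by simpa using e⟩

theorem star (t : Hs h) (t' : Hs h')
    (H : ∀ i j, ∃ (a : Om) (k l : Fin 6), h' i j = a • h k l) :
    ∃ x, ∀ j, ∃ (y : Fin 6) (s : ℤˣ), h' 0 j = (s : ℤ) • h x y := by
  choose a k l e using H 0
  have A : ∀ i j, 0 ≠ i → 0 ≠ j → i ≠ j → ac (k i) (l i) (k j) (l j) := fun i j p q r =>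
    ac_of t (unit t' _ _) (unit t' _ _) (anti t' p q r) (e i) (e j)
  have A12 := A 1 2 (by decide) (by decide) (by decide)
  obtain ⟨x, p, q⟩ : ∃ x, (x = k 1 ∨ x = l 1) ∧ (x = k 2 ∨ x = l 2) := by
    obtain ⟨-, -, r | r | r | r⟩ := A12
    exacts [⟨_, .inl rfl, .inl r.1⟩, ⟨_, .inl rfl, .inr r.1⟩, ⟨_, .inr rfl, .inl r.1⟩,
      ⟨_, .inr rfl, .inr r.1⟩]
  refine ⟨x, fun j => ?_⟩
  by_cases j0 : 0 = j
  · exact ⟨x, 1, by rw [← j0, t.one, t'.one]; simp⟩
  obtain ⟨m, m0, m1, m2, mj⟩ := fresh 0 1 2 j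
  have n := (A j m j0 m0.symm mj.symm).1
  have r : x = k j ∨ x = l j := by
    by_cases j1 : 1 = j
    · exact j1 ▸ p
    by_cases j2 : 2 = j
    · exact j2 ▸ q
    exact four A12 (A 1 j (by decide) j0 j1) (A 1 m (by decide) m0.symm m1.symm)
      (A 2 j (by decide) j0 j2) (A 2 m (by decide) m0.symm m2.symm) (A j m j0 m0.symm mj.symm) p q
  rcases r with rfl | rfl
  · exact ⟨_, pm t (t'.sq 0 j j0) n (e j)⟩
  · exact ⟨_, pm t (t'.sq 0 j j0) n.symm (u := -a j) (by rw [e j, t.symm n, smul_neg, neg_smul, neg_neg])⟩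

end RH4bX

open RH4bX in
theorem rowH4b : RowH4b := by
  intro R _ _ _ h t
  refine ⟨fun h' t' H => ?_, fun σ τ H => Equiv.ext fun i => ?_⟩
  · obtain ⟨x, hx⟩ := star t t' H
    choose σ s e using hx
    have e' : ∀ i, h' i 0 = (s i : ℤ) • h (σ i) x := fun i => by
      have : h' 0 i * (s i : ℤ) • h (σ i) x = 1 := by
        rw [e, smul_mul_smul_comm, t.mul, t.one, ← Units.val_mul, Int.units_mul_self]
        simp
      rw [← mul_one (h' i 0), ← this, ← mul_assoc, t'.mul, t'.one, one_mul]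
    have E : ∀ i j, h' i j = ((s i * s j : ℤˣ) : ℤ) • h (σ i) (σ j) := fun i j => by
      rw [← t'.mul i 0 j, e', e, smul_mul_smul_comm, t.mul, Units.val_mul]
    have hσ : Function.Injective σ := fun i j hij => by
      by_contra n
      have := t'.sq i j n
      rw [E, hij, t.one, smul_mul_smul_comm, ← Units.val_mul, Int.units_mul_self] at this
      exact one_ne_zero (zero_of (x := (1 : R)) (by simpa using this))
    exact ⟨Equiv.ofBijective σ hσ.bijective_of_finite, s, E⟩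
  · by_contra n
    obtain ⟨j, j1, j2, -⟩ := fresh i (τ.symm (σ i)) i i
    obtain ⟨m, m1, m2, m3, m4⟩ := fresh (σ i) (σ j) (τ i) (τ j)
    obtain ⟨a, e⟩ := H i j
    have k : τ j ≠ σ i := fun k => j2 (by rw [← k, Equiv.symm_apply_apply])
    have := ac_of t (unit t _ _) (unit t _ _) (anti t (σ.injective.ne j1.symm) m1.symm m2.symm) e
      (one_smul Om _).symm
    unfold ac at this
    grind

end Pool.Agent.MP_db5b97_nt.H67
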