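import Pool.Agent.MP_db5b97_nt.H67.Spec

/-! Signs in a system of square roots of minus one. -/

namespace Pool.Agent.MP_db5b97_nt.H67

open H85 H30 Module

namespace RH4sX

variable {R : Type} [Ring R] {h : Fin 6 → Fin 6 → R}

theorem cross (t : Hs h) (a d : Fin 6) {b c : Fin 6} (hbc : b ≠ c) :
    h a c * h b d = -(h a b * h c d) := by
  rw [← t.mul a b c, ← t.mul b c d, mul_assoc, ← mul_assoc (h b c), t.sq b c hbc, neg_one_mul,
    mul_neg]

/-- the sign vector of a pair -/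
def u (a i : Fin 6) : ℤˣ := if i = 0 ∨ i = a then -1 else 1

theorem c1 (t : Hs h) {a : Fin 6} (ha : a ≠ 0) (j : Fin 6) :
    h 0 a * h 0 j = ((-u a j : ℤˣ) : ℤ) • (h 0 j * h 0 a) := by
  by_cases h0 : j = 0
  · simp [h0, u, t.one]
  by_cases h1 : j = a
  · simp [h1, u]
  have e : ∀ x y, x ≠ 0 → h 0 x * h 0 y = -h x y := fun x y hx => by
    rw [t.symm hx, neg_mul, t.mul]
  rw [e a j ha, e j a h0, t.symm h1]
  simp [u, h0, h1]

theorem comm (t : Hs h) {a : Fin 6} (ha : a ≠ 0) (i j : Fin 6) :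
    h 0 a * h i j = ((u a i * u a j : ℤˣ) : ℤ) • (h i j * h 0 a) := by
  have c2 : h 0 a * h i 0 = ((-u a i : ℤˣ) : ℤ) • (h i 0 * h 0 a) := by
    by_cases h0 : i = 0
    · simp [h0, u, t.one]
    · rw [t.symm (Ne.symm h0), mul_neg, c1 t ha, neg_mul, smul_neg]
  rw [← t.mul i 0 j, ← mul_assoc, c2, smul_mul_assoc, mul_assoc, c1 t ha, mul_smul_comm, smul_smul,
    ← Units.val_mul, neg_mul_neg, mul_assoc]

theorem list (t : Hs h) (l : List (Fin 6)) (hl : ∀ a ∈ l, a ≠ 0) (i j : Fin 6) :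
    (l.map (h 0)).prod * h i j =
      (((l.map (u · i)).prod * (l.map (u · j)).prod : ℤˣ) : ℤ) • (h i j * (l.map (h 0)).prod) := by
  induction l with
  | nil => simp
  | cons a l ih =>
    simp only [List.map_cons, List.prod_cons]
    rw [mul_assoc, ih fun b hb => hl b (List.mem_cons_of_mem _ hb), mul_smul_comm, ← mul_assoc,
      comm t (hl a List.mem_cons_self), smul_mul_assoc, smul_smul, ← Units.val_mul,
      mul_assoc (h i j), mul_comm _ (u a i * u a j), mul_mul_mul_comm]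

theorem signs : ∀ v : Fin 6 → ℤˣ, ∏ i, v i = 1 → ∀ i,
    (((List.finRange 6).filter fun a => a ≠ 0 ∧ v a = -1).map (u · i)).prod = v i := by
  decide +kernel

end RH4sX

theorem rowH4s : RowH4s := fun R _ h t => by
  refine ⟨fun σ => ?_, fun v hv => ⟨(List.finRange 6).filter fun a => a ≠ 0 ∧ v a = -1,
    fun i j => ?_⟩⟩
  · induction σ using Submonoid.induction_of_closure_eq_top_right
      (Equiv.Perm.mclosure_swap_castSucc_succ 5) with
    | one => simp
    | mul_right σ τ hτ ih =>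
      obtain ⟨i, rfl⟩ := hτ
      rw [map_mul, Equiv.Perm.sign_swap Fin.castSucc_lt_succ.ne, mul_neg_one, Units.val_neg,
        neg_smul, ← ih]
      have n : ∀ {a b : Fin 6}, a ≠ b → σ a ≠ σ b := fun e => σ.injective.ne e
      fin_cases i
      · change h (σ 1) (σ 0) * h (σ 2) (σ 3) * h (σ 4) (σ 5) = _
        rw [t.symm (n (by decide : (0 : Fin 6) ≠ 1)), neg_mul, neg_mul]
      · change h (σ 0) (σ 2) * h (σ 1) (σ 3) * h (σ 4) (σ 5) = _
        rw [RH4sX.cross t _ _ (n (by decide : (1 : Fin 6) ≠ 2)), neg_mul]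
      · change h (σ 0) (σ 1) * h (σ 3) (σ 2) * h (σ 4) (σ 5) = _
        rw [t.symm (n (by decide : (2 : Fin 6) ≠ 3)), mul_neg, neg_mul]
      · change h (σ 0) (σ 1) * h (σ 2) (σ 4) * h (σ 3) (σ 5) = _
        rw [mul_assoc, RH4sX.cross t _ _ (n (by decide : (3 : Fin 6) ≠ 4)), mul_neg, mul_assoc]
      · change h (σ 0) (σ 1) * h (σ 2) (σ 3) * h (σ 5) (σ 4) = _
        rw [t.symm (n (by decide : (4 : Fin 6) ≠ 5)), mul_neg]
  · rw [RH4sX.list t _ fun a ha => (of_decide_eq_true (List.mem_filter.1 ha).2).1,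
      RH4sX.signs v hv, RH4sX.signs v hv]

end Pool.Agent.MP_db5b97_nt.H67
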