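import Pool.Agent.MP_db5b97_nt.H67.Spec

/-! Point stabilisers of transitive groups of degree at most three. -/

namespace Pool.Agent.MP_db5b97_nt.H67

open H85 H30 Module MulAction

namespace RKP3X

/-- an element that fixes one of three points is trivial or a transposition -/
theorem key {G Y : Type} [Group G] [MulAction G Y] [FaithfulSMul G Y] [DecidableEq Y] {y a b : Y}
    (hay : a ≠ y) (hby : b ≠ y) (hab : b ≠ a) (hall : ∀ z, z = y ∨ z = a ∨ z = b) {s : G}
    (hs : s • y = y) : s = 1 ∨ toPermHom G Y s = Equiv.swap a b := by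
  have h1 : s • a ≠ y := fun h => hay (smul_left_cancel s (h.trans hs.symm))
  have h2 : s • b ≠ y := fun h => hby (smul_left_cancel s (h.trans hs.symm))
  have h3 : s • b ≠ s • a := fun h => hab (smul_left_cancel s h)
  rcases (hall (s • a)).resolve_left h1 with h | h
  · have h' : s • b = b := ((hall (s • b)).resolve_left h2).resolve_left (h ▸ h3)
    refine Or.inl (eq_of_smul_eq_smul (α := Y) fun z => ?_)
    rw [one_smul]
    rcases hall z with rfl | rfl | rfl
    exacts [hs, h, h']
  · have h' : s • b = a := ((hall (s • b)).resolve_left h2).resolve_right (h ▸ h3)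
    refine Or.inr (Equiv.ext fun z => ?_)
    change s • z = _
    rcases hall z with rfl | rfl | rfl
    · rw [hs, Equiv.swap_apply_of_ne_of_ne hay.symm hby.symm]
    · rw [h, Equiv.swap_apply_left]
    · rw [h', Equiv.swap_apply_right]

end RKP3X

theorem kp3 : RowFROB → ∀ n, n ≤ 3 → KP n := by
  intro hF n hn G Y A _ _ _ _ _ _ _ _ M y hc h90 hM _
  classical
  by_cases hb : stabilizer G y = ⊥
  · rw [hb]
    exact kill_bot
  obtain ⟨⟨t, ht⟩, ht1⟩ := Subgroup.ne_bot_iff_exists_ne_one.1 hb
  have ht2 : t ≠ 1 := fun h => ht1 (Subtype.ext h)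
  have ht3 : t • y = y := ht
  have hinj : Function.Injective (toPermHom G Y) := toPerm_injective
  obtain ⟨a, ha⟩ : ∃ a : Y, t • a ≠ a := by
    by_contra h
    push Not at h
    exact ht2 (eq_of_smul_eq_smul (α := Y) fun z => by rw [h z, one_smul])
  have hay : a ≠ y := fun h => ha (h ▸ ht3)
  have hby : t • a ≠ y := fun h => hay (smul_left_cancel t (h.trans ht3.symm))
  generalize t • a = b at ha hby
  have h0 : ({y, a, b} : Finset Y).card = 3 :=
    Finset.card_eq_three.2 ⟨y, a, b, hay.symm, hby.symm, ha.symm, rfl⟩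
  have h3 : Fintype.card Y = 3 := le_antisymm (hc ▸ hn) (h0 ▸ Finset.card_le_univ _)
  have hall : ∀ z, z = y ∨ z = a ∨ z = b := fun z => by
    have := Finset.eq_univ_of_card _ (h0.trans h3.symm) ▸ Finset.mem_univ z
    simpa using this
  have key := fun {s : G} (hs : s • y = y) => RKP3X.key hay hby ha hall hs
  have htp : toPermHom G Y t = Equiv.swap a b := (key ht3).resolve_left ht2
  let N : Subgroup G := (alternatingGroup Y).comap (toPermHom G Y)
  have hN : ∀ s, s ∈ N ↔ Equiv.Perm.sign (toPermHom G Y s) = 1 := fun s => Iff.rfl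
  have hNn : N.Normal := inferInstance
  have : Nontrivial Y := ⟨a, y, hay⟩
  have c1 : Nat.card N ∣ 3 := by
    have h1 := two_mul_nat_card_alternatingGroup (α := Y)
    rw [Nat.card_perm, Nat.card_eq_fintype_card (α := Y), h3] at h1
    have h2 : Nat.card (alternatingGroup Y) = 3 := by
      have : Nat.factorial 3 = 6 := rfl
      omega
    exact h2 ▸ Subgroup.card_comap_dvd_of_injective _ _ hinj
  have c2 : Nat.card (stabilizer G y) = 2 :=
    (Nat.card_eq_two_iff' 1).2 ⟨⟨t, ht⟩, ht1, fun s hs => Subtype.ext (hinj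
      (((key s.2).resolve_left fun h => hs (Subtype.ext h)).trans htp.symm))⟩
  have tr : ∀ z : Y, ∃ s ∈ N, s • y = z := fun z => by
    obtain ⟨g, rfl⟩ := exists_smul_eq G y z
    rcases Int.units_eq_one_or (Equiv.Perm.sign (toPermHom G Y g)) with h | h
    · exact ⟨g, (hN g).2 h, rfl⟩
    · refine ⟨g * t, (hN _).2 ?_, by rw [mul_smul, ht3]⟩
      rw [map_mul, map_mul, h, htp, Equiv.Perm.sign_swap ha.symm]
      rfl
  refine kill_cop (kill_card (hM.mono le_top))
    (hF G Y A N (stabilizer G y) M (h90 _) (fun h _ s hs => hNn.conj_mem s hs h)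
      (fun h hh s hs e => ?_) (hM.mono le_top) (hM.mono le_top) fun h _ m _ hm => ?_) ?_
  · refine (key hh).imp_right fun h1 => ?_
    have h2 : h • s • y = s • y := by
      conv_rhs => rw [← e, mul_smul, mul_smul, inv_smul_eq_iff.2 (show y = h • y from hh.symm)]
    have h4 : s • y = y := by
      have h5 : Equiv.swap a b (s • y) = s • y := h1 ▸ h2
      rcases hall (s • y) with h6 | h6 | h6
      · exact h6
      · rw [h6, Equiv.swap_apply_left] at h5
        exact absurd h5 ha
      · rw [h6, Equiv.swap_apply_right] at h5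
        exact absurd h5.symm ha
    refine (key h4).resolve_right fun h5 => ?_
    have h6 := (hN s).1 hs
    rw [h5, Equiv.Perm.sign_swap ha.symm] at h6
    exact absurd h6 (by decide)
  · have h1 : ∀ z, m z = m y := fun z => by
      obtain ⟨s, hs, rfl⟩ := tr z
      conv_lhs => rw [← hm s hs]
      exact (Finsupp.comapSMul_apply s m _).trans (by rw [inv_smul_smul])
    ext z
    exact (Finsupp.comapSMul_apply h m z).trans ((h1 _).trans (h1 z).symm)
  · rw [c2]
    exact Nat.Coprime.coprime_dvd_right c1 (by decide)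

end Pool.Agent.MP_db5b97_nt.H67
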