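import Pool.Agent.MP_db5b97_nt.H67.Spec

/-! Point stabilisers of primitive groups of degree four. -/

namespace Pool.Agent.MP_db5b97_nt.H67

open H85 H30 Module MulAction Equiv Equiv.Perm

namespace RKP4X

abbrev P4 : Type := Perm (Fin 4)

/-- the pair `0, i` is neither kept nor moved off itself -/
def mv (i : Fin 4) (σ : P4) : Prop :=
  (σ 0 = 0 ∨ σ 0 = i ∨ σ i = 0 ∨ σ i = i) ∧ ((σ 0 ≠ 0 ∧ σ 0 ≠ i) ∨ (σ i ≠ 0 ∧ σ i ≠ i))

instance (i : Fin 4) (σ : P4) : Decidable (mv i σ) := by unfold mv; infer_instance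

/-- of order three -/
def T3 (σ : P4) : Prop := σ ^ 3 = 1 ∧ σ ≠ 1

instance (σ : P4) : Decidable (T3 σ) := by unfold T3; infer_instance

/-- in the four-group -/
def V4 (σ : P4) : Prop := σ * σ = 1 ∧ sign σ = 1

instance (σ : P4) : Decidable (V4 σ) := by unfold V4; infer_instance

/-- even and fixing the first point -/
def A3 (σ : P4) : Prop := σ 0 = 0 ∧ sign σ = 1

instance (σ : P4) : Decidable (A3 σ) := by unfold A3; infer_instance

theorem f1 : ∀ a b : P4, mv 1 a → mv 2 b → mv 3 a → T3 a ∨ T3 b ∨ T3 (a * b) := by decide +kernel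

theorem f2 : ∀ a c : P4, mv 1 a → ¬ mv 3 a → mv 3 c → T3 c ∨ T3 (a * c) := by decide +kernel

theorem f3 : ∀ a b : P4, V4 a → V4 b → V4 (a * b) := by decide +kernel

theorem f3' : ∀ a b : P4, V4 b → V4 b⁻¹ ∧ V4 (a * b * a⁻¹) := by decide +kernel

/-- commuting -/
def Cm (σ τ : P4) : Prop := σ * τ * σ⁻¹ = τ

instance (σ τ : P4) : Decidable (Cm σ τ) := by unfold Cm; infer_instance

theorem f4 : ∀ a b : P4, A3 a → V4 b → a ≠ 1 → b ≠ 1 → ¬ Cm a b := by decide +kernel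

theorem f5 : ∀ i j : Fin 4, ∃ b : P4, V4 b ∧ b i = j := by decide +kernel

theorem f6 : ∀ a : P4, a 0 = 0 → (A3 a → a ^ 3 = 1) ∧ (¬ A3 a → a ^ 2 = 1) := by decide +kernel

theorem f7 : ∀ a b : P4, ¬ A3 a → A3 b → Cm a b → b = 1 ∨ a 0 ≠ 0 := by decide +kernel

theorem f8 : ∀ a : P4, a 0 = 0 → ∀ i, ∃ b : P4, A3 b ∧ b i = a i := by decide +kernel

/-- the four-group -/
def K4 : Subgroup P4 where
  carrier := {σ | V4 σ}
  mul_mem' := f3 _ _
  one_mem' := ⟨mul_one _, sign_one⟩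
  inv_mem' h := (f3' 1 _ h).1

theorem fix_of {G Y : Type} [Group G] [MulAction G Y] {N : Subgroup G} {h : G}
    (hn : ∀ a : Y, ∃ n ∈ N, n • a = h • a) {m : Y →₀ ℤ} (hm : ∀ n ∈ N, n • m = m) : h • m = m := by
  ext b
  obtain ⟨n, h1, h2⟩ := hn (h⁻¹ • b)
  rw [smul_inv_smul] at h2
  conv_rhs => rw [← hm n h1, ← h2]
  exact (Finsupp.comapSMul_apply h m b).trans
    ((Finsupp.comapSMul_apply n m _).trans (by rw [inv_smul_smul])).symm

theorem card_pow {G : Type} [Group G] [Finite G] {U : Subgroup G} {p : ℕ} [Fact p.Prime]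
    (h : ∀ g ∈ U, g ^ p = 1) : ∃ k, Nat.card U = p ^ k :=
  IsPGroup.iff_card.1 fun g => ⟨1, Subtype.ext (by rw [pow_one]; exact h g g.2)⟩

theorem core (hF : RowFROB) {G Y A : Type} [Group G] [Finite G] [Finite Y] [MulAction G Y]
    [AddCommGroup A] [DistribMulAction G A] {M : AddSubgroup (Y →₀ ℤ)} (φ : G →* P4)
    (hφ : Function.Injective φ) (e : Fin 4 ≃ Y) (he : ∀ g i, g • e i = e (φ g i))
    (hA : ∀ σ, sign σ = 1 → ∃ g, φ g = σ) (h90 : ∀ Q : Subgroup G, H90 A Q)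
    (hM : Stab (⊤ : Subgroup G) M) : Kill A (stabilizer G (e 0)) M 1 := by
  classical
  have : Fact (Nat.Prime 3) := ⟨Nat.prime_three⟩
  set S := stabilizer G (e 0)
  have mS : ∀ g, g ∈ S ↔ φ g 0 = 0 := fun g => by
    rw [mem_stabilizer_iff, he, e.apply_eq_iff_eq]
  set H := (sign.comp φ).ker ⊓ S
  have mH : ∀ g, g ∈ H ↔ A3 (φ g) := fun g => by
    rw [Subgroup.mem_inf, mS, and_comm]; rfl
  have one : ∀ g, φ g = 1 → g = 1 := (injective_iff_map_eq_one φ).1 hφ
  obtain ⟨a, ha⟩ := card_pow (U := K4.comap φ) (p := 2) fun g hg =>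
    one _ (by rw [map_pow, sq]; exact hg.1)
  obtain ⟨b, hb⟩ := card_pow (U := H) (p := 3) fun g hg =>
    one _ (by rw [map_pow]; exact (f6 _ ((mH g).1 hg).1).1 ((mH g).1 hg))
  have k1 : Kill A H M 1 := by
    refine kill_cop (hF G Y A (K4.comap φ) H M (h90 _) (fun h _ n hn => ?_)
      (fun h hh n hn k => ?_) (hM.mono le_top) (hM.mono le_top) fun h _ m _ => fix_of fun y => ?_)
      (kill_card (hM.mono le_top)) (by rw [ha, hb]; exact Nat.Coprime.pow _ _ (by norm_num))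
    · rw [Subgroup.mem_comap, map_mul, map_mul, map_inv]
      exact (f3' _ _ hn).2
    · by_contra! hc
      refine f4 _ _ ((mH h).1 hh) hn (mt (one _) hc.1) (mt (one _) hc.2) ?_
      rw [Cm, ← map_inv, ← map_mul, ← map_mul, k]
    · obtain ⟨i, rfl⟩ := e.surjective y
      obtain ⟨σ, h1, h2⟩ := f5 i (φ h i)
      obtain ⟨n, rfl⟩ := hA σ h1.2
      exact ⟨n, h1, by rw [he, he, h2]⟩
  have hj : H.relIndex S ∣ 2 := by
    rw [Subgroup.inf_relIndex_right, Subgroup.relIndex_ker]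
    simpa using Subgroup.card_subgroup_dvd_card (S.map (sign.comp φ))
  have k2 := k1.cores inf_le_right (ne_zero_of_dvd_ne_zero two_ne_zero hj) (hM.mono le_top)
  obtain hj | hj := (Nat.dvd_prime Nat.prime_two).1 hj
  · rwa [hj] at k2
  obtain ⟨t, t1, t2⟩ : ∃ t ∈ S, t ∉ H := by
    by_contra! hc
    rw [Subgroup.relIndex_eq_one.2 hc] at hj
    omega
  have t0 := (mS t).1 t1
  have t3 := mt (mH t).2 t2
  have t4 : orderOf t = 2 :=
    orderOf_eq_prime (one _ (by rw [map_pow]; exact (f6 _ t0).2 t3)) fun k => t2 (k ▸ H.one_mem)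
  have hT : Subgroup.zpowers t ≤ S := Subgroup.zpowers_le.2 t1
  have k3 : Kill A (Subgroup.zpowers t) M (Nat.card H) := by
    refine hF G Y A H _ M (h90 _) (fun h hh n hn => ⟨?_, S.mul_mem (S.mul_mem (hT hh) hn.2)
      (S.inv_mem (hT hh))⟩) (fun h hh n hn k => ?_) (hM.mono le_top) (hM.mono le_top)
      fun h hh m _ => fix_of fun y => ?_
    · exact (MonoidHom.normal_ker _).conj_mem n hn.1 h
    · rw [mem_zpowers_iff_mem_range_orderOf, t4, Finset.mem_image] at hh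
      obtain ⟨c, hc, rfl⟩ := hh
      obtain rfl | rfl : c = 0 ∨ c = 1 := by rw [Finset.mem_range] at hc; omega
      · exact Or.inl (pow_zero t)
      · refine Or.inr (one _ ((f7 _ _ t3 ((mH n).1 hn) ?_).resolve_right (not_not.2 t0)))
        rw [Cm, ← map_inv, ← map_mul, ← map_mul, ← pow_one t, k]
    · obtain ⟨i, rfl⟩ := e.surjective y
      obtain ⟨σ, h1, h2⟩ := f8 _ ((mS h).1 (hT hh)) i
      obtain ⟨n, rfl⟩ := hA σ h1.2
      exact ⟨n, (mH n).2 h1, by rw [he, he, h2]⟩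
  have e1 := Subgroup.relIndex_mul_relIndex ⊥ _ _ bot_le hT
  rw [← Subgroup.relIndex_mul_relIndex ⊥ H S bot_le inf_le_right, Subgroup.relIndex_bot_left,
    Subgroup.relIndex_bot_left, Nat.card_zpowers, t4, hj, hb] at e1
  have e2 : (Subgroup.zpowers t).relIndex S = 3 ^ b := by omega
  have k4 := k3.cores hT (by rw [e2]; positivity) (hM.mono le_top)
  rw [hj, mul_one] at k2
  rw [e2, hb, ← pow_add] at k4
  exact kill_cop k2 k4 (Nat.Coprime.pow_right _ (by norm_num))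

end RKP4X

open RKP4X in
theorem kp4 : RowFROB → KP 4 := by
  classical
  intro hF G Y A _ _ _ _ _ _ _ _ M y hY h90 hM hB
  let e0 := (Fintype.equivFinOfCardEq hY).symm
  let e : Fin 4 ≃ Y := (swap 0 (e0.symm y)).trans e0
  have ey : e 0 = y := by simp [e]
  let φ : G →* P4 := e.symm.permCongrHom.toMonoidHom.comp (toPermHom G Y)
  have hφ : Function.Injective φ := e.symm.permCongrHom.injective.comp toPerm_injective
  have he : ∀ g i, g • e i = e (φ g i) := fun g i => (e.apply_symm_apply _).symm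
  have hm : ∀ i, i ≠ 0 → ∃ g, mv i (φ g) := fun i hi => by
    obtain ⟨g, ⟨b, h1, h2⟩, c, h3, h4⟩ := hB rfl {e 0, e i}
      (Finset.card_pair (e.injective.ne hi.symm))
    simp only [Finset.mem_insert, Finset.mem_singleton] at h1 h2 h3 h4
    refine ⟨g, ?_, ?_⟩
    · obtain rfl | rfl := h1 <;> simp only [he, e.apply_eq_iff_eq] at h2 <;> tauto
    · obtain rfl | rfl := h3 <;> simp only [he, e.apply_eq_iff_eq] at h4 <;> tauto
  obtain ⟨r, r1, r2⟩ : ∃ r, T3 (φ r) := by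
    obtain ⟨a, ha⟩ := hm 1 (by decide)
    obtain ⟨b, hb⟩ := hm 2 (by decide)
    obtain ⟨c, hc⟩ := hm 3 (by decide)
    by_cases h : mv 3 (φ a)
    · obtain k | k | k := f1 _ _ ha hb h
      exacts [⟨_, k⟩, ⟨_, k⟩, ⟨a * b, by rwa [map_mul]⟩]
    · obtain k | k := f2 _ _ ha h hc
      exacts [⟨_, k⟩, ⟨a * c, by rwa [map_mul]⟩]
  have : Fact (Nat.Prime 3) := ⟨Nat.prime_three⟩
  have d3 : 3 ∣ Nat.card G := by
    rw [← orderOf_eq_prime r1 r2, orderOf_injective φ hφ]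
    exact orderOf_dvd_natCard r
  have d4 : 4 ∣ Nat.card G := by
    rw [← hY, ← Nat.card_eq_fintype_card, ← index_stabilizer_of_transitive G y]
    exact Subgroup.index_dvd_card _
  have hi : φ.range.index ≤ 2 := by
    have h1 := φ.range.index_mul_card
    rw [← Nat.card_congr (MonoidHom.ofInjective hφ).toEquiv, Nat.card_perm, Nat.card_fin] at h1
    have h2 := Nat.le_of_dvd Nat.card_pos (Nat.Coprime.mul_dvd_of_dvd_of_dvd (by norm_num) d3 d4)
    have h3 : Nat.factorial 4 = 24 := rfl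
    nlinarith
  rw [← ey]
  exact core hF φ hφ e he (fun σ h => alternatingGroup_le_of_index_le_two hi
    (mem_alternatingGroup.2 h)) h90 hM

end Pool.Agent.MP_db5b97_nt.H67
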