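import Pool.Agent.MP_db5b97_nt.H67.Spec

/-! Point stabilisers of transitive groups of degree five. -/

namespace Pool.Agent.MP_db5b97_nt.H67

open H85 H30 Module MulAction

namespace RKP5X

variable {G Y : Type} [Group G] [Finite G] [Fintype Y] [MulAction G Y] [FaithfulSMul G Y]

omit [Finite G] in
theorem trans5 (hY : Fintype.card Y = 5) {n : G} (hn : orderOf n = 5) (x y : Y) :
    ∃ i : ℕ, n ^ i • x = y := by
  classical
  have h1 : orderOf (toPermHom G Y n) = 5 :=
    (orderOf_injective _ toPerm_injective n).trans hn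
  have h2 : (toPermHom G Y n).IsCycle :=
    Equiv.Perm.isCycle_of_prime_order'' (hY ▸ Nat.prime_five) (h1.trans hY.symm)
  have h3 : (toPermHom G Y n).support = Finset.univ :=
    Finset.eq_univ_of_card _ (by rw [← h2.orderOf, h1, hY])
  have h4 : ∀ z, toPermHom G Y n z ≠ z := fun z =>
    Equiv.Perm.mem_support.1 (h3 ▸ Finset.mem_univ z)
  obtain ⟨i, hi⟩ := h2.exists_pow_eq (h4 x) (h4 y)
  exact ⟨i, by rwa [← map_pow] at hi⟩

theorem three [IsPretransitive G Y] (hY : Fintype.card Y = 5) (h3 : 3 ∣ Nat.card G)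
    (i j k : Y) (hij : i ≠ j) (hik : i ≠ k) (hjk : j ≠ k) :
    ∃ g : G, g • i = j ∧ g • j = k ∧ g • k = i ∧ ∀ l, l ≠ i → l ≠ j → l ≠ k → g • l = l := by
  classical
  have : Fact (Nat.Prime 3) := ⟨Nat.prime_three⟩
  obtain ⟨n, hn⟩ := exists_prime_orderOf_dvd_card' 3 h3
  have h1 : orderOf (toPermHom G Y n) = 3 :=
    (orderOf_injective _ toPerm_injective n).trans hn
  have h2 : (toPermHom G Y n).IsCycle :=
    Equiv.Perm.isCycle_of_prime_order' (h1 ▸ Nat.prime_three) (by rw [h1, hY]; norm_num)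
  have h4 : (toPermHom G Y n).IsThreeCycle :=
    card_support_eq_three_iff.1 (by rw [← h2.orderOf, h1])
  have : IsPretransitive (toPermHom G Y).range Y := ⟨fun x y => by
    obtain ⟨g, hg⟩ := exists_smul_eq G x y
    exact ⟨⟨_, g, rfl⟩, hg⟩⟩
  have h5 : IsPreprimitive (toPermHom G Y).range Y :=
    IsPreprimitive.of_prime_card (by rw [Nat.card_eq_fintype_card, hY]; exact Nat.prime_five)
  have h6 := Equiv.Perm.alternatingGroup_le_of_isPreprimitive_of_isThreeCycle_mem h5 h4 ⟨n, rfl⟩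
  obtain ⟨g, hg⟩ := h6 (Equiv.Perm.isThreeCycle_swap_mul_swap_same hik hij
    hjk.symm).mem_alternatingGroup
  have h7 : ∀ l, g • l = Equiv.swap i k (Equiv.swap i j l) := fun l =>
    congrArg (fun σ : Equiv.Perm Y => σ l) hg
  refine ⟨g, ?_, ?_, ?_, fun l a b c => ?_⟩
  · rw [h7, Equiv.swap_apply_left, Equiv.swap_apply_of_ne_of_ne hij.symm hjk]
  · rw [h7, Equiv.swap_apply_right, Equiv.swap_apply_left]
  · rw [h7, Equiv.swap_apply_of_ne_of_ne hik.symm hjk.symm, Equiv.swap_apply_right]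
  · rw [h7, Equiv.swap_apply_of_ne_of_ne a b, Equiv.swap_apply_of_ne_of_ne a c]

theorem normal5 {G : Type} [Group G] [Finite G] {m : ℕ} (hm : Nat.card G = m * 5) (h24 : m ∣ 24)
    (h3 : ¬ 3 ∣ Nat.card G) : ∃ N : Subgroup G, N.Normal ∧ Nat.card N = 5 := by
  have : Fact (Nat.Prime 5) := ⟨Nat.prime_five⟩
  obtain ⟨P⟩ : Nonempty (Sylow 5 G) := inferInstance
  have hle : m ≤ 24 := Nat.le_of_dvd (by norm_num) h24
  have h8 : m = 1 ∨ m = 2 ∨ m = 4 ∨ m = 8 := by
    rw [hm] at h3
    interval_cases m <;> simp_all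
  have hP : Nat.card P = 5 := by
    rw [P.card_eq_multiplicity, hm]
    have : (m * 5).factorization 5 = 1 := by
      rw [Nat.factorization_mul (by omega) (by norm_num), Finsupp.add_apply,
        Nat.factorization_eq_zero_of_not_dvd (by omega), Nat.prime_five.factorization_self]
    rw [this, pow_one]
  have hi : P.index = m := by
    have := (P : Subgroup G).index_mul_card
    rw [hP, hm] at this
    omega
  have h1 := P.card_dvd_index
  have h2 := card_sylow_modEq_one 5 G
  have h4 : Nat.card (Sylow 5 G) = 1 := by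
    rw [hi] at h1
    have h5 := Nat.le_of_dvd (by omega) h1
    unfold Nat.ModEq at h2
    generalize Nat.card (Sylow 5 G) = s at h1 h2 h5
    have h6 : s = 1 ∨ s = 6 := by omega
    rcases h6 with h6 | rfl
    · exact h6
    · omega
  have : Subsingleton (Sylow 5 G) := (Nat.card_eq_one_iff_unique.1 h4).1
  exact ⟨P, P.normal_of_subsingleton, hP⟩

end RKP5X

theorem kp5 : RowFROB → RowALT → KP 5 := by
  intro hF hA G Y A _ _ _ _ _ _ _ _ M y hY h90 hM _
  classical
  have h1 := (stabilizer G y).card_mul_index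
  rw [index_stabilizer_of_transitive, Nat.card_eq_fintype_card (α := Y), hY] at h1
  have h2 := Subgroup.card_dvd_of_injective (toPermHom G Y) toPerm_injective
  rw [Nat.card_perm, Nat.card_eq_fintype_card (α := Y), hY, ← h1] at h2
  have h24 : Nat.card (stabilizer G y) ∣ 24 :=
    Nat.dvd_of_mul_dvd_mul_right (by norm_num : 0 < 5) h2
  refine kill_cop (n := 5) ?_ (kill_card (hM.mono le_top))
    ((by norm_num : Nat.Coprime 5 24).coprime_dvd_right h24)
  by_cases h3 : 3 ∣ Nat.card G
  · exact hY ▸ hA G Y A M y h90 hY.ge hM (RKP5X.three hY h3)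
  · obtain ⟨N, hN, hc⟩ := RKP5X.normal5 h1.symm h24 h3
    have : Fact (Nat.Prime 5) := ⟨Nat.prime_five⟩
    have ho : ∀ n ∈ N, n ≠ 1 → orderOf n = 5 := fun n hn h =>
      orderOf_eq_prime (by
        have := pow_card_eq_one' (x := (⟨n, hn⟩ : N))
        rw [hc] at this
        exact congrArg Subtype.val this) h
    refine hc ▸ hF G Y A N (stabilizer G y) M (h90 _) (fun h _ n hn => hN.conj_mem n hn h)
      (fun h hh n hn e => ?_) (hM.mono le_top) (hM.mono le_top) fun h _ m _ hm => ?_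
    · refine (em (n = 1)).symm.imp (fun hn1 => ?_) id
      refine eq_of_smul_eq_smul (α := Y) fun x => ?_
      obtain ⟨i, rfl⟩ := RKP5X.trans5 hY (ho n hn hn1) y x
      have hc : Commute h n := mul_inv_eq_iff_eq_mul.1 e
      rw [one_smul, ← mul_smul, (hc.pow_right i).eq, mul_smul, mem_stabilizer_iff.1 hh]
    · have : Nontrivial N := Finite.one_lt_card_iff_nontrivial.1 (by rw [hc]; norm_num)
      obtain ⟨n, hn⟩ := exists_ne (1 : N)
      have hn5 := ho n n.2 fun e => hn (Subtype.ext e)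
      refine Finsupp.ext fun a => (Finsupp.comapSMul_apply _ _ _).trans ?_
      obtain ⟨i, hi⟩ := RKP5X.trans5 hY hn5 (h⁻¹ • a) a
      have h5 := (Finsupp.comapSMul_apply ((n : G) ^ i) m a).symm.trans
        (congrArg (fun f : Y →₀ ℤ => f a) (hm _ (N.pow_mem n.2 i)))
      rwa [inv_smul_eq_iff.2 hi.symm] at h5

end Pool.Agent.MP_db5b97_nt.H67
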