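import Pool.Agent.MP_db5b97_nt.H67.Spec

/-! Units are squares or discriminants of Eisenstein polynomials. -/

namespace Pool.Agent.MP_db5b97_nt.H67

open H85 H30 Module

namespace RLAX

variable {k F : Type} [Field k] [Field F] [Algebra k F]
  {w : Valuation F (WithZero (Multiplicative ℤ))} {p : k}

theorem pos (h : Loc k w p) : 0 < w (algebraMap k F p) :=
  zero_lt_iff.2 ((Valuation.ne_zero_iff w).2 ((map_ne_zero _).2 h.ne))

theorem step (h : Loc k w p) {x : k} {j : ℕ} (hx : w (algebraMap k F x) < w (algebraMap k F p) ^ j) :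
    w (algebraMap k F x) ≤ w (algebraMap k F p) ^ (j + 1) := by
  by_cases h0 : x = 0
  · simp [h0]
  obtain ⟨n, hn⟩ := h.dis x h0
  rw [hn, ← zpow_natCast] at hx ⊢
  exact zpow_le_zpow_right_of_le_one₀ (pos h) h.lt.le
    (by have := (zpow_lt_zpow_iff_right_of_lt_one₀ (pos h) h.lt).1 hx; omega)

theorem two (h : Loc k w p) : ∃ e : ℕ, w 2 = w (algebraMap k F p) ^ e := by
  obtain ⟨n, hn⟩ := h.dis 2 h.two
  rw [map_ofNat] at hn
  have h1 := h.int
  rw [hn, zpow_le_one_iff_right_of_lt_one₀ (pos h) h.lt] at h1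
  lift n to ℕ using h1
  exact ⟨n, by rw [hn, zpow_natCast]⟩

variable (w p) in
/-- the second alternative -/
def Alt (a : k) : Prop :=
  ∃ b q r : k, r ≠ 0 ∧ a * r ^ 2 = b ^ 2 - 4 * q ∧
    w (algebraMap k F q) = w (algebraMap k F p) ∧ w (algebraMap k F b) < 1

theorem ind (h : Loc k w p) {a : k} (ha : w (algebraMap k F a) = 1) {e : ℕ}
    (he : w 2 = w (algebraMap k F p) ^ e) (j : ℕ) (hj : j ≤ 2 * e) :
    Alt w p a ∨ ∃ s : k, w (algebraMap k F s) ≤ 1 ∧
      w (algebraMap k F (a - s ^ 2)) ≤ w (algebraMap k F p) ^ j := by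
  have p0 := pos h
  have pn := h.ne
  induction j with
  | zero => exact Or.inr ⟨0, by simp, by simp [ha]⟩
  | succ j ih =>
    rcases ih (by omega) with h1 | ⟨s, s1, s2⟩
    · exact Or.inl h1
    obtain ⟨i, rfl | rfl⟩ := Nat.even_or_odd' j
    · have lt : w (algebraMap k F p) ^ e < w (algebraMap k F p) ^ i :=
        pow_lt_pow_right_of_lt_one₀ p0 h.lt (by omega)
      have x1 : w (algebraMap k F ((a - s ^ 2) / p ^ (2 * i))) ≤ 1 := by
        rw [map_div₀, map_div₀, map_pow, map_pow]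
        exact (div_le_one₀ (pow_pos p0 _)).2 s2
      obtain ⟨y, hy⟩ := h.per (he ▸ lt.trans_le (pow_le_one₀ zero_le h.lt.le)) _ x1
      have y1 : w (algebraMap k F y) ≤ 1 := by
        have := w.map_add_le hy.le x1
        rw [← map_add, sub_add_cancel, map_pow, map_pow] at this
        exact (pow_le_one_iff two_ne_zero).1 this
      refine Or.inr ⟨s + p ^ i * y, ?_, step h ?_⟩
      · rw [map_add]
        refine w.map_add_le s1 ?_
        rw [map_mul, map_mul, map_pow, map_pow]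
        exact mul_le_one' (pow_le_one₀ zero_le h.lt.le) y1
      · rw [show a - (s + p ^ i * y) ^ 2 = -(p ^ (2 * i) * (y ^ 2 - (a - s ^ 2) / p ^ (2 * i))
          + p ^ i * (2 * (s * y))) by field_simp; ring, map_neg, w.map_neg, map_add]
        refine w.map_add_lt ?_ ?_
        · rw [map_mul, map_mul, map_pow, map_pow]
          simpa using mul_lt_mul_of_pos_left hy (pow_pos p0 (2 * i))
        · simp only [map_mul, map_pow, map_ofNat]
          rw [two_mul, pow_add, he]
          refine mul_lt_mul_of_pos_left (lt_of_le_of_lt ?_ lt) (pow_pos p0 _)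
          exact mul_le_of_le_one_right' (mul_le_one' s1 y1)
    · rcases s2.lt_or_eq with s3 | s3
      · exact Or.inr ⟨s, s1, step h s3⟩
      have lt : w (algebraMap k F p) ^ e < w (algebraMap k F p) ^ i :=
        pow_lt_pow_right_of_lt_one₀ p0 h.lt (by omega)
      refine Or.inl ⟨2 * s / p ^ i, -(a - s ^ 2) / p ^ (2 * i), 2 / p ^ i,
        div_ne_zero h.two (pow_ne_zero _ pn), by field_simp; ring, ?_, ?_⟩
      · rw [map_div₀, map_div₀, map_neg, w.map_neg, s3, map_pow, map_pow, pow_succ',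
          mul_div_cancel_right₀ _ (pow_pos p0 _).ne']
      · simp only [map_div₀, map_mul, map_pow, map_ofNat]
        rw [div_lt_one₀ (pow_pos p0 _), he]
        exact (mul_le_of_le_one_right' s1).trans_lt lt

theorem unit (h : Loc k w p) {a : k} (ha : w (algebraMap k F a) = 1) :
    (∀ δ, δ ≠ 0 → ∃ r : F, w (r ^ 2 - algebraMap k F a) ≤ δ) ∨ Alt w p a := by
  obtain ⟨e, he⟩ := two h
  rcases ind h ha he _ le_rfl with h1 | ⟨s, s1, s2⟩
  · exact Or.inr h1
  refine Or.inl fun δ hδ => ?_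
  have t0 : (2 : F) ≠ 0 := by
    rw [← map_ofNat (algebraMap k F) 2]
    exact (map_ne_zero _).2 h.two
  have g1 : w (algebraMap k F ((a - s ^ 2) / 2 ^ 2)) ≤ 1 := by
    rw [map_div₀, map_div₀, map_pow, map_pow, map_ofNat, he, ← pow_mul']
    exact (div_le_one₀ (pow_pos (pos h) _)).2 s2
  have e1 : ∀ z : F, w ((2 * z + algebraMap k F s) ^ 2 - algebraMap k F a) ≤
      w (z ^ 2 + algebraMap k F s * z - algebraMap k F ((a - s ^ 2) / 2 ^ 2)) := fun z => by
    rw [show (2 * z + algebraMap k F s) ^ 2 - algebraMap k F a = 2 ^ 2 *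
      (z ^ 2 + algebraMap k F s * z - algebraMap k F ((a - s ^ 2) / 2 ^ 2)) by
        simp only [map_div₀, map_sub, map_pow, map_ofNat]; field_simp; ring, map_mul, map_pow]
    exact mul_le_of_le_one_left' (pow_le_one₀ zero_le h.int)
  obtain ⟨z, hz⟩ := h.qua s (-((a - s ^ 2) / 2 ^ 2)) s1 (by rwa [map_neg, w.map_neg])
  rw [map_neg, ← sub_eq_add_neg] at hz
  have z1 : w (2 * z + algebraMap k F s) = 1 := by
    have := w.map_add_eq_of_lt_right (x := (2 * z + algebraMap k F s) ^ 2 - algebraMap k F a)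
      (y := algebraMap k F a) (ha ▸ (e1 z).trans_lt hz)
    rw [sub_add_cancel, ha, map_pow] at this
    exact (pow_eq_one_iff_of_nonneg zero_le two_ne_zero).1 this
  obtain ⟨z', hz'⟩ := newton w h.int z1 hz hδ
  exact ⟨_, (e1 z').trans hz'⟩

end RLAX

open RLAX in
theorem rowLA : RowLA := by
  intro k F _ _ _ w p a h ha
  have p0 := pos h
  have pn := h.ne
  obtain ⟨n, hn⟩ := h.dis a ha
  obtain ⟨m, rfl | rfl⟩ := Int.even_or_odd' n
  · have q0 : p ^ m ≠ 0 := zpow_ne_zero _ pn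
    have q1 : algebraMap k F (p ^ m) ≠ 0 := (map_ne_zero _).2 q0
    have q2 : 0 < w (algebraMap k F (p ^ m) ^ 2) :=
      zero_lt_iff.2 ((Valuation.ne_zero_iff w).2 (pow_ne_zero _ q1))
    have a1 : w (algebraMap k F (a / (p ^ m) ^ 2)) = 1 := by
      rw [map_div₀, map_div₀, hn, map_pow, map_pow, map_zpow₀, map_zpow₀, two_mul,
        zpow_add₀ p0.ne', sq, div_self (mul_pos (zpow_pos p0 _) (zpow_pos p0 _)).ne']
    rcases unit h a1 with h1 | ⟨b, q, r, h1, h2, h3⟩
    · refine Or.inl fun δ hδ => ?_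
      obtain ⟨r, hr⟩ := h1 (δ / w (algebraMap k F (p ^ m) ^ 2)) (div_ne_zero hδ q2.ne')
      refine ⟨r * algebraMap k F (p ^ m), ?_⟩
      rw [le_div_iff₀ q2, ← map_mul] at hr
      refine le_of_eq_of_le (congrArg w ?_) hr
      rw [map_div₀, map_pow]
      field_simp
    · exact Or.inr ⟨b, q, r / p ^ m, div_ne_zero h1 q0, by rw [← h2]; field_simp, h3⟩
  · have q0 : p ^ m ≠ 0 := zpow_ne_zero _ pn
    refine Or.inr ⟨0, -a / (p ^ m) ^ 2, 2 / p ^ m, div_ne_zero h.two q0, by field_simp; ring, ?_,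
      by simp⟩
    rw [map_div₀, map_div₀, map_neg, w.map_neg, hn, map_pow, map_pow, map_zpow₀, map_zpow₀,
      zpow_add_one₀ p0.ne', two_mul, zpow_add₀ p0.ne', sq,
      mul_div_cancel_left₀ _ (mul_pos (zpow_pos p0 _) (zpow_pos p0 _)).ne']

end Pool.Agent.MP_db5b97_nt.H67
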