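import Pool.Agent.MP_db5b97_nt.H67.Spec
import Pool.Agent.MP_db5b97_nt.H53.DT

/-! Equivariant labels. -/

namespace Pool.Agent.MP_db5b97_nt.H67

open H85 H30 Module

namespace RLABX

variable {E Y : Type} [Group E] (π : E →* Ga) (σ : E →* Equiv.Perm Y)

/-- the semilinear action on functions -/
@[reducible] noncomputable def act : DistribMulAction E (Y → Om) where
  smul e f y := π e (f ((σ e)⁻¹ y))
  one_smul f := funext fun y => by
    change π 1 (f ((σ 1)⁻¹ y)) = f y
    simp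
  mul_smul e e' f := funext fun y => by
    change π (e * e') (f ((σ (e * e'))⁻¹ y)) = π e (π e' (f ((σ e')⁻¹ ((σ e)⁻¹ y))))
    simp
  smul_zero e := funext fun _ => map_zero (π e)
  smul_add e f g := funext fun _ => map_add (π e) _ _

/-- the equivariant functions -/
def eqv : Submodule ℚ (Y → Om) where
  carrier := {f | ∀ e y, π e (f y) = f (σ e y)}
  add_mem' hf hg e y := by simp only [Pi.add_apply, map_add, hf e y, hg e y]
  zero_mem' e _ := map_zero (π e)
  smul_mem' c f hf e y := by rw [Pi.smul_apply, Pi.smul_apply, ← hf e y, map_rat_smul]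

theorem span_top [Finite Y] (E0 : Subgroup E) (h0 : IsOpen ((E0.map π : Subgroup Ga) : Set Ga))
    (hk : ∀ g, π g = 1 → σ g = 1) (ho : OP π E0 fun e => σ e = 1) :
    Submodule.span Om (eqv π σ : Set (Y → Om)) = ⊤ := by
  let := act π σ
  have e : ∀ (e : E) (f : Y → Om) (y : Y), (e • f) y = π e (f ((σ e)⁻¹ y)) := fun _ _ _ => rfl
  refine top_unique ((H53.rowDS E (Y → Om) π E0 ⊤ (fun g a f => funext fun y => ?_) h0
    (fun f => ?_) opn_top fun g _ hg f => funext fun y => ?_).ge.trans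
    (Submodule.span_mono fun f hf g y => ?_))
  · rw [Pi.smul_apply, e, e, Pi.smul_apply, smul_eq_mul, smul_eq_mul, map_mul]
  · refine (ho.and (OP.all fun y => op_fix (f y))).mono fun g hg => funext fun y => ?_
    rw [e, hg.2, hg.1]
    rfl
  · rw [e, hg, hk g hg]
    rfl
  · simpa [e] using congrFun (hf g trivial) (σ g y)

end RLABX

open RLABX in
theorem rowLAB : RowLAB := by
  classical
  intro E Y _ _ π E0 σ h0 hk ho
  let p : {q : Y × Y // q.1 ≠ q.2} → Subspace ℚ (eqv π σ) := fun q =>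
    (LinearMap.eqLocus (LinearMap.proj q.1.1 : (Y → Om) →ₗ[ℚ] Om) (LinearMap.proj q.1.2)).comap
      (eqv π σ).subtype
  have h1 : ⋃ q, (p q : Set (eqv π σ)) ≠ Set.univ := fun h => by
    obtain ⟨q, hq⟩ := Subspace.exists_eq_top_of_iUnion_eq_univ h
    have h2 : Submodule.span Om (eqv π σ : Set (Y → Om)) ≤
        LinearMap.eqLocus (LinearMap.proj q.1.1 : (Y → Om) →ₗ[Om] Om) (LinearMap.proj q.1.2) :=
      Submodule.span_le.2 fun f hf => (hq.ge Submodule.mem_top : (⟨f, hf⟩ : eqv π σ) ∈ p q)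
    rw [span_top π σ E0 h0 hk ho] at h2
    have h3 : (Pi.single q.1.1 1 : Y → Om) q.1.1 = (Pi.single q.1.1 1 : Y → Om) q.1.2 :=
      h2 (Submodule.mem_top (x := Pi.single q.1.1 1))
    rw [Pi.single_eq_same, Pi.single_eq_of_ne' q.2] at h3
    exact one_ne_zero h3
  obtain ⟨α, hα⟩ := (Set.ne_univ_iff_exists_notMem _).1 h1
  exact ⟨α.1, fun y y' h => by_contra fun hn => hα (Set.mem_iUnion.2 ⟨⟨(y, y'), hn⟩, h⟩), α.2⟩

end Pool.Agent.MP_db5b97_nt.H67
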