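import Pool.Agent.MP_db5b97_nt.H67.Spec

/-! Eisenstein forms are universal. -/

namespace Pool.Agent.MP_db5b97_nt.H67

open H85 H30 Module

namespace RLBX

section One

variable {K : Type} [Field K] (v : Valuation K (WithZero (Multiplicative ℤ))) {p b q c : K}

theorem le_one_of_sq {u : K} (h : v (u ^ 2) ≤ 1) : v u ≤ 1 := by
  rw [map_pow] at h
  exact (pow_le_one_iff_of_nonneg zero_le two_ne_zero).1 h

theorem mul_lt {x y : K} (hx : v x < 1) (hy : v y ≤ 1) : v (x * y) < 1 := by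
  rw [map_mul]
  exact (mul_le_of_le_one_right' hy).trans_lt hx

theorem mul_le {x y : K} {r : WithZero (Multiplicative ℤ)} (hx : v x ≤ r) (hy : v y ≤ 1) :
    v (x * y) ≤ r := by
  rw [map_mul]
  exact (mul_le_of_le_one_right' hy).trans hx

theorem div_le {x y : K} (hy : y ≠ 0) (h : v x ≤ v y) : v (x / y) ≤ 1 := by
  rw [map_div₀]
  exact (div_le_one₀ (zero_lt_iff.2 (v.ne_zero_iff.2 hy))).2 h

theorem div_lt {x y : K} (hy : y ≠ 0) (h : v x < v y) : v (x / y) < 1 := by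
  rw [map_div₀]
  exact (div_lt_one₀ (zero_lt_iff.2 (v.ne_zero_iff.2 hy))).2 h

/-- an approximate solution has a unit as first coordinate -/
theorem unit (hb : v b < 1) (hq : v q < 1) (hc : v c = 1) {x y : K} (hx : v x ≤ 1) (hy : v y ≤ 1)
    (h : v (x ^ 2 + b * x * y + q * y ^ 2 - c) < 1) : v x = 1 := by
  have e : x ^ 2 = c + (x ^ 2 + b * x * y + q * y ^ 2 - c - b * x * y - q * y * y) := by ring
  have h1 : v (x ^ 2 + b * x * y + q * y ^ 2 - c - b * x * y - q * y * y) < v c := by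
    rw [hc]
    exact v.map_sub_lt (v.map_sub_lt h (mul_lt v (mul_lt v hb hx) hy)) (mul_lt v (mul_lt v hq hy) hy)
  have h2 : v x ^ 2 = 1 := by rw [← map_pow, e, v.map_add_eq_of_lt_left h1, hc]
  exact (pow_eq_one_iff_of_nonneg zero_le two_ne_zero).1 h2

/-- approximate roots of monic integral polynomials are integral -/
theorem root_int {B C z : K} (hB : v B ≤ 1) (hC : v C ≤ 1) (h : v (z ^ 2 + B * z + C) < 1) :
    v z ≤ 1 := by
  by_contra hz
  rw [not_le] at hz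
  have h0 : 0 < v z := zero_lt_one.trans hz
  have h1 : v z < v (z ^ 2) := by
    rw [map_pow, sq]
    exact lt_mul_of_one_lt_right h0 hz
  have h2 : v (B * z + C) < v (z ^ 2) := by
    refine v.map_add_lt ?_ (hC.trans_lt (hz.trans h1))
    rw [mul_comm]
    exact (mul_le v le_rfl hB).trans_lt h1
  rw [add_assoc, v.map_add_eq_of_lt_left h2] at h
  exact absurd (hz.trans (h1.trans h)) (lt_irrefl _)

variable (hp : p ≠ 0) (hp1 : v p ≤ 1) (hs : ∀ t, v t ≤ 1 → ∃ u, v u ≤ 1 ∧ v (u ^ 2 - t) ≤ v p)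
include hp hp1 hs

theorem even {i : ℕ} (h2 : v 2 ≤ v p ^ (i + 1)) (hb : v b ≤ v p ^ (i + 1)) {x y : K}
    (hx : v x ≤ 1) (hy : v y ≤ 1) (h : v (x ^ 2 + b * x * y + q * y ^ 2 - c) ≤ v p ^ (2 * i)) :
    ∃ x', v x' ≤ 1 ∧ v (x' ^ 2 + b * x' * y + q * y ^ 2 - c) ≤ v p ^ (2 * i + 1) := by
  have h0 : p ^ (2 * i) ≠ 0 := pow_ne_zero _ hp
  obtain ⟨u, hu, hu'⟩ := hs (-(x ^ 2 + b * x * y + q * y ^ 2 - c) / p ^ (2 * i))
    (div_le v h0 (by rw [v.map_neg, map_pow v p]; exact h))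
  have hi : v (p ^ i) ≤ 1 := by
    rw [map_pow]
    exact pow_le_one' hp1 i
  refine ⟨x + p ^ i * u, v.map_add_le hx (mul_le v hi hu), ?_⟩
  have e : (x + p ^ i * u) ^ 2 + b * (x + p ^ i * u) * y + q * y ^ 2 - c =
      p ^ (2 * i) * (u ^ 2 - -(x ^ 2 + b * x * y + q * y ^ 2 - c) / p ^ (2 * i)) +
        p ^ i * (2 * x + b * y) * u := by
    rw [mul_sub (p ^ (2 * i)), mul_div_cancel₀ _ h0]
    ring
  rw [e]
  refine v.map_add_le ?_ (mul_le v ?_ hu)
  · rw [map_mul, map_pow, pow_succ _ (2 * i)]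
    exact mul_le_mul' le_rfl hu'
  · rw [map_mul, map_pow, show 2 * i + 1 = i + (i + 1) by ring, pow_add]
    exact mul_le_mul' le_rfl (v.map_add_le (mul_le v h2 hx) (mul_le v hb hy))

theorem odd (hq : v q = v p) {i : ℕ} (h2 : v 2 ≤ v p ^ (i + 1)) (hb : v b ≤ v p ^ (i + 2))
    {x y : K} (hx : v x ≤ 1) (hy : v y ≤ 1)
    (h : v (x ^ 2 + b * x * y + q * y ^ 2 - c) ≤ v p ^ (2 * i + 1)) :
    ∃ y', v y' ≤ 1 ∧ v (x ^ 2 + b * x * y' + q * y' ^ 2 - c) ≤ v p ^ (2 * (i + 1)) := by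
  have hq0 : q ≠ 0 := v.ne_zero_iff.1 (by rw [hq]; exact v.ne_zero_iff.2 hp)
  have h0 : p ^ (2 * i) * q ≠ 0 := mul_ne_zero (pow_ne_zero _ hp) hq0
  have hv : v (p ^ (2 * i) * q) = v p ^ (2 * i + 1) := by rw [map_mul, map_pow, hq, pow_succ]
  obtain ⟨u, hu, hu'⟩ := hs (-(x ^ 2 + b * x * y + q * y ^ 2 - c) / (p ^ (2 * i) * q))
    (div_le v h0 (by rw [v.map_neg, hv]; exact h))
  have hi : v (p ^ i) ≤ 1 := by
    rw [map_pow]
    exact pow_le_one' hp1 i
  refine ⟨y + p ^ i * u, v.map_add_le hy (mul_le v hi hu), ?_⟩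
  have e : x ^ 2 + b * x * (y + p ^ i * u) + q * (y + p ^ i * u) ^ 2 - c =
      p ^ (2 * i) * q * (u ^ 2 - -(x ^ 2 + b * x * y + q * y ^ 2 - c) / (p ^ (2 * i) * q)) +
        p ^ i * (b * x + 2 * q * y) * u := by
    rw [mul_sub (p ^ (2 * i) * q), mul_div_cancel₀ _ h0]
    ring
  rw [e]
  refine v.map_add_le ?_ (mul_le v ?_ hu)
  · rw [map_mul, hv, show 2 * (i + 1) = 2 * i + 1 + 1 by ring, pow_succ _ (2 * i + 1)]
    exact mul_le_mul' le_rfl hu'
  · rw [map_mul, map_pow, show 2 * (i + 1) = i + (i + 2) by ring, pow_add]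
    refine mul_le_mul' le_rfl (v.map_add_le (mul_le v hb hx) (mul_le v ?_ hy))
    rw [map_mul, hq, pow_succ _ (i + 1)]
    exact mul_le_mul' h2 le_rfl

end One

section Two

variable {K : Type} [Field K] (v : Valuation K (WithZero (Multiplicative ℤ))) {p b q c : K}

theorem approx (hp : p ≠ 0) (hp1 : v p < 1)
    (hs : v 2 < 1 → ∀ t, v t ≤ 1 → ∃ u, v u ≤ 1 ∧ v (u ^ 2 - t) ≤ v p) (hq : v q = v p)
    (hc : v c = 1) (n : ℕ) (h2 : v 2 ≤ v p ^ n) (hb : v b ≤ v p ^ (n + 1)) :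
    ∃ x y, v x ≤ 1 ∧ v y ≤ 1 ∧ v (x ^ 2 + b * x * y + q * y ^ 2 - c) ≤ v p ^ (2 * n) := by
  induction n with
  | zero => exact ⟨0, 0, by simp, by simp, by simp [hc]⟩
  | succ n ih =>
    have hm : ∀ m, v p ^ (m + 1) ≤ v p ^ m := fun m =>
      pow_le_pow_of_le_one zero_le hp1.le (Nat.le_succ m)
    have hs' := hs (h2.trans_lt (pow_lt_one₀ zero_le hp1 (Nat.succ_ne_zero n)))
    obtain ⟨x, y, hx, hy, h⟩ := ih (h2.trans (hm _)) (hb.trans (hm _))
    obtain ⟨x', hx', h'⟩ := even v hp hp1.le hs' h2 (hb.trans (hm _)) hx hy h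
    obtain ⟨y', hy', h''⟩ := odd v hp hp1.le hs' hq h2 hb hx' hy h'
    exact ⟨x', y', hx', hy', h''⟩

theorem nat_val (hp : p ≠ 0) (hp1 : v p < 1) (hd : ∀ x, x ≠ 0 → ∃ n : ℤ, v x = v p ^ n) {x : K}
    (hx : x ≠ 0) (h : v x ≤ 1) : ∃ n : ℕ, v x = v p ^ n := by
  obtain ⟨n, hn⟩ := hd x hx
  have h0 : 0 < v p := zero_lt_iff.2 (v.ne_zero_iff.2 hp)
  rw [hn, zpow_le_one_iff_right_of_lt_one₀ h0 hp1] at h
  obtain ⟨m, rfl⟩ := Int.eq_ofNat_of_zero_le h
  exact ⟨m, by rw [hn, zpow_natCast]⟩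

theorem le_succ (hp : p ≠ 0) (hp1 : v p < 1) (hd : ∀ x, x ≠ 0 → ∃ n : ℤ, v x = v p ^ n) {x : K}
    {n : ℕ} (h : v x < v p ^ n) : v x ≤ v p ^ (n + 1) := by
  by_cases hx : x = 0
  · rw [hx, map_zero]
    exact zero_le
  obtain ⟨m, hm⟩ := nat_val v hp hp1 hd hx (h.le.trans (pow_le_one' hp1.le n))
  rw [hm] at h ⊢
  refine pow_le_pow_of_le_one zero_le hp1.le (Nat.succ_le_of_lt (lt_of_not_ge fun e => ?_))
  exact absurd (pow_le_pow_of_le_one zero_le hp1.le e) h.not_ge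

end Two

variable {k F : Type} [Field k] [Field F] [Algebra k F]
  {w : Valuation F (WithZero (Multiplicative ℤ))} {p : k}

theorem root (L : Loc k w p) {B C : k} (hB : w (algebraMap k F B) ≤ 1)
    (hC : w (algebraMap k F C) ≤ 1)
    (h : ∀ z : F, w z ≤ 1 → w (z ^ 2 + algebraMap k F B * z + algebraMap k F C) < 1 →
      w (2 * z + algebraMap k F B) = 1) {δ : WithZero (Multiplicative ℤ)} (hδ : δ ≠ 0) :
    ∃ z : F, w (z ^ 2 + algebraMap k F B * z + algebraMap k F C) ≤ δ := by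
  obtain ⟨z, hz⟩ := L.qua B C hB hC
  obtain ⟨z', hz'⟩ := newton w (c := -algebraMap k F C) L.int (h z (root_int w hB hC hz) hz)
    (by rwa [sub_neg_eq_add]) hδ
  exact ⟨z', by rwa [sub_neg_eq_add] at hz'⟩

end RLBX

open RLBX in
theorem rowLB : RowLB := by
  intro k F _ _ _ w p b q c L hq hb hc δ hδ
  let v : Valuation k (WithZero (Multiplicative ℤ)) := w.comap (algebraMap k F)
  have hv : ∀ x, v x = w (algebraMap k F x) := fun _ => rfl
  have hv2 : v 2 = w 2 := by rw [hv, map_ofNat]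
  have hp1 : v p < 1 := L.lt
  have hd : ∀ x, x ≠ 0 → ∃ n : ℤ, v x = v p ^ n := L.dis
  have hq' : v q = v p := hq
  have hq1 : w (algebraMap k F q) < 1 := hq.trans_lt L.lt
  have hq0 : q ≠ 0 := v.ne_zero_iff.1 (by rw [hq']; exact v.ne_zero_iff.2 L.ne)
  have hs : v 2 < 1 → ∀ t, v t ≤ 1 → ∃ u, v u ≤ 1 ∧ v (u ^ 2 - t) ≤ v p := by
    intro h2 t ht
    obtain ⟨u, hu⟩ := L.per (hv2 ▸ h2) t ht
    have hu' : v (u ^ 2 - t) < v p ^ 0 := by
      rw [pow_zero]
      exact hu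
    refine ⟨u, le_one_of_sq v ?_, by simpa using le_succ v L.ne hp1 hd hu'⟩
    rw [← sub_add_cancel (u ^ 2) t]
    exact v.map_add_le (le_of_lt hu) ht
  have h2F : (2 : F) ≠ 0 := by
    rw [← map_ofNat (algebraMap k F) 2]
    exact (_root_.map_ne_zero _).2 L.two
  rcases lt_or_ge (v b) (v 2) with h | h
  · obtain ⟨e, he⟩ := nat_val v L.ne hp1 hd L.two (hv2.trans_le L.int)
    obtain ⟨x, y, hx, hy, hQ⟩ := approx v L.ne hp1 hs hq' hc e he.le
      (le_succ v L.ne hp1 hd (h.trans_eq he))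
    have hb2 : v (b / 2 * y) < 1 := mul_lt v (div_lt v L.two h) hy
    have key : ∀ z : F, (algebraMap k F x + 2 * z) ^ 2 +
        algebraMap k F b * (algebraMap k F x + 2 * z) * algebraMap k F y +
        algebraMap k F q * algebraMap k F y ^ 2 - algebraMap k F c =
        (z ^ 2 + algebraMap k F (x + b / 2 * y) * z +
          algebraMap k F ((x ^ 2 + b * x * y + q * y ^ 2 - c) / 2 ^ 2)) * 2 * 2 := by
      intro z
      simp only [map_add, map_sub, map_mul, map_div₀, map_pow, map_ofNat]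
      field_simp
      ring
    obtain ⟨z, hz⟩ := root L (B := x + b / 2 * y) (C := (x ^ 2 + b * x * y + q * y ^ 2 - c) / 2 ^ 2)
      (v.map_add_le hx hb2.le)
      (div_le v (pow_ne_zero 2 L.two) (by rw [map_pow v 2, he, ← pow_mul, mul_comm e]; exact hQ))
      (fun z hz h1 => by
        have h3 : w (algebraMap k F x + 2 * z) = 1 := by
          refine unit w hb hq1 hc (w.map_add_le hx (mul_le w L.int hz)) hy ?_
          rw [key]
          exact mul_lt w (mul_lt w h1 L.int) L.int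
        have e1 : 2 * z + algebraMap k F (x + b / 2 * y) =
            (algebraMap k F x + 2 * z) + algebraMap k F (b / 2 * y) := by
          rw [map_add]
          ring
        rw [e1, w.map_add_eq_of_lt_left (by rw [h3]; exact hb2), h3]) hδ
    exact ⟨_, _, by rw [key z]; exact mul_le w (mul_le w hz L.int) L.int⟩
  · have hb0 : b ≠ 0 := fun e => L.two (v.zero_iff.1 (le_antisymm (by simpa [e] using h) zero_le))
    have hb' : v b < 1 := hb
    obtain ⟨m, hm⟩ := nat_val v L.ne hp1 hd hb0 hb'.le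
    obtain ⟨n, rfl⟩ : ∃ n, m = n + 1 := Nat.exists_eq_succ_of_ne_zero fun e => by
      rw [e, pow_zero] at hm
      exact hb'.ne hm
    have h2 : v 2 ≤ v p ^ (n + 1) := h.trans_eq hm
    obtain ⟨x₀, y, hx₀, hy, hQ₀⟩ := approx v L.ne hp1 hs hq' hc n
      (h2.trans (pow_le_pow_of_le_one zero_le hp1.le (Nat.le_succ n))) hm.le
    obtain ⟨x, hx, hQ⟩ := even v L.ne hp1.le (hs (h.trans_lt hb')) h2 hm.le hx₀ hy hQ₀
    have hx1 : v x = 1 := unit v hb' hq1 hc hx hy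
      (hQ.trans_lt (pow_lt_one₀ zero_le hp1 (Nat.succ_ne_zero _)))
    have hb2 : v (q * (2 / b) * y) < 1 := mul_lt v (mul_lt v hq1 (div_le v hb0 h)) hy
    have hA0 : b ^ 2 / q ≠ 0 := div_ne_zero (pow_ne_zero 2 hb0) hq0
    have hA : v (b ^ 2 / q) = v p ^ (2 * n + 1) := by
      rw [map_div₀, map_pow, hm, hq', ← pow_mul, show (n + 1) * 2 = 2 * n + 1 + 1 by ring,
        pow_succ _ (2 * n + 1), mul_div_cancel_right₀ _ (v.ne_zero_iff.2 L.ne)]
    have hbF : algebraMap k F b ≠ 0 := (_root_.map_ne_zero _).2 hb0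
    have hqF : algebraMap k F q ≠ 0 := (_root_.map_ne_zero _).2 hq0
    have key : ∀ z : F, algebraMap k F x ^ 2 + algebraMap k F b * algebraMap k F x *
        (algebraMap k F y + algebraMap k F (b / q) * z) +
        algebraMap k F q * (algebraMap k F y + algebraMap k F (b / q) * z) ^ 2 - algebraMap k F c =
        (z ^ 2 + algebraMap k F (x + q * (2 / b) * y) * z +
          algebraMap k F ((x ^ 2 + b * x * y + q * y ^ 2 - c) / (b ^ 2 / q))) *
          algebraMap k F (b ^ 2 / q) := by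
      intro z
      simp only [map_add, map_sub, map_mul, map_div₀, map_pow, map_ofNat]
      field_simp
      ring
    have hB : v (x + q * (2 / b) * y) = 1 := by
      rw [v.map_add_eq_of_lt_left (by rw [hx1]; exact hb2), hx1]
    obtain ⟨z, hz⟩ := root L (B := x + q * (2 / b) * y)
      (C := (x ^ 2 + b * x * y + q * y ^ 2 - c) / (b ^ 2 / q)) hB.le
      (div_le v hA0 (hQ.trans_eq hA.symm))
      (fun z hz _ => by
        rw [w.map_add_eq_of_lt_right, ← hv, hB]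
        rw [← hv, hB]
        exact mul_lt w (hv2 ▸ h.trans_lt hb') hz) hδ
    exact ⟨_, _, by
      rw [key z]
      exact mul_le w hz (hA.trans_le (pow_le_one' hp1.le _))⟩

end Pool.Agent.MP_db5b97_nt.H67
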