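import Pool.Agent.MP_db5b97_nt.H67.Spec

/-! The local statement. -/

namespace Pool.Agent.MP_db5b97_nt.H67

theorem rowLOC : RowLA → RowLB → RowLOC := by
  intro hA hB k F _ _ _ w p a c L ha hc δ hδ
  have inj := (algebraMap k F).injective
  have w0 : ∀ x : k, x ≠ 0 → w (algebraMap k F x) ≠ 0 := fun x hx => by simpa using hx
  have two : (2 : F) ≠ 0 := by
    rw [← map_ofNat (algebraMap k F) 2]
    exact (map_ne_zero_iff _ inj).2 L.two
  rcases hA k F w p a L ha with h | ⟨b, q, r, r0, e, hq, hb⟩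
  · by_cases h1 : algebraMap k F c - 1 = 0
    · exact ⟨1, 0, by simp [sub_eq_zero.1 h1]⟩
    have wa := w0 a ha
    have w1 : w ((algebraMap k F c - 1) / 2) ≠ 0 := by simp [h1, two]
    obtain ⟨r, hr⟩ := h (min (w (algebraMap k F p) * w (algebraMap k F a))
      (δ * w (algebraMap k F a) / w ((algebraMap k F c - 1) / 2) ^ 2))
      (lt_min (zero_lt_iff.2 (mul_ne_zero (w0 p L.ne) wa))
        (zero_lt_iff.2 (div_ne_zero (mul_ne_zero hδ wa) (pow_ne_zero _ w1)))).ne'
    have h2 : w (r ^ 2) = w (algebraMap k F a) := Valuation.map_eq_of_sub_lt _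
      ((hr.trans (min_le_left _ _)).trans_lt (mul_lt_of_lt_one_left (zero_lt_iff.2 wa) L.lt))
    have r0 : r ≠ 0 := fun h => wa (by rw [← h2, h]; simp)
    refine ⟨(algebraMap k F c + 1) / 2, (algebraMap k F c - 1) / 2 / r, ?_⟩
    rw [show ((algebraMap k F c + 1) / 2) ^ 2 - algebraMap k F a * ((algebraMap k F c - 1) / 2 / r) ^ 2
      - algebraMap k F c = (r ^ 2 - algebraMap k F a) * ((algebraMap k F c - 1) / 2) ^ 2 / r ^ 2 by
        field_simp; ring, map_div₀, h2, map_mul, map_pow, div_le_iff₀ (zero_lt_iff.2 wa),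
      ← le_div_iff₀ (zero_lt_iff.2 (pow_ne_zero _ w1))]
    exact hr.trans (min_le_right _ _)
  · have e' := congrArg (algebraMap k F) e
    simp only [map_mul, map_pow, map_sub, map_ofNat] at e'
    have q0 : q ≠ 0 := fun h => w0 p L.ne (by rw [← hq, h]; simp)
    suffices ∃ x y : F, w (x ^ 2 + algebraMap k F b * x * y + algebraMap k F q * y ^ 2 -
        algebraMap k F c) ≤ δ by
      obtain ⟨x, y, h⟩ := this
      refine ⟨x + algebraMap k F b * y / 2, algebraMap k F r * y / 2, ?_⟩
      convert h using 2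
      field_simp
      linear_combination (-y ^ 2) * e'
    obtain ⟨n, hn⟩ := L.dis c hc
    have wp := w0 p L.ne
    have key : ∀ (u : k) (m : ℤ), u ≠ 0 → w (algebraMap k F c) =
        w (algebraMap k F u) * w (algebraMap k F p) ^ (2 * m) → ∃ x y : F,
        w (algebraMap k F u * (x ^ 2 + algebraMap k F b * x * y + algebraMap k F q * y ^ 2) -
          algebraMap k F c) ≤ δ := fun u m u0 hu => by
      have t0 : u * p ^ (2 * m) ≠ 0 := mul_ne_zero u0 (zpow_ne_zero _ L.ne)
      have wt := w0 _ t0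
      obtain ⟨x, y, h⟩ := hB k F w p b q (c / (u * p ^ (2 * m))) L hq hb (by
        rw [map_div₀, map_div₀, div_eq_one_iff_eq wt, hu, map_mul, map_mul, map_zpow₀, map_zpow₀])
        (δ / w (algebraMap k F (u * p ^ (2 * m)))) (div_ne_zero hδ wt)
      refine ⟨algebraMap k F p ^ m * x, algebraMap k F p ^ m * y, ?_⟩
      rw [le_div_iff₀ (zero_lt_iff.2 wt), ← map_mul] at h
      convert h using 2
      have t1 := (map_ne_zero_iff _ inj).2 t0
      rw [map_div₀, sub_mul, div_mul_cancel₀ _ t1, map_mul, map_zpow₀, mul_comm 2 m, zpow_mul,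
        zpow_ofNat]
      ring
    rcases Int.even_or_odd' n with ⟨m, rfl | rfl⟩
    · simpa using key 1 m one_ne_zero (by simpa using hn)
    · obtain ⟨x, y, h⟩ := key q m q0 (by rw [hn, hq, zpow_add_one₀ wp, mul_comm])
      refine ⟨algebraMap k F q * y + algebraMap k F b * x, -x, ?_⟩
      convert h using 2
      ring

end Pool.Agent.MP_db5b97_nt.H67
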