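import Pool.Agent.MP_db5b97_nt.H67.Spec

/-! Four points with a stable pair. -/

namespace Pool.Agent.MP_db5b97_nt.H67

open H85 H30 Module

namespace RP22X

variable {X : Finset Om} {H N U : Subgroup Ga} {M : AddSubgroup (Om →₀ ℤ)}
  {c : Ga → (Om →₀ ℤ) → Un Om} {a a' b b' : Om} {d : ℤ}

/-- stable pairs -/
def Pr (H : Subgroup Ga) (a a' : Om) : Prop :=
  ∀ σ ∈ H, (σ a = a ∧ σ a' = a') ∨ (σ a = a' ∧ σ a' = a)

/-- the difference of two points -/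
noncomputable def ee (a a' : Om) : Om →₀ ℤ := Finsupp.single a 1 - Finsupp.single a' 1

/-- vectors with equal coordinates -/
noncomputable def Eq2 (a a' : Om) : AddSubgroup (Om →₀ ℤ) :=
  (Finsupp.applyAddHom a).eqLocus (Finsupp.applyAddHom a')

theorem ap (σ : Ga) (m : Om →₀ ℤ) {x y : Om} (h : σ x = y) : (σ • m) y = m x :=
  h ▸ Finsupp.mapDomain_apply σ.injective m x

theorem smul_ee (σ : Ga) (k : ℤ) (a a' : Om) : σ • k • ee a a' = k • ee (σ a) (σ a') := by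
  rw [smul_comm, ee, smul_sub]
  exact congrArg (k • ·) (congrArg₂ _ (Finsupp.comapSMul_single _ _ _)
    (Finsupp.comapSMul_single _ _ _))

theorem ee_symm (a a' : Om) : ee a' a = -ee a a' := (neg_sub _ _).symm

theorem ee_l (h : a ≠ a') (k : ℤ) : (k • ee a a') a = k := by
  simp [ee, Finsupp.single_eq_of_ne h]

theorem ee_r (h : a ≠ a') (k : ℤ) : (k • ee a a') a' = -k := by
  simp [ee, Finsupp.single_eq_of_ne h.symm]

theorem ee_o {x : Om} (h : x ≠ a) (h' : x ≠ a') (k : ℤ) : (k • ee a a') x = 0 := by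
  simp [ee, Finsupp.single_eq_of_ne h, Finsupp.single_eq_of_ne h']

theorem eq_ee (h : a ≠ a') {m : Om →₀ ℤ} (h1 : m a' = -m a)
    (h2 : ∀ x, x ≠ a → x ≠ a' → m x = 0) : m = m a • ee a a' := by
  ext x
  by_cases k : x = a
  · rw [k, ee_l h]
  by_cases k' : x = a'
  · rw [k', ee_r h, h1]
  · rw [ee_o k k', h2 x k k']

theorem sgn (h : Pr H a a') (d : ℤ) : ∀ σ ∈ H,
    (σ (a - a') = a - a' ∧ σ • d • ee a a' = d • ee a a') ∨
      (σ (a - a') = -(a - a') ∧ σ • d • ee a a' = -(d • ee a a')) := fun σ hσ => by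
  rw [map_sub, smul_ee]
  exact (h σ hσ).imp (fun k => by rw [k.1, k.2]; exact ⟨rfl, rfl⟩) fun k => by
    rw [k.1, k.2, ee_symm, smul_neg, neg_sub]; exact ⟨rfl, rfl⟩

theorem step (h : Pr U a a') (hne : a ≠ a') (hc : Coc U M c) (hu : d • ee a a' ∈ M)
    (hd : ∀ m ∈ M, ∃ l : ℤ, m a - m a' = 2 * (l * d))
    (k1 : ∃ β, Bd U (AddSubgroup.zmultiples (d • ee a a')) 1 c β)
    (k2 : ∃ β, Bd U (M ⊓ Eq2 a a') 1 c β) : ∃ β, Bd U M 1 c β := by
  obtain ⟨β1, k1⟩ := k1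
  obtain ⟨β2, k2⟩ := k2
  have le := AddSubgroup.zmultiples_le_of_mem hu
  let p : (Om →₀ ℤ) → Om →₀ ℤ := fun m => ((m a - m a') / 2) • ee a a'
  have p1 : AddOn M p := fun x hx y hy => by
    obtain ⟨l, hl⟩ := hd x hx
    obtain ⟨l', hl'⟩ := hd y hy
    simp only [p, Finsupp.add_apply]
    rw [← add_smul]
    congr 1
    omega
  have p2 : ∀ y ∈ M, p y ∈ AddSubgroup.zmultiples (d • ee a a') := fun y hy => by
    obtain ⟨l, hl⟩ := hd y hy
    exact ⟨l, by simp only [p]; rw [hl, Int.mul_ediv_cancel_left _ two_ne_zero, mul_smul]⟩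
  have p3 : ∀ s ∈ U, ∀ y ∈ M, p (s • y) = s • p y := fun s hs y hy => by
    obtain ⟨l, hl⟩ := hd y hy
    simp only [p]
    rw [smul_ee]
    rcases h s hs with k | k
    · rw [ap s y k.1, ap s y k.2, k.1, k.2]
    · rw [ap s y k.1, ap s y k.2, k.1, k.2, ee_symm a a', smul_neg, ← neg_smul]
      congr 1
      omega
  refine ⟨_, bd_split (n := 1) (m := 1) hc le inf_le_left p (fun y => y - p y) p1
    (fun x hx y hy => by simp only [p1 x hx y hy]; abel) p2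
    (fun y hy => ⟨M.sub_mem hy (le (p2 y hy)), ?_⟩)
    p3 (fun s hs y hy => by rw [p3 s hs y hy, smul_sub]) (fun y _ => by simp) k1 k2⟩
  obtain ⟨l, hl⟩ := hd y hy
  change (y - p y) a = (y - p y) a'
  simp only [p, Finsupp.sub_apply]
  rw [ee_l hne, ee_r hne]
  omega

theorem idx (h : Pr H b b') : (H ⊓ MulAction.stabilizer Ga b).relIndex H ≤ 2 := by
  rw [Subgroup.inf_relIndex_left]
  refine (MulAction.index_stabilizer H b).trans_le ((Set.ncard_le_ncard (t := {b, b'}) ?_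
    (Set.toFinite _)).trans ((Set.ncard_insert_le _ _).trans_eq (by rw [Set.ncard_singleton])))
  rintro _ ⟨σ, rfl⟩
  exact (h σ σ.2).imp And.left And.left

theorem dich (hC : RowC2G) (hX : ∀ σ ∈ H, ∀ x ∈ X, σ x ∈ X)
    (hx : ∀ x ∈ X, x ≠ a → x ≠ a' → x = b ∨ x = b') (hb : b ∈ X) (ha : a ≠ a') (hb' : b ≠ b')
    (pa : Pr H a a') (pb : Pr H b b') (hN : IsOpen (N : Set Ga)) (hNH : N ≤ H)
    (h1 : ∀ ν ∈ N, ∀ x ∈ X, ν x = x) (h2 : ∀ σ ∈ H, (∀ x ∈ X, σ x = x) → σ ∈ N)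
    (hs : ∀ y ∈ M, y.support ⊆ X) (hM : Stab H M) (hc : Coc H M c)
    (hcN : ∀ ν ∈ N, ∀ y ∈ M, c ν y = 0) :
    (∃ H' : Subgroup Ga, IsOpen (H' : Set Ga) ∧ H' ≤ H ∧ H'.relIndex H ≤ 2 ∧ ∃ β, Bd H' M 1 c β) ∨
      ∃ d : ℤ, d • ee a a' ∈ M ∧ ∀ m ∈ M, ∃ l : ℤ, m a - m a' = 2 * (l * d) := by
  have le : N ≤ H ⊓ MulAction.stabilizer Ga b := fun ν hν => ⟨hNH hν, h1 ν hν b hb⟩
  have fx : ∀ σ ∈ H ⊓ MulAction.stabilizer Ga b, ∀ x ∈ X, x ≠ a → x ≠ a' → σ x = x := by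
    rintro σ ⟨s1, s2⟩ x k k1 k2
    have := (pb σ s1).resolve_right fun e => hb' ((show σ b = b from s2).symm.trans e.1)
    rcases hx x k k1 k2 with rfl | rfl
    exacts [this.1, this.2]
  refine (em _).imp (fun h => ⟨_, Subgroup.isOpen_mono le hN, inf_le_left, idx pb,
    hC X _ N M c a a' hN le (fun σ hσ => hX σ hσ.1) h1 (fun σ hσ => h2 σ hσ.1) hs
      (hM.mono inf_le_left) (hc.mono inf_le_left le_rfl) hcN fx h⟩) fun h => ?_
  push Not at h
  obtain ⟨σ, hσ, ⟨x, x1, x2⟩, m, hm, m1, m2⟩ := h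
  have sw := (pa σ hσ.1).resolve_left fun e => x2 (by
    by_cases k : x = a
    · rw [k, e.1]
    by_cases k' : x = a'
    · rw [k', e.2]
    · exact fx σ hσ x x1 k k')
  have out : ∀ y ∈ M, ∀ x, x ∉ X → y x = 0 := fun y hy x k =>
    Finsupp.notMem_support_iff.1 fun e => k (hs y hy e)
  have e1 : ∀ y ∈ M, y - σ • y = (y a - y a') • ee a a' := fun y hy => by
    have := eq_ee ha (m := y - σ • y) (by
      rw [Finsupp.sub_apply, Finsupp.sub_apply, ap σ y sw.1, ap σ y sw.2, neg_sub])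
      fun x k k' => by
        by_cases hx : x ∈ X
        · rw [Finsupp.sub_apply, ap σ y (fx σ hσ x hx k k'), sub_self]
        · exact out _ (M.sub_mem hy (hM σ hσ.1 y hy)) x hx
    rwa [Finsupp.sub_apply, ap σ y sw.2] at this
  have e2 : m = m a • ee a a' := eq_ee ha (by rw [← ap σ m sw.2, m1, Finsupp.neg_apply])
    fun x k k' => by
      by_cases hx : x ∈ X
      · have := ap σ m (fx σ hσ x hx k k')
        rw [m1, Finsupp.neg_apply] at this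
        omega
      · exact out _ hm x hx
  obtain ⟨d, hd⟩ := Int.subgroup_cyclic (M.comap (zmultiplesHom _ (ee a a')))
  have hD : ∀ n : ℤ, n • ee a a' ∈ M ↔ ∃ k : ℤ, k * d = n := fun n =>
    (SetLike.ext_iff.1 hd n).trans AddSubgroup.mem_closure_singleton
  have hu := (hD d).2 ⟨1, one_mul d⟩
  refine ⟨d, hu, fun y hy => ?_⟩
  obtain ⟨k, hk⟩ := (hD _).1 (e1 y hy ▸ M.sub_mem hy (hM σ hσ.1 y hy))
  obtain ⟨j, hj⟩ := (hD _).1 (e2 ▸ hm)
  rcases Int.even_or_odd' k with ⟨l, rfl | rfl⟩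
  · exact ⟨l, by rw [← hk, mul_assoc]⟩
  have hz := M.zsmul_mem (M.sub_mem hy (M.zsmul_mem hu l)) j
  refine absurd ?_ (m2 _ hz)
  rw [e1 _ hz, e2, ← hj, smul_smul l]
  simp only [Finsupp.smul_apply j, Finsupp.sub_apply, ee_l ha, ee_r ha, smul_eq_mul]
  congr 1
  linear_combination j * hk

open Classical in
theorem pr_of (h : a ≠ a') (hY : ∀ σ ∈ H, ∀ y ∈ ({a, a'} : Finset Om), σ y ∈ ({a, a'} : Finset Om)) :
    Pr H a a' := fun σ hσ => by
  have h1 := hY σ hσ a (by simp)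
  have h2 := hY σ hσ a' (by simp)
  have h3 : σ a ≠ σ a' := σ.injective.ne h
  simp only [Finset.mem_insert, Finset.mem_singleton] at h1 h2
  rcases h1 with h1 | h1 <;> rcases h2 with h2 | h2
  exacts [absurd (h1.trans h2.symm) h3, Or.inl ⟨h1, h2⟩, Or.inr ⟨h1, h2⟩,
    absurd (h1.trans h2.symm) h3]

end RP22X

open RP22X in
theorem rowP22 : RowC2G → RowQG → RowP22 := by
  classical
  intro hC hQ X Y H c4 hYX c2 hX hY N M c hN hNH h1 h2 _ hs hM hc hcN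
  obtain ⟨b, b', hb, eb⟩ := Finset.card_eq_two.1
    (show (X \ Y).card = 2 by rw [Finset.card_sdiff_of_subset hYX, c4, c2])
  obtain ⟨a, a', ha, rfl⟩ := Finset.card_eq_two.1 c2
  have pa : Pr H a a' := pr_of ha (by simpa using hY)
  have hZ : ∀ σ ∈ H, ∀ y ∈ X \ {a, a'}, σ y ∈ X \ {a, a'} := fun σ hσ y hy =>
    Finset.mem_sdiff.2 ⟨hX σ hσ y (Finset.mem_sdiff.1 hy).1, fun e => (Finset.mem_sdiff.1 hy).2
      (σ.symm_apply_apply y ▸ hY σ⁻¹ (H.inv_mem hσ) _ e)⟩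
  have pb : Pr H b b' := pr_of hb (by simpa [eb] using hZ)
  have hx : ∀ x, x ∈ X ∧ ¬ (x = a ∨ x = a') ↔ x = b ∨ x = b' := fun x => by
    simpa using Finset.ext_iff.1 eb x
  have b1 := (hx b).2 (Or.inl rfl)
  have b2 := (hx b').2 (Or.inr rfl)
  rw [not_or] at b1 b2
  rcases dich hC hX (fun x k k1 k2 => (hx x).1 ⟨k, not_or.2 ⟨k1, k2⟩⟩) b1.1 ha hb pa pb hN hNH h1 h2
    hs hM hc hcN with h | ⟨d, u1, d1⟩
  · exact h
  rcases dich hC hX (fun x k k1 k2 => by_contra fun e => not_or.2 ⟨k1, k2⟩ ((hx x).1 ⟨k, e⟩))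
    (hYX (by simp)) hb ha pb pa hN hNH h1 h2 hs hM hc hcN with h | ⟨d', u2, d2⟩
  · exact h
  obtain ⟨H', q1, q2, q3, q4⟩ := hQ Bool X H N M c (fun j => cond j (d • ee a a') (d' • ee b b'))
    (fun j => cond j (a - a') (b - b')) hN hNH hX h1 hs hM hc hcN (fun j => j.rec u2 u1)
    (fun j => j.rec (sub_ne_zero.2 hb) (sub_ne_zero.2 ha)) fun j => j.rec (sgn pb d') (sgn pa d)
  have fx : ∀ s ∈ H, ∀ y ∈ M ⊓ Eq2 a a' ⊓ Eq2 b b', s • y = y := by
    rintro s h y ⟨⟨y1, y2⟩, y3⟩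
    have y2 : y a = y a' := y2
    have y3 : y b = y b' := y3
    ext x
    by_cases k : x ∈ X
    · by_cases k' : x = a ∨ x = a'
      · rcases pa s h with e | e <;> rcases k' with rfl | rfl
        exacts [ap s y e.1, ap s y e.2, (ap s y e.2).trans y2.symm, (ap s y e.1).trans y2]
      · rcases pb s h with e | e <;> rcases (hx x).1 ⟨k, k'⟩ with rfl | rfl
        exacts [ap s y e.1, ap s y e.2, (ap s y e.2).trans y3.symm, (ap s y e.1).trans y3]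
    · rw [Finsupp.notMem_support_iff.1 fun e => k (hs y y1 e),
        Finsupp.notMem_support_iff.1 fun e => k (hs _ (hM s h y y1) e)]
  refine ⟨H', q1, q2, q3, step (fun σ hσ => pa σ (q2 hσ)) ha (hc.mono q2 le_rfl) u1 d1 (q4 true)
    (step (fun σ hσ => pb σ (q2 hσ)) hb (hc.mono q2 inf_le_left) ⟨u2, ?_⟩ (fun m hm => d2 m hm.1)
      (q4 false) (bd_triv (M := M ⊓ Eq2 a a' ⊓ Eq2 b b') hX hN hNH h1 (fun y hy => hs y hy.1.1)
        (fun s h y hy => (fx s h y hy).symm ▸ hy) (hc.mono le_rfl (inf_le_left.trans inf_le_left))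
        (fun ν hν y hy => hcN ν hν y hy.1.1) q2 fun s h => fx s (q2 h)))⟩
  exact (ee_o (Ne.symm b1.2.1) (Ne.symm b2.2.1) d').trans
    (ee_o (Ne.symm b1.2.2) (Ne.symm b2.2.2) d').symm

end Pool.Agent.MP_db5b97_nt.H67
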