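import Pool.Agent.MP_db5b97_nt.H67.Spec

/-! A stable subspace. -/

namespace Pool.Agent.MP_db5b97_nt.H67

open H85 H30 Module

theorem rowPROD : RowPROD := by
  intro E W _ _ _ _ _ π E0 V a b c s ha hb
  obtain ⟨U, k1, k2, k3⟩ := (letI := subAct s; ha E V π E0 rfl (c.sub s))
  have s' : Stb U V := fun e => s e
  obtain ⟨U', j1, j2, j3⟩ := (letI := quoAct s'; hb U (W ⧸ V) _ _
    (Submodule.finrank_quotient V) ((c.res k1).quo s'))
  refine Goal.res k1 k3 ⟨U', j1, fun g hg h => (c.res k1).uni (V := V) h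
    (fun w hw => congrArg Subtype.val (k2 g g.2 h ⟨w, hw⟩)) fun w => ?_, j3⟩
  exact (Submodule.Quotient.eq V).1 (j2 g hg h (V.mkQ w))

end Pool.Agent.MP_db5b97_nt.H67
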