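import Pool.Agent.MP_db5b97_nt.H67.Spec

/-! Transitive actions. -/

namespace Pool.Agent.MP_db5b97_nt.H67

open H85 MulAction

theorem rowPT : RowPT := by
  classical
  rintro X H ⟨x, hx⟩ hK hX ht hp N M c hN hNH h h' hn hs hM hc hcN
  have : Ope N := ⟨hN⟩
  let _ := Qt.xact hX h
  have hA := by
    have := Qt.faithful (S := H) (N := N) (T := N) inf_le_right
    exact rowNT2.h90 (Fx N) (Qt H N)
  have hM' : Stab ⊤ (M.comap (jX X)) := fun (q : Qt H N) _ => Quotient.inductionOn' q fun s y hy =>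
    AddSubgroup.mem_comap.2 ((jX_smul hX h s y).symm ▸ hM s s.2 _ hy)
  have : FaithfulSMul (Qt H N) X := ⟨fun {a b} hab => inv_mul_eq_one.1 (by
    have e : ∀ y : X, (a⁻¹ * b) • y = y := fun y => by rw [mul_smul, ← hab, inv_smul_smul]
    generalize a⁻¹ * b = q at e
    induction q using QuotientGroup.induction_on with
    | H s => exact (QuotientGroup.eq_one_iff s).2 (h' s s.2 fun y hy =>
        congrArg Subtype.val (e ⟨y, hy⟩)))⟩
  have : IsPretransitive (Qt H N) X := ⟨fun a b => by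
    obtain ⟨σ, hσ, e⟩ := ht a a.2 b b.2
    exact ⟨((⟨σ, hσ⟩ : H) : Qt H N), Subtype.ext e⟩⟩
  obtain ⟨β, hβ⟩ := transferX hX h hs hNH hM hc hcN (hK (Qt H N) X _ _ ⟨x, hx⟩
    (Fintype.card_coe X) hA hM' fun h4 B hB => by
      obtain ⟨σ, hσ, ⟨a, ha, k1⟩, b, hb, k2⟩ := hp h4 (B.map (Function.Embedding.subtype _))
        (fun y hy => by
          obtain ⟨z, -, rfl⟩ := Finset.mem_map.1 hy
          exact z.2) (by rw [Finset.card_map, hB])
      obtain ⟨a, ha', rfl⟩ := Finset.mem_map.1 ha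
      obtain ⟨b, hb', rfl⟩ := Finset.mem_map.1 hb
      obtain ⟨z, hz, e⟩ := Finset.mem_map.1 k1
      exact ⟨((⟨σ, hσ⟩ : H) : Qt H N), ⟨a, ha', (Subtype.ext e :
        z = ((⟨σ, hσ⟩ : H) : Qt H N) • a) ▸ hz⟩, b, hb',
        fun k => k2 (Finset.mem_map.2 ⟨_, k, rfl⟩)⟩)
  refine ⟨_, Subgroup.isOpen_mono (le_pre _ hNH) hN, pre_le _, ?_, β, hβ⟩
  rw [relIndex_pre, index_stabilizer_of_transitive, Nat.card_eq_fintype_card, Fintype.card_coe]

end Pool.Agent.MP_db5b97_nt.H67
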