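import Pool.Agent.MP_db5b97_nt.H67.Spec

/-! Row QG: a common quadratic splitting field for lattices of rank one. -/

namespace Pool.Agent.MP_db5b97_nt.H67

open H85 H30 Module

namespace RQGX

theorem idx {H : Subgroup Ga} {D : Om} (h : ∀ s ∈ H, s (D ^ 2) = D ^ 2) :
    (H ⊓ MulAction.stabilizer Ga D).relIndex H ≤ 2 := by
  have hs : MulAction.orbit H D ⊆ {D, -D} := by
    rintro _ ⟨s, rfl⟩
    have : s.1 D ^ 2 = D ^ 2 := by rw [← map_pow, h s.1 s.2]
    exact sq_eq_sq_iff_eq_or_eq_neg.1 this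
  rw [Subgroup.inf_relIndex_left]
  change (MulAction.stabilizer H D).index ≤ 2
  rw [MulAction.index_stabilizer]
  exact (Set.ncard_le_ncard hs (Set.toFinite _)).trans
    ((Set.ncard_insert_le _ _).trans (by simp))

variable {H : Subgroup Ga} {c : Ga → (Om →₀ ℤ) → Un Om} {u : Om →₀ ℤ} {δ : Om}

theorem dich (hδ : δ ≠ 0) {s : Ga} (h : (s δ = δ ∧ s • u = u) ∨ (s δ = -δ ∧ s • u = -u)) :
    (s δ = δ → s • u = u) ∧ (s δ = -δ → s • u = -u) := by
  have h0 : δ ≠ -δ := fun e => hδ (by linear_combination e / 2)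
  rcases h with h | h
  · exact ⟨fun _ => h.2, fun k => absurd (h.1.symm.trans k) h0⟩
  · exact ⟨fun k => absurd (k.symm.trans h.1) h0, fun _ => h.2⟩

theorem stab (h : ∀ s ∈ H, (s δ = δ ∧ s • u = u) ∨ (s δ = -δ ∧ s • u = -u)) :
    Stab H (AddSubgroup.zmultiples u) := by
  rintro s hs _ ⟨n, rfl⟩
  show s • n • u ∈ _
  rw [smul_comm]
  rcases h s hs with k | k <;> rw [k.2]
  · exact zsmul_mem (AddSubgroup.mem_zmultiples u) n
  · exact zsmul_mem (neg_mem (AddSubgroup.mem_zmultiples u)) n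

theorem norm_cl (hδ : δ ≠ 0) (h : ∀ s ∈ H, (s δ = δ ∧ s • u = u) ∨ (s δ = -δ ∧ s • u = -u))
    (hc : Coc H (AddSubgroup.zmultiples u) c) (h0 : ∀ s ∈ H, s δ = δ → c s u = 0) :
    ∃ y : Un Om, (∀ s ∈ H, s • y = y) ∧ ∀ s ∈ H, s δ = -δ → c s u = y := by
  have hu := AddSubgroup.mem_zmultiples u
  by_cases k : ∃ τ ∈ H, τ δ = -δ
  · obtain ⟨τ, k1, k2⟩ := k
    have k3 : τ⁻¹ δ = -δ := τ.injective (by
      rw [map_neg, k2, neg_neg]
      exact τ.apply_symm_apply δ)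
    have k4 : ∀ s ∈ H, s δ = -δ → c s u = c τ u := fun s hs e => by
      have m := mul_mem (inv_mem k1) hs
      have e1 : (τ⁻¹ * s) δ = δ := by rw [AlgEquiv.mul_apply, e, map_neg, k3, neg_neg]
      have e2 := hc.2 τ k1 _ m u hu
      rwa [mul_inv_cancel_left, (dich hδ (h _ m)).1 e1, h0 _ m e1, smul_zero, add_zero] at e2
    refine ⟨c τ u, fun s hs => ?_, k4⟩
    have e2 := hc.2 s hs τ k1 u hu
    rw [(dich hδ (h _ k1)).2 k2, (hc.1 s hs).neg hu] at e2
    rcases h s hs with e | e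
    · rw [k4 _ (mul_mem hs k1) (by rw [AlgEquiv.mul_apply, k2, map_neg, e.1]), h0 s hs e.1,
        neg_zero, zero_add] at e2
      exact e2.symm
    · rw [h0 _ (mul_mem hs k1) (by rw [AlgEquiv.mul_apply, k2, map_neg, e.1, neg_neg]),
        k4 s hs e.1] at e2
      exact (neg_add_eq_zero.1 e2.symm).symm
  · exact ⟨0, fun s _ => smul_zero s, fun s hs e => absurd ⟨s, hs, e⟩ k⟩

theorem build (h : ∀ s ∈ H, (s δ = δ ∧ s • u = u) ∨ (s δ = -δ ∧ s • u = -u))
    (hc : Coc H (AddSubgroup.zmultiples u) c) (γ : Un Om)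
    (h1 : ∀ s ∈ H, s δ = δ → c s u = s • γ - γ) (h2 : ∀ s ∈ H, s δ = -δ → c s u = s • γ + γ) :
    ∃ β, Bd H (AddSubgroup.zmultiples u) 1 c β := by
  by_cases hu : u = 0
  · subst hu
    refine ⟨0, fun _ _ _ _ => by simp, ?_⟩
    rintro s hs _ ⟨n, rfl⟩
    simp [(hc.1 s hs).zero]
  obtain ⟨x, hx⟩ : ∃ x, u x ≠ 0 := by
    by_contra k
    push Not at k
    exact hu (Finsupp.ext k)
  have e : ∀ n : ℤ, (n • u) x / u x = n := fun n => by
    rw [Finsupp.smul_apply, smul_eq_mul, Int.mul_ediv_cancel _ hx]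
  refine ⟨fun v => (v x / u x) • γ, ?_, ?_⟩
  · rintro _ ⟨n, rfl⟩ _ ⟨m, rfl⟩
    simp only [← add_smul, e]
  · rintro s hs _ ⟨n, rfl⟩
    show 1 • c s (n • u) = s • ((n • u) x / u x) • γ - ((s • n • u) x / u x) • γ
    rw [one_smul, (hc.1 s hs).zsmul (AddSubgroup.mem_zmultiples u), e, smul_comm s n,
      smul_comm s n]
    rcases h s hs with k | k
    · rw [k.2, e, h1 s hs k.1, smul_sub]
    · rw [k.2, smul_neg, ← neg_smul, e, h2 s hs k.1, smul_add, neg_smul, sub_neg_eq_add]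

end RQGX

open RQGX in
theorem rowQG : RowQN → RowQG := by
  intro HN ι _ X H N M c u δ hN hNH hX hNX hs hM hc hcN hu hδ h
  have : Ope H := ⟨Subgroup.isOpen_mono hNH hN⟩
  have hle : ∀ j, AddSubgroup.zmultiples (u j) ≤ M := fun j => AddSubgroup.zmultiples_le.2 (hu j)
  have b0 : ∀ j, ∃ β, Bd (H ⊓ MulAction.stabilizer Ga (δ j)) (AddSubgroup.zmultiples (u j)) 1 c β :=
    fun j => bd_triv hX hN hNH hNX (fun y hy => hs y (hle j hy)) (stab (h j))
      (hc.mono le_rfl (hle j)) (fun ν hν y hy => hcN ν hν y (hle j hy)) inf_le_left (by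
        rintro s k _ ⟨n, rfl⟩
        show s • n • u j = n • u j
        rw [smul_comm, (dich (hδ j) (h j s k.1)).1 k.2])
  choose β0 hβ0 using b0
  have hc' := fun j => (hc.mono le_rfl (hle j)).sub_bd (stab (h j)) (hβ0 j).1 1
  have hz : ∀ j, ∀ s ∈ H, s (δ j) = δ j →
      1 • c s (u j) - (s • β0 j (u j) - β0 j (s • u j)) = 0 := fun j s k e =>
    sub_eq_zero.2 ((hβ0 j).2 s ⟨k, e⟩ _ (AddSubgroup.mem_zmultiples _))
  choose y hy hy' using fun j => norm_cl (hδ j) (h j) (hc' j) (hz j)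
  let a : ι → Fx H := fun j => ⟨δ j ^ 2, mem_fx.2 fun s k => by
    rw [map_pow]
    rcases h j s k with e | e <;> rw [e.1]
    ring⟩
  let x : ι → Fx H := fun j => ⟨(y j).val, mem_fx.2 fun s k => congrArg Un.val (hy j s k)⟩
  obtain ⟨d, hd⟩ := HN (Fx H) ι a x
    (fun j e => pow_ne_zero 2 (hδ j) (congrArg Subtype.val e))
    fun j e => (y j).val_ne (congrArg Subtype.val e)
  obtain ⟨D, hD⟩ := IsAlgClosed.exists_pow_nat_eq (d : Om) two_pos
  refine ⟨H ⊓ MulAction.stabilizer Ga D, (Ope.inf (S := H)).out, inf_le_left,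
    idx fun s k => by rw [hD, Fx.fix d k], fun j => ?_⟩
  obtain ⟨s, s', t, t', e1, e2⟩ := hd j
  have f1 : (s : Om) ^ 2 + d * s' ^ 2 - δ j ^ 2 * (t ^ 2 + d * t' ^ 2) = (y j).val := by
    simpa using congrArg Subtype.val e1
  have f2 : (s : Om) * s' = δ j ^ 2 * (t * t') := by simpa using congrArg Subtype.val e2
  have f3 : ((s + s' * D) - (t + t' * D) * δ j) * ((s + s' * D) + (t + t' * D) * δ j) =
      (y j).val := by
    rw [← hD] at f1
    linear_combination f1 + 2 * D * f2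
  have f4 : (s + s' * D) + (t + t' * D) * δ j ≠ 0 := fun e => (y j).val_ne (by
    rw [← f3, e, mul_zero])
  have f5 : ∀ g ∈ H ⊓ MulAction.stabilizer Ga D, g ((s + s' * D) + (t + t' * D) * δ j) =
      (s + s' * D) + (t + t' * D) * g (δ j) := fun g k => by
    simp only [map_add, map_mul, Fx.fix _ k.1, show g D = D from k.2]
  have f6 : ∀ g ∈ H ⊓ MulAction.stabilizer Ga D, (g • Un.mk _ f4).val =
      (s + s' * D) + (t + t' * D) * g (δ j) := f5
  obtain ⟨β, hβ⟩ := build (H := H ⊓ MulAction.stabilizer Ga D) (fun g k => h j g k.1)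
    ((hc' j).mono inf_le_left le_rfl) (Un.mk _ f4)
    (fun g k e => (hz j g k.1 e).trans (sub_eq_zero.2 (Un.ext (by
      rw [f6 g k, e, Un.val_mk]))).symm)
    fun g k e => (hy' j g k.1 e).trans (Un.ext (by
      rw [Un.val_add, f6 g k, Un.val_mk, e, ← f3]
      ring))
  exact ⟨_, Bd.of_sub (hβ0 j).1 hβ⟩

end Pool.Agent.MP_db5b97_nt.H67
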