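import Pool.Agent.MP_db5b97_nt.H67.Spec
import Pool.Agent.MP_b4c6b8_lc.H22.HN
import Pool.Agent.MP_db5b97_nt.H95.RES
import Pool.Agent.MP_db5b97_nt.H76.IN

/-! A common quadratic splitting field: equations. -/

namespace Pool.Agent.MP_db5b97_nt.H67

open H85 H30 Module NumberField IsDedekindDomain Polynomial

namespace RQNX

variable {K : Type} [Field K] [NumberField K]

theorem unit {x : K} (hx : x ≠ 0) : ∃ m : ℕ, 0 < m ∧ ∀ l, m ∣ l →
    ∀ (F : Type) [Field F] [NumberField F] [Algebra K F] (w : Pr F l),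
      w.1.valuation F (algebraMap K F x) = 1 := by
  obtain ⟨u, d, hd, rfl⟩ := IsFractionRing.div_surjective (A := 𝓞 K) x
  obtain ⟨m, m0, hm⟩ := MP_b4c6b8_lc.H22.HN.exists_l (x := u) fun h => hx (by simp [h])
  obtain ⟨n, n0, hn⟩ := MP_b4c6b8_lc.H22.HN.exists_l (nonZeroDivisors.ne_zero hd)
  refine ⟨m * n, by positivity, fun l hl F _ _ _ w => ?_⟩
  have e : ∀ y : 𝓞 K, y ∉ (w.und K).1.asIdeal →
      w.1.valuation F (algebraMap K F (algebraMap (𝓞 K) K y)) = 1 := fun y hy =>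
    (val_eq_one_iff w.1 (algebraMap (𝓞 K) (𝓞 F) y)).2 hy
  rw [map_div₀, map_div₀, e u (hm l (dvd_of_mul_right_dvd hl) _),
    e d (hn l (dvd_of_mul_left_dvd hl) _), div_one]

theorem sol (hRQ : RowRQ) (hGD : RowGD) (hLOC : RowLOC) {F : Type} [Field F] [NumberField F]
    [Algebra K F] {l : ℕ} (h2 : 2 ∣ l) {p q : 𝓞 K} {α : F}
    (hα : α ^ 2 + algebraMap K F p * α + algebraMap K F q = 0)
    (hg : ∀ v : Pl K l, Irreducible ((X ^ 2 + C p * X + C q).map (Ideal.Quotient.mk v.1.asIdeal)))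
    (hF : IsEmpty (F →+* ℝ)) {a c : K} (a0 : a ≠ 0) (c0 : c ≠ 0)
    (ha : ∀ w : Pr F l, w.1.valuation F (algebraMap K F a) = 1)
    (hc : ∀ w : Pr F l, w.1.valuation F (algebraMap K F c) = 1) :
    ∃ s t : F, s ^ 2 - algebraMap K F a * t ^ 2 = algebraMap K F c := by
  have gm : (X ^ 2 + C p * X + C q).Monic := by monicity!
  have g0 : aeval α (X ^ 2 + C p * X + C q) = 0 := by
    simp only [map_add, map_mul, map_pow, aeval_X, aeval_C]
    exact hα
  have hi : IsIntegral ℤ α := isIntegral_trans (A := 𝓞 K) α ⟨_, gm, g0⟩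
  refine MP_b4c6b8_lc.H22.rowHN F _ _ (by simpa using a0) (by simpa using c0)
    (fun φ => hF.elim φ) fun w n => ?_
  by_cases hw : (l : 𝓞 F) ∈ w.asIdeal
  · obtain ⟨r, hr⟩ := hRQ K F w _ ⟨α, hi⟩ gm (by compute_degree!) (by
      refine RingOfIntegers.ext ?_
      simp only [map_add, map_mul, map_pow, aeval_X, aeval_C]
      exact hα) (hg (Pl.und K ⟨w, hw⟩))
    exact hLOC K F _ r a c hr a0 c0 _ WithZero.exp_ne_zero
  · refine hGD F w _ _ ?_ (ha ⟨w, hw⟩) (hc ⟨w, hw⟩) _ WithZero.exp_ne_zero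
    exact (val_eq_one_iff w ((2 : ℕ) : 𝓞 F)).2 fun h =>
      hw (Ideal.mem_of_dvd _ (Nat.cast_dvd_cast h2) h)

theorem big (y : K) : ∃ N : ℕ, ∀ φ : K →+* ℝ, φ y < N := by
  have : Finite (K →+* ℝ) :=
    Finite.of_injective (fun φ : K →+* ℝ => Complex.ofRealHom.comp φ) fun φ ψ h => by
      ext x
      simpa using RingHom.congr_fun h x
  obtain ⟨B, hB⟩ := (Set.finite_range fun φ : K →+* ℝ => φ y).bddAbove
  obtain ⟨N, hN⟩ := exists_nat_gt B
  exact ⟨N, fun φ => (hB ⟨φ, rfl⟩).trans_lt hN⟩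

end RQNX

theorem rowQN : RowRQ → RowGD → RowLOC → RowQN := by
  intro hRQ hGD hLOC K ι _ _ _ a x a0 x0
  have := Fintype.ofFinite ι
  choose m m0 hm using fun j => RQNX.unit (a0 j)
  choose n n0 hn using fun j => RQNX.unit (x0 j)
  obtain ⟨l, l2, l3, lm, ln⟩ : ∃ l, 2 ≤ l ∧ 2 ∣ l ∧ (∀ j, m j ∣ l) ∧ ∀ j, n j ∣ l :=
    ⟨2 * ((∏ j, m j) * ∏ j, n j), Nat.le_mul_of_pos_right _
      (mul_pos (Finset.prod_pos fun j _ => m0 j) (Finset.prod_pos fun j _ => n0 j)),
      dvd_mul_right _ _,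
      fun j => ((Finset.dvd_prod_of_mem _ (Finset.mem_univ j)).mul_right _).mul_left _,
      fun j => ((Finset.dvd_prod_of_mem _ (Finset.mem_univ j)).mul_left _).mul_left _⟩
  have R := H85.rowRES H76.rowGEN
  obtain ⟨g, gm, gd, hg⟩ := R.ex K l 2 (by omega) two_pos
  obtain ⟨p, q, rfl⟩ : ∃ p q, g = X ^ 2 + C p * X + C q := ⟨g.coeff 1, g.coeff 0, by
    have := eq_quadratic_of_degree_le_two (p := g) (degree_le_of_natDegree_le gd.le)
    rwa [← gd, gm.coeff_natDegree, gd, C_1, one_mul] at this⟩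
  obtain ⟨N, hN⟩ := RQNX.big ((p : K) ^ 2 - 4 * q)
  obtain ⟨q', hq⟩ : ∃ q' : 𝓞 K, q' = q + l * N := ⟨_, rfl⟩
  have hg' : ∀ v : Pl K l,
      Irreducible ((X ^ 2 + C p * X + C q').map (Ideal.Quotient.mk v.1.asIdeal)) := fun v => by
    have := hg v
    simp only [Polynomial.map_add, map_C] at this ⊢
    rwa [hq, map_add, Ideal.Quotient.eq_zero_iff_mem.2 (v.1.asIdeal.mul_mem_right _ v.2), add_zero]
  obtain ⟨d, hd⟩ : ∃ d : K, d = (p : K) ^ 2 - 4 * q' := ⟨_, rfl⟩
  have : Fact (∀ r, r ^ 2 ≠ d + 0 * r) := ⟨fun r e => by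
    have h1 := R.fld K l _ l2 (by monicity!) hg'
    have h2 := degree_eq_one_of_irreducible_of_root h1 (x := (r - p) / 2) (by
      simp only [IsRoot, Polynomial.map_add, Polynomial.map_mul, Polynomial.map_pow, map_C, map_X,
        eval_add, eval_mul, eval_pow, eval_X, eval_C]
      change _ + (p : K) * _ + (q' : K) = 0
      linear_combination (1 / 4) * e + (1 / 4) * hd)
    rw [Monic.degree_map (by monicity!), show (X ^ 2 + C p * X + C q' : (𝓞 K)[X]).degree = 2 by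
      compute_degree!] at h2
    exact absurd h2 (by decide)⟩
  have := NumberField.of_module_finite K (QuadraticAlgebra K d 0)
  have hω : (QuadraticAlgebra.omega : QuadraticAlgebra K d 0) ^ 2 = algebraMap K _ d := by
    ext <;> simp [sq]
  refine ⟨d, fun j => ?_⟩
  obtain ⟨s, t, h⟩ := RQNX.sol hRQ hGD hLOC (F := QuadraticAlgebra K d 0) l3
    (α := (QuadraticAlgebra.omega - algebraMap K _ p) / 2) (by
      have := congrArg (algebraMap K (QuadraticAlgebra K d 0)) hd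
      rw [map_sub, map_mul, map_pow, map_ofNat] at this
      linear_combination (1 / 4) * hω + (1 / 4) * this) hg' ⟨fun φ => by
      have h1 := congrArg φ hω
      have h2 := hN (φ.comp (algebraMap K _))
      have h3 := congrArg (φ.comp (algebraMap K _)) hd
      have h4 : (2 : ℝ) ≤ l := by exact_mod_cast l2
      have h5 : (0 : ℝ) ≤ N := N.cast_nonneg
      rw [map_pow, ← RingHom.comp_apply] at h1
      rw [hq] at h3
      simp only [map_add, map_sub, map_mul, map_natCast, map_ofNat] at h2 h3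
      nlinarith [sq_nonneg (φ QuadraticAlgebra.omega)]⟩ (a0 j) (x0 j) (hm j l (lm j) _)
      (hn j l (ln j) _)
  have h1 := congrArg QuadraticAlgebra.re h
  have h2 := congrArg QuadraticAlgebra.im h
  simp [sq] at h1 h2
  exact ⟨s.re, s.im, t.re, t.im, by linear_combination h1, by linear_combination (1 / 2) * h2⟩

end Pool.Agent.MP_db5b97_nt.H67
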