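import Pool.Agent.MP_db5b97_nt.H67.Spec

/-! Primes whose residue field contains the quadratic extension. -/

namespace Pool.Agent.MP_db5b97_nt.H67

open H85 H30 Module NumberField IsDedekindDomain Polynomial

namespace RRQX

theorem fr {κ : Type} [Field κ] {g : κ[X]} (hg : Irreducible g) :
    finrank κ (AdjoinRoot g) = g.natDegree := by
  rw [(AdjoinRoot.powerBasis hg.ne_zero).finrank, AdjoinRoot.powerBasis_dim]

/-- a finite field containing a quadratic extension contains the roots of all quadratics -/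
theorem root {κ κ' : Type} [Field κ] [Field κ'] [Finite κ'] (f : κ →+* κ') {g : κ[X]}
    (hg : Irreducible g) (h2 : g.natDegree = 2) {α : κ'} (hα : g.eval₂ f α = 0) (b c : κ) :
    ∃ z : κ', z ^ 2 + f b * z + f c = 0 := by
  let _ := f.toAlgebra
  obtain ⟨h, hh⟩ : ∃ h : κ[X], h = X ^ 2 + C b * X + C c := ⟨_, rfl⟩
  have hd : h.natDegree = 2 := by rw [hh]; compute_degree!
  have he : ∀ z : κ', aeval z h = z ^ 2 + f b * z + f c := fun z => by
    rw [hh, map_add, map_add, map_mul, map_pow, aeval_X, aeval_C, aeval_C]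
    rfl
  by_cases hi : Irreducible h
  · have := Fact.mk hi
    have := Fact.mk hg
    have h3 : finrank κ (AdjoinRoot g) ∣ finrank κ κ' :=
      FiniteField.nonempty_algHom_iff_finrank_dvd.1
        ⟨AdjoinRoot.liftAlgHom g (Algebra.ofId κ κ') α hα⟩
    rw [fr hg, h2, ← hd, ← fr hi] at h3
    obtain ⟨φ⟩ := FiniteField.nonempty_algHom_of_finrank_dvd h3
    exact ⟨φ (AdjoinRoot.root h), by
      rw [← he, aeval_algHom_apply, AdjoinRoot.aeval_eq, AdjoinRoot.mk_self, map_zero]⟩
  · rw [irreducible_iff_roots_eq_zero_of_degree_le_three hd.ge (by omega)] at hi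
    obtain ⟨r, hr⟩ := Multiset.exists_mem_of_ne_zero hi
    refine ⟨algebraMap κ κ' r, ?_⟩
    rw [← he, aeval_algebraMap_apply_eq_algebraMap_eval, (isRoot_of_mem_roots hr).eq_zero,
      map_zero]

variable {k F : Type} [Field k] [NumberField k] [Field F] [NumberField F] [Algebra k F]
  (w : Sp F)

theorem le_iff (x : k) : w.valuation F (algebraMap k F x) ≤ 1 ↔ (und k w).valuation k x ≤ 1 := by
  rw [NT2.val_inc, pow_le_one_iff_of_nonneg zero_le (NT2.ram_ne k w)]

theorem lt_iff (x : k) : w.valuation F (algebraMap k F x) < 1 ↔ (und k w).valuation k x < 1 := by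
  rw [NT2.val_inc, pow_lt_one_iff_of_nonneg zero_le (NT2.ram_ne k w)]

theorem approx {x : k} (h : w.valuation F (algebraMap k F x) ≤ 1) :
    ∃ a : 𝓞 k, (und k w).valuation k (algebraMap (𝓞 k) k a - x) < 1 :=
  (und k w).exists_valuation_sub_lt_of_integer ((le_iff w x).1 h) 1

end RRQX

open RRQX in
theorem rowRQ : RowRQ := by
  intro k F _ _ _ _ _ w g α hm h2 hα hg
  obtain ⟨p, hp⟩ := (und k w).valuation_exists_uniformizer k
  have i1 := (und k w).isMaximal
  have i2 := w.isMaximal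
  have f1 := Ideal.finiteQuotientOfFreeOfNeBot _ (und k w).ne_bot
  have f2 := Ideal.finiteQuotientOfFreeOfNeBot _ w.ne_bot
  have e2 : (2 : F) = algebraMap (𝓞 F) F 2 := (map_ofNat _ 2).symm
  refine ⟨p, two_ne_zero, ?_, ?_, ?_, fun x hx => ⟨-WithZero.log ((und k w).valuation k x), ?_⟩,
    fun h x hx => ?_, fun b c hb hc => ?_⟩
  · rw [e2]
    exact w.valuation_le_one 2
  · rintro rfl
    rw [map_zero] at hp
    exact WithZero.exp_ne_zero hp.symm
  · rw [lt_iff, hp, ← WithZero.exp_zero, WithZero.exp_lt_exp]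
    decide
  · have h0 : (und k w).valuation k x ≠ 0 := by simpa using hx
    rw [NT2.val_inc, NT2.val_inc, hp, ← zpow_natCast, ← zpow_natCast, ← zpow_mul, mul_comm,
      zpow_mul, ← WithZero.exp_zsmul, smul_eq_mul, mul_neg_one, neg_neg, WithZero.exp_log h0]
  · have h3 : (2 : 𝓞 k) ∈ (und k w).asIdeal := by
      rw [← HeightOneSpectrum.valuation_lt_one_iff_mem (K := k), ← lt_iff]
      change w.valuation F (algebraMap k F (algebraMap (𝓞 k) k 2)) < 1
      rwa [map_ofNat, map_ofNat]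
    have : CharP (𝓞 k ⧸ (und k w).asIdeal) 2 := CharTwo.of_one_ne_zero_of_two_eq_zero one_ne_zero
      (by rw [← map_ofNat (Ideal.Quotient.mk (und k w).asIdeal) 2, Ideal.Quotient.eq_zero_iff_mem]
          exact h3)
    obtain ⟨a, ha⟩ := approx w hx
    obtain ⟨y, hy⟩ := isSquare_of_charTwo' (Ideal.Quotient.mk (und k w).asIdeal a)
    obtain ⟨y, rfl⟩ := Ideal.Quotient.mk_surjective y
    rw [← map_mul, eq_comm, Ideal.Quotient.eq,
      ← HeightOneSpectrum.valuation_lt_one_iff_mem (K := k)] at hy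
    refine ⟨algebraMap (𝓞 k) k y, (lt_iff w _).2 ?_⟩
    have e : algebraMap (𝓞 k) k y ^ 2 - x =
        algebraMap (𝓞 k) k (y * y - a) + (algebraMap (𝓞 k) k a - x) := by
      rw [map_sub, map_mul]; ring
    rw [e]
    exact Valuation.map_add_lt _ hy ha
  · obtain ⟨b', hb'⟩ := approx w hb
    obtain ⟨c', hc'⟩ := approx w hc
    let _ := Ideal.Quotient.field (und k w).asIdeal
    let _ := Ideal.Quotient.field w.asIdeal
    let f : 𝓞 k ⧸ (und k w).asIdeal →+* 𝓞 F ⧸ w.asIdeal :=
      Ideal.quotientMap w.asIdeal (algebraMap (𝓞 k) (𝓞 F)) le_rfl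
    obtain ⟨z, hz⟩ := root f hg (by rw [hm.natDegree_map, h2])
      (α := Ideal.Quotient.mk w.asIdeal α) (by
        rw [eval₂_map, Ideal.quotientMap_comp_mk, ← hom_eval₂, ← aeval_def, hα, map_zero])
      (Ideal.Quotient.mk _ b') (Ideal.Quotient.mk _ c')
    obtain ⟨z, rfl⟩ := Ideal.Quotient.mk_surjective z
    rw [Ideal.quotientMap_mk, Ideal.quotientMap_mk, ← map_pow, ← map_mul, ← map_add, ← map_add,
      Ideal.Quotient.eq_zero_iff_mem, ← HeightOneSpectrum.valuation_lt_one_iff_mem (K := F)] at hz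
    refine ⟨algebraMap (𝓞 F) F z, ?_⟩
    have t : ∀ a : 𝓞 k, algebraMap (𝓞 F) F (algebraMap (𝓞 k) (𝓞 F) a) =
        algebraMap k F (algebraMap (𝓞 k) k a) := fun a => by
      rw [← IsScalarTower.algebraMap_apply, ← IsScalarTower.algebraMap_apply]
    have e : algebraMap (𝓞 F) F z ^ 2 + algebraMap k F b * algebraMap (𝓞 F) F z +
        algebraMap k F c = algebraMap (𝓞 F) F (z ^ 2 + algebraMap (𝓞 k) (𝓞 F) b' * z +
          algebraMap (𝓞 k) (𝓞 F) c') - algebraMap k F (algebraMap (𝓞 k) k b' - b) *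
          algebraMap (𝓞 F) F z - algebraMap k F (algebraMap (𝓞 k) k c' - c) := by
      rw [map_add, map_add, map_mul, map_pow, t, t, map_sub, map_sub]; ring
    rw [e]
    refine Valuation.map_sub_lt _ (Valuation.map_sub_lt _ hz ?_) ((lt_iff w _).2 hc')
    rw [map_mul]
    exact mul_lt_one_of_nonneg_of_lt_one_left zero_le ((lt_iff w _).2 hb') (w.valuation_le_one z)

end Pool.Agent.MP_db5b97_nt.H67
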