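import Pool.Agent.MP_db5b97_nt.H67.Spec

/-! The symplectic part of the kernel. -/

namespace Pool.Agent.MP_db5b97_nt.H67

open H85 H30 Module

namespace RSYM1X

variable {E W : Type} [Group E] [AddCommGroup W] [Module Om W] [DistribMulAction E W]
  {π : E →* Ga}

/-- the elements of the kernel that are central in the symplectic part -/
def cen (h : SL W π) : Subgroup E where
  carrier := {g | π g = 1 ∧ ∃ T, PB h T ∧ (∀ w, T w = g • w) ∧ ∀ T', PB h T' → T * T' = T' * T}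
  one_mem' := ⟨map_one π, 1, PB.one h, by simp, by simp⟩
  mul_mem' := by
    rintro g u ⟨g1, T, g2, g3, g4⟩ ⟨u1, S, u2, u3, u4⟩
    exact ⟨by rw [map_mul, g1, u1, mul_one], T * S, g2.mul u2,
      fun w => by rw [End.mul_apply, u3, g3, mul_smul],
      fun T' t => by rw [mul_assoc, u4 T' t, ← mul_assoc, g4 T' t, mul_assoc]⟩
  inv_mem' := by
    rintro g ⟨g1, T, g2, g3, g4⟩
    obtain ⟨a, a0, ha⟩ := g2.1
    refine ⟨by rw [map_inv, g1, inv_one], a⁻¹ • T, g2.smul (inv_ne_zero a0), fun w => ?_,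
      fun T' t => by rw [smul_mul_assoc, g4 T' t, mul_smul_comm]⟩
    rw [eq_inv_smul_iff, ← g3, LinearMap.smul_apply, map_smul, ← End.mul_apply, ha]
    simp [a0]

theorem cen_normal (h : SL W π) : (cen h).Normal := ⟨by
  rintro g ⟨g1, T, g2, g3, g4⟩ e
  refine ⟨by simp [g1], cj h e T, g2.cj e, fun w => by rw [cj_apply, g3, mul_smul, mul_smul],
    fun T' t => ?_⟩
  have := congrArg (cj h e) (g4 _ (t.cj e⁻¹))
  rwa [cj_comp, cj_comp, ← cj_mul, mul_inv_cancel, cj_one] at this⟩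

theorem pow_cj (h : SL W π) {x u : E} (hx : π x = 1) (hu : π u = 1)
    (k : Sc W (x * u⁻¹ * x⁻¹ * u⁻¹⁻¹)) (n : ℕ) :
    ∃ a : Om, ∀ w : W, u • x ^ n • u⁻¹ • w = a • x ^ n • w := by
  obtain ⟨a, ha⟩ := k
  induction n with
  | zero => exact ⟨1, by simp⟩
  | succ n ih =>
    obtain ⟨b, hb⟩ := ih
    refine ⟨b * a, fun w => ?_⟩
    have := ha (u⁻¹ • x • w)
    simp only [mul_smul, inv_inv, smul_inv_smul, inv_smul_smul] at this
    rw [pow_succ, mul_smul, this, SL.ker h (by rw [map_pow, hx, one_pow]), SL.ker h hu, hb,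
      mul_smul, mul_smul, smul_comm a b]

end RSYM1X

open RSYM1X in
theorem rowSYM1 : RowSYM1 := by
  intro E W _ _ _ _ _ π E0 c hp hc hA
  have := c.fin
  refine ⟨?_, fun T t hT => by_contra fun hn => ?_⟩
  · obtain ⟨g, g1, u, u1, g2, -, w, -, hw⟩ : NA π.ker 2 (⊤ : Submodule Om W) :=
      by_contra fun hn => hc fun g u hg hu w => by
        rw [← mul_smul, comm_of_not_na c.nil c.faith (fun p h => by
          by_cases e : p = 2
          exacts [e ▸ hn, hp p h e]) g hg u hu, mul_smul]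
    have s1 : Sc W (1 : E) := ⟨1, by simp⟩
    obtain ⟨x, x1, ⟨k, hk⟩, x3, x4⟩ := c.nil.desc (Sc W) 2 Nat.prime_two s1 g g1 g2
      fun ⟨a, ha⟩ => hw (by rw [ha, ha, SL.ker c.sl u1])
    have ex : ∃ j, ¬ Sc W (x ^ 2 ^ j) ∧ Sc W (x ^ 2 ^ (j + 1)) := by
      by_contra! hn
      have : ∀ j, ¬ Sc W (x ^ 2 ^ j) := fun j => by
        induction j with
        | zero => simpa using x3
        | succ j ih => exact hn j ih
      exact this k (hk ▸ s1)
    obtain ⟨j, j1, a, ha⟩ := ex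
    have hL : Lin W π.ker := fun g hg => SL.ker c.sl hg
    have y1 := π.ker.pow_mem x1 (2 ^ j)
    rw [pow_succ, pow_mul, pow_two] at ha
    refine ⟨lin hL y1, ⟨⟨a, fun a0 => j1 ⟨0, fun w => ?_⟩, LinearMap.ext fun w => ?_⟩,
      ⟨_, 1, y1, one_ne_zero, by simp⟩, fun v hv => (pow_cj c.sl x1 hv
        (x4 _ (π.ker.inv_mem hv)) (2 ^ j)).imp fun b hb => LinearMap.ext hb⟩,
      fun b hb => j1 ⟨b, LinearMap.congr_fun hb⟩⟩
    · have := ha w
      rwa [a0, zero_smul, mul_smul, smul_eq_zero_iff_eq, ← zero_smul Om w] at this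
    · exact (mul_smul _ _ w).symm.trans (ha w)
  · obtain ⟨g, a, g1, a0, hg⟩ := t.2.1
    obtain ⟨b, hb⟩ := hA _ (cen_normal c.sl) (fun g h => h.1) (by
      rintro g ⟨g1, T, -, g3, g4⟩ u ⟨u1, S, u2, u3, -⟩
      refine mul_inv_eq_one.1 (c.faith _ (by simp [g1, u1]) fun w => ?_)
      rw [mul_smul, mul_smul, ← u3, ← g3, ← End.mul_apply, g4 S u2, End.mul_apply, g3, u3,
        ← mul_smul, smul_inv_smul]) g ⟨g1, a⁻¹ • T, t.smul (inv_ne_zero a0),
      fun w => by simp [hg, a0], fun T' t' => by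
        rw [smul_mul_assoc, (t.pm t').resolve_right fun e => hn ⟨T', t', e⟩, mul_smul_comm]⟩
    exact hT (a * b) (LinearMap.ext fun w => by simp [hg, hb, mul_smul])

end Pool.Agent.MP_db5b97_nt.H67
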