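import Pool.Agent.MP_db5b97_nt.H67.Spec

/-! Symplectic bases in small dimension. -/

namespace Pool.Agent.MP_db5b97_nt.H67

open H85 H30 Module

namespace RSYM2X

section Alg

variable {R : Type} [Ring R] [Algebra Om R]

/-- an anticommuting pair with squares `-1` -/
def Pr (I J : R) : Prop := I * I = -1 ∧ J * J = -1 ∧ I * J = -(J * I)

/-- commutation up to a factor -/
def SC (s : ℤ) (X Y : R) : Prop := X * Y = s • (Y * X)

omit [Algebra Om R] in
theorem SC.mul {s t : ℤ} {X Y Z : R} (h : SC s X Z) (h' : SC t Y Z) : SC (s * t) (X * Y) Z := by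
  unfold SC at *
  rw [mul_assoc, h', mul_smul_comm, ← mul_assoc, h, smul_mul_assoc, smul_smul, mul_comm t s,
    mul_assoc]

omit [Algebra Om R] in
theorem sc_one {X Y : R} : SC 1 X Y ↔ Commute X Y := by rw [SC, one_smul]; rfl

omit [Algebra Om R] in
theorem sc_neg {X Y : R} : SC (-1) X Y ↔ X * Y = -(Y * X) := by rw [SC, neg_smul, one_smul]

/-- the closure properties of a class of operators -/
structure Cl (P : R → Prop) : Prop where
  one : P 1
  mul : ∀ T T', P T → P T' → P (T * T')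
  smul : ∀ T (a : Om), P T → a ≠ 0 → P (a • T)
  sq : ∀ T, P T → ∃ a : Om, a ≠ 0 ∧ T * T = a • (1 : R)
  pm : ∀ T T', P T → P T' → T * T' = T' * T ∨ T * T' = -(T' * T)
  nd : ∀ T, P T → (∀ a : Om, T ≠ a • (1 : R)) → ∃ T', P T' ∧ T * T' = -(T' * T)

variable {P : R → Prop}

theorem Cl.norm (h : Cl P) {T : R} (t : P T) : ∃ c : Om, c ≠ 0 ∧ c • T * c • T = -1 := by
  obtain ⟨a, ha, e⟩ := h.sq T t
  obtain ⟨c, hc⟩ := IsAlgClosed.exists_pow_nat_eq (-a⁻¹) two_pos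
  refine ⟨c, ?_, ?_⟩
  · rintro rfl
    simp [ha] at hc
  · rw [smul_mul_smul_comm, e, smul_smul, ← pow_two, hc, neg_mul, inv_mul_cancel₀ ha, neg_smul,
      one_smul]

theorem Cl.pair (h : Cl P) (hn : ∃ T, P T ∧ ∀ a : Om, T ≠ a • (1 : R)) :
    ∃ I J, P I ∧ P J ∧ Pr I J := by
  obtain ⟨T, t, hT⟩ := hn
  obtain ⟨T', t', e⟩ := h.nd T t hT
  obtain ⟨c, hc, k⟩ := h.norm t
  obtain ⟨c', hc', k'⟩ := h.norm t'
  refine ⟨_, _, h.smul T c t hc, h.smul T' c' t' hc', k, k', ?_⟩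
  rw [smul_mul_smul_comm, smul_mul_smul_comm, e, smul_neg, mul_comm c c']

theorem Cl.adj (h : Cl P) {I J T : R} (i : P I) (j : P J) (p : Pr I J) (t : P T) :
    ∃ (a : Om) (A : R), A ∈ ({1, I, J, I * J} : Set R) ∧ P A ∧ Commute (T * A) I ∧
      Commute (T * A) J ∧ a • (A * A) = 1 ∧ ∀ X, Commute X I → Commute X J → Commute X A := by
  obtain ⟨p1, p2, p3⟩ := p
  have ii : SC 1 I I := sc_one.2 (Commute.refl I)
  have jj : SC 1 J J := sc_one.2 (Commute.refl J)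
  have ij : SC (-1) I J := sc_neg.2 p3
  have ji : SC (-1) J I := sc_neg.2 (by rw [p3, neg_neg])
  rcases h.pm T I t i with a | a <;> rcases h.pm T J t j with b | b
  · exact ⟨1, 1, by simp, h.one, by rwa [mul_one], by rwa [mul_one], by simp,
      fun X _ _ => Commute.one_right X⟩
  · exact ⟨-1, I, by simp, i, sc_one.1 ((sc_one.2 a).mul ii), sc_one.1 ((sc_neg.2 b).mul ij),
      by simp [p1], fun X x _ => x⟩
  · exact ⟨-1, J, by simp, j, sc_one.1 ((sc_neg.2 a).mul ji), sc_one.1 ((sc_one.2 b).mul jj),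
      by simp [p2], fun X _ x => x⟩
  · refine ⟨-1, I * J, by simp, h.mul _ _ i j, sc_one.1 ((sc_neg.2 a).mul (ii.mul ji)),
      sc_one.1 ((sc_neg.2 b).mul (ij.mul jj)), ?_, fun X x y => x.mul_right y⟩
    rw [mul_assoc, ← mul_assoc J, sc_neg.1 ji, neg_mul, mul_assoc I J J, p2]
    simp [p1]

theorem Cl.step (h : Cl P) {I J : R} (i : P I) (j : P J) (p : Pr I J) :
    Cl (fun T => P T ∧ Commute T I ∧ Commute T J) ∧ ∀ T, P T → ∃ (a : Om) (A S : R),
      A ∈ ({1, I, J, I * J} : Set R) ∧ (P S ∧ Commute S I ∧ Commute S J) ∧ T = a • (A * S) := by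
  refine ⟨⟨⟨h.one, Commute.one_left _, Commute.one_left _⟩,
    fun T T' t t' => ⟨h.mul _ _ t.1 t'.1, t.2.1.mul_left t'.2.1, t.2.2.mul_left t'.2.2⟩,
    fun T a t ha => ⟨h.smul T a t.1 ha, t.2.1.smul_left a, t.2.2.smul_left a⟩,
    fun T t => h.sq T t.1, fun T T' t t' => h.pm T T' t.1 t'.1, fun T t hT => ?_⟩, fun T t => ?_⟩
  · obtain ⟨T', t', e⟩ := h.nd T t.1 hT
    obtain ⟨-, A, -, a1, a2, a3, -, a4⟩ := h.adj i j p t'
    refine ⟨T' * A, ⟨h.mul _ _ t' a1, a2, a3⟩, ?_⟩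
    rw [← mul_assoc, e, neg_mul, mul_assoc, (a4 T t.2.1 t.2.2).eq, mul_assoc]
  · obtain ⟨a, A, a0, a1, a2, a3, a4, a5⟩ := h.adj i j p t
    refine ⟨a, A, T * A, a0, ⟨h.mul _ _ t a1, a2, a3⟩, ?_⟩
    rw [← (a5 _ a2 a3).eq, mul_assoc, ← mul_smul_comm, a4, mul_one]

end Alg

variable {W : Type} [AddCommGroup W] [Module Om W] [FiniteDimensional Om W]

theorem half {I J : End Om W} (p : Pr I J) {V : Submodule Om W} (hI : ∀ w ∈ V, I w ∈ V)
    (hJ : ∀ w ∈ V, J w ∈ V) (hV : V ≠ ⊥) : ∃ V' : Submodule Om W, V' ≠ ⊥ ∧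
      2 * finrank Om V' ≤ finrank Om V ∧
      ∀ X : End Om W, Commute X I → (∀ w ∈ V, X w ∈ V) → ∀ w ∈ V', X w ∈ V' := by
  obtain ⟨i, hi⟩ := IsAlgClosed.exists_pow_nat_eq (-1 : Om) two_pos
  have i0 : i ≠ 0 := by
    rintro rfl
    simp at hi
  have p1 : ∀ w, I (I w) = -w := fun w => LinearMap.congr_fun p.1 w
  have p2 : ∀ w, J (J w) = -w := fun w => LinearMap.congr_fun p.2.1 w
  have p3 : ∀ w, I (J w) = -J (I w) := fun w => LinearMap.congr_fun p.2.2 w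
  have j0 : ∀ w, J w = 0 → w = 0 := fun w h => by
    have := p2 w
    rw [h, map_zero] at this
    exact neg_eq_zero.1 this.symm
  refine ⟨V ⊓ I.eigenspace i, ?_, ?_, fun X x hX w hw => ⟨hX w hw.1, ?_⟩⟩
  · obtain ⟨w, hw, w0⟩ := (Submodule.ne_bot_iff V).1 hV
    rw [Submodule.ne_bot_iff]
    by_cases u : w - i • I w = 0
    · have e : I w = -(i • w) := by
        conv_lhs => rw [sub_eq_zero.1 u, map_smul, p1, smul_neg]
      refine ⟨J w, ⟨hJ w hw, End.mem_eigenspace_iff.2 ?_⟩, fun h => w0 (j0 w h)⟩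
      rw [p3, e, map_neg, neg_neg, map_smul]
    · refine ⟨_, ⟨V.sub_mem hw (V.smul_mem i (hI w hw)), End.mem_eigenspace_iff.2 ?_⟩, u⟩
      rw [map_sub, map_smul, p1, smul_sub, smul_smul, ← pow_two, hi]
      module
  · let f : (↥(V ⊓ I.eigenspace i) × ↥(V ⊓ I.eigenspace i)) →ₗ[Om] V :=
      ((V ⊓ I.eigenspace i).subtype.coprod (J ∘ₗ (V ⊓ I.eigenspace i).subtype)).codRestrict V
        fun x => V.add_mem x.1.2.1 (hJ _ x.2.2.1)
    have hf : Function.Injective f := (injective_iff_map_eq_zero f).2 fun x hx => by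
      have e : (x.1 : W) + J x.2 = 0 := congrArg Subtype.val hx
      have e2 := congrArg I e
      rw [map_add, p3, End.mem_eigenspace_iff.1 x.1.2.2, End.mem_eigenspace_iff.1 x.2.2.2,
        map_smul, map_zero] at e2
      have e3 : (2 * i) • (x.1 : W) = 0 := by linear_combination (norm := module) e2 + i • e
      have e4 : (x.1 : W) = 0 := (smul_eq_zero.1 e3).resolve_left (mul_ne_zero two_ne_zero i0)
      rw [e4, zero_add] at e
      exact Prod.ext (Subtype.ext e4) (Subtype.ext (j0 _ e))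
    have := f.finrank_le_finrank_of_injective hf
    rwa [finrank_prod, ← two_mul] at this
  · refine End.mem_eigenspace_iff.2 ((LinearMap.congr_fun x.eq w).symm.trans ?_)
    rw [End.mul_apply, End.mem_eigenspace_iff.1 hw.2, map_smul]

end RSYM2X

open RSYM2X in
theorem rowSYM2 : RowSYM2 := by
  intro W _ _ _ _ P hd h1 h2 h3 h4 h5 h6 h7
  have c0 : Cl P := ⟨h1, h2, h3, h4, h5, h7⟩
  obtain ⟨I, J, i, j, p⟩ := c0.pair h6
  obtain ⟨c1, d1⟩ := c0.step i j p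
  refine ⟨I, J, i, j, p.1, p.2.1, p.2.2, ?_⟩
  by_cases n1 : ∃ T, (P T ∧ Commute T I ∧ Commute T J) ∧ ∀ a : Om, T ≠ a • (1 : End Om W)
  · obtain ⟨I', J', i', j', p'⟩ := c1.pair n1
    obtain ⟨c2, d2⟩ := c1.step i' j' p'
    refine Or.inr ⟨I', J', i'.1, j'.1, p'.1, p'.2.1, p'.2.2, i'.2.1.symm.eq, j'.2.1.symm.eq,
      i'.2.2.symm.eq, j'.2.2.symm.eq, fun T t => ?_⟩
    obtain ⟨a, A, S, a0, s, rfl⟩ := d1 T t
    obtain ⟨b, B, S', b0, s', rfl⟩ := d2 S s
    by_cases n2 : ∀ a : Om, S' ≠ a • (1 : End Om W)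
    · obtain ⟨I'', J'', i'', j'', p''⟩ := c2.pair ⟨S', s', n2⟩
      obtain ⟨V1, v1, e1, k1⟩ := half p (V := ⊤) (fun _ _ => trivial) (fun _ _ => trivial)
        top_ne_bot
      obtain ⟨V2, v2, e2, k2⟩ := half p' (k1 I' i'.2.1 fun _ _ => trivial)
        (k1 J' j'.2.1 fun _ _ => trivial) v1
      obtain ⟨V3, v3, e3, -⟩ := half p'' (k2 I'' i''.2.1 (k1 I'' i''.1.2.1 fun _ _ => trivial))
        (k2 J'' j''.2.1 (k1 J'' j''.1.2.1 fun _ _ => trivial)) v2
      have := Submodule.finrank_eq_zero.not.2 v3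
      rw [finrank_top] at e1
      omega
    · push Not at n2
      obtain ⟨c, rfl⟩ := n2
      exact ⟨a * (b * c), A, B, a0, b0, by
        simp only [mul_smul_comm, mul_one, smul_smul]⟩
  · push Not at n1
    refine Or.inl fun T t => ?_
    obtain ⟨a, A, S, a0, s, rfl⟩ := d1 T t
    obtain ⟨c, rfl⟩ := n1 S s
    exact ⟨a * c, A, a0, by simp only [mul_smul_comm, mul_one, smul_smul]⟩

end Pool.Agent.MP_db5b97_nt.H67
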