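import Pool.Agent.MP_db5b97_nt.H67.Glue
import Pool.Agent.MP_db5b97_nt.H67.RH4
import Pool.Agent.MP_db5b97_nt.H67.RSYM2
import Pool.Agent.MP_db5b97_nt.H67.RDEC
import Pool.Agent.MP_db5b97_nt.H67.RP22
import Pool.Agent.MP_db5b97_nt.H67.RLB
import Pool.Agent.MP_db5b97_nt.H67.RLA
import Pool.Agent.MP_db5b97_nt.H67.RQN
import Pool.Agent.MP_db5b97_nt.H67.RRQ
import Pool.Agent.MP_db5b97_nt.H67.RKP5
import Pool.Agent.MP_db5b97_nt.H67.RKP4
import Pool.Agent.MP_db5b97_nt.H67.RC2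
import Pool.Agent.MP_db5b97_nt.H67.RFROB
import Pool.Agent.MP_db5b97_nt.H67.RALT
import Pool.Agent.MP_db5b97_nt.H67.RH4b
import Pool.Agent.MP_db5b97_nt.H67.RSYM1
import Pool.Agent.MP_db5b97_nt.H67.RQG
import Pool.Agent.MP_db5b97_nt.H67.REIG
import Pool.Agent.MP_db5b97_nt.H67.RFR
import Pool.Agent.MP_db5b97_nt.H67.RLAB
import Pool.Agent.MP_db5b97_nt.H67.RH2
import Pool.Agent.MP_db5b97_nt.H67.RH4a
import Pool.Agent.MP_db5b97_nt.H67.RH4s
import Pool.Agent.MP_db5b97_nt.H67.RMU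
import Pool.Agent.MP_db5b97_nt.H67.RC2G
import Pool.Agent.MP_db5b97_nt.H67.RPT
import Pool.Agent.MP_db5b97_nt.H67.RKP3
import Pool.Agent.MP_db5b97_nt.H67.RGD
import Pool.Agent.MP_db5b97_nt.H67.RLOC
import Pool.Agent.MP_db5b97_nt.H67.RPROD
import Pool.Agent.MP_db5b97_nt.H67.RCOM

/-! Small dimensions: all pieces together. -/

namespace Pool.Agent.MP_db5b97_nt.H67

theorem allSTR : RowSTR :=
  rowSTR rowEIG rowDEC rowSYM1 rowSYM2 rowH4a rowH2 (rowH4 rowH4b rowH4s rowMU rowLAB)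

theorem allQN : RowQN := rowQN rowRQ rowGD (rowLOC rowLA rowLB)

theorem allP22 : RowP22 := rowP22 (rowC2G rowC2) (rowQG allQN)

theorem allKP (n : ℕ) (hn : n ≤ 5) : KP n := by
  rcases (by omega : n ≤ 3 ∨ n = 4 ∨ n = 5) with h | rfl | rfl
  exacts [kp3 rowFROB n h, kp4 rowFROB, kp5 rowFROB rowALT]

theorem allBB : ∀ n ≤ 5, BB n (bv n) :=
  bb_all allSTR rowPROD (rowCOM allSTR) rowFR allP22 rowPT allKP

theorem sup_order {n b : ℕ} (h1 : ∀ σ : Equiv.Perm (Fin n), ∃ k ∈ Finset.range b, σ ^ (k + 1) = 1)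
    (σ : Equiv.Perm (Fin n)) (h2 : σ ^ b = 1) (h3 : ∀ k ∈ Finset.range b, 0 < k → σ ^ k ≠ 1)
    (hb : 0 < b) : ⨆ σ : Equiv.Perm (Fin n), (orderOf σ : ℕ∞) = b := by
  refine le_antisymm (iSup_le fun τ => ?_) (le_iSup_of_le σ ?_)
  · obtain ⟨k, hk, e⟩ := h1 τ
    exact_mod_cast (orderOf_le_of_pow_eq_one k.succ_pos e).trans (Finset.mem_range.1 hk)
  · rw [(orderOf_eq_iff hb).2 ⟨h2, fun m hm h0 => h3 m (Finset.mem_range.2 hm) h0⟩]

theorem landau {N : ℕ} (h1 : 1 ≤ N) (h4 : N ≤ 4) :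
    ⨆ σ : Equiv.Perm (Fin (N + 1)), (orderOf σ : ℕ∞) = (bv (N + 1) : ℕ) := by
  interval_cases N
  · exact sup_order (b := 2) (by decide) (Equiv.swap 0 1) (by decide) (by decide) (by decide)
  · exact sup_order (b := 3) (by decide) (finRotate 3) (by decide) (by decide) (by decide)
  · exact sup_order (b := 4) (by decide +kernel) (finRotate 4) (by decide) (by decide) (by decide)
  · exact sup_order (b := 6) (by decide +kernel) (Equiv.swap 0 1 * Equiv.swap 2 3 * Equiv.swap 3 4)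
      (by decide) (by decide) (by decide)

end Pool.Agent.MP_db5b97_nt.H67
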