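import Pool.Agent.MP_db5b97_nt.H31.SpecA
import Pool.Agent.MP_db5b97_nt.H85.PI
import Pool.Agent.MP_db5b97_nt.H21.NT2

/-! Small dimensions: standing hypotheses and basic constructions. -/

namespace Pool.Agent.MP_db5b97_nt.H67

open H85 H30 Module

section Defs

variable {E W : Type} [Group E] [AddCommGroup W] [Module Om W] [DistribMulAction E W]
  {π : E →* Ga} {E0 U : Subgroup E}

variable (W π E0) in
/-- the standing hypotheses -/
structure Cx : Prop where
  sl : SL W π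
  op : IsOpen ((E0.map π : Subgroup Ga) : Set Ga)
  st : ∀ w : W, Opn π E0 (MulAction.stabilizer E w)
  fin : Finite π.ker

variable (π E0) in
/-- no proper open subgroup has the same image -/
def Mn : Prop :=
  ∀ U : Subgroup E, Opn π E0 U → (∀ e, ∃ g, π g = 1 ∧ g * e ∈ U) → ∀ g, π g = 1 → g ∈ U

variable (W π E0) in
/-- the standing hypotheses for a faithful minimal group -/
structure Cm : Prop extends Cx W π E0 where
  faith : ∀ g, π g = 1 → (∀ w : W, g • w = w) → g = 1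
  min : Mn π E0

variable (W π E0) in
/-- an open subgroup of index at most `b` on which the kernel acts trivially -/
def Goal (b : ℕ) : Prop :=
  ∃ U : Subgroup E, Opn π E0 U ∧ (∀ g ∈ U, π g = 1 → ∀ w : W, g • w = w) ∧
    (U.map π).relIndex π.range ≤ b

/-- the bound `b` in dimension `n` -/
def BB (n b : ℕ) : Prop :=
  ∀ (E W : Type) [Group E] [AddCommGroup W] [Module Om W] [FiniteDimensional Om W]
    [DistribMulAction E W] (π : E →* Ga) (E0 : Subgroup E), finrank Om W = n → Cx W π E0 →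
    Goal W π E0 b

variable (W π) in
/-- the kernel acts commutatively -/
def Com : Prop := ∀ g h, π g = 1 → π h = 1 → ∀ w : W, g • h • w = h • g • w

variable (W) in
/-- acts as a scalar -/
def Sc (g : E) : Prop := ∃ a : Om, ∀ w : W, g • w = a • w

variable (E) in
/-- stable subspaces -/
def Stb (V : Submodule Om W) : Prop := ∀ e : E, ∀ w ∈ V, e • w ∈ V

variable (E W) in
/-- no proper stable subspace -/
def Ir : Prop := ∀ V : Submodule Om W, Stb E V → V = ⊥ ∨ V = ⊤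

variable (E W) in
/-- a stable unordered pair of complementary planes -/
def Swp : Prop :=
  ∃ V V' : Submodule Om W, finrank Om V = 2 ∧ finrank Om V' = 2 ∧ IsCompl V V' ∧
    ∀ e : E, ((∀ w ∈ V, e • w ∈ V) ∧ ∀ w ∈ V', e • w ∈ V') ∨
      ((∀ w ∈ V, e • w ∈ V') ∧ ∀ w ∈ V', e • w ∈ V)

variable (π) in
/-- a permuted family of lines with labels -/
def Frame (X : Finset Om) (w : Om → W) : Prop :=
  X.card = finrank Om W ∧ LinearIndependent Om (fun x : X => w x) ∧
    Submodule.span Om (w '' X) = ⊤ ∧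
    ∀ e : E, ∀ x ∈ X, π e x ∈ X ∧ ∃ u : Om, e • w x = u • w (π e x)

/-- the image of a subspace -/
def smap (h : SL W π) (e : E) (V : Submodule Om W) : Submodule Om W where
  carrier := {w | e⁻¹ • w ∈ V}
  add_mem' := fun {x y} hx hy => by
    show e⁻¹ • (x + y) ∈ V
    rw [smul_add]
    exact V.add_mem hx hy
  zero_mem' := by simp
  smul_mem' := fun a w hw => by
    show e⁻¹ • a • w ∈ V
    rw [h]
    exact V.smul_mem _ hw

theorem mem_smap (h : SL W π) {e : E} {V : Submodule Om W} {w : W} :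
    w ∈ smap h e V ↔ e⁻¹ • w ∈ V := Iff.rfl

theorem smul_mem_smap (h : SL W π) {e : E} {V : Submodule Om W} {w : W} :
    e • w ∈ smap h e V ↔ w ∈ V := by rw [mem_smap, inv_smul_smul]

/-- the action on subspaces -/
@[reducible] def smapAct (h : SL W π) : MulAction E (Submodule Om W) where
  smul := smap h
  one_smul V := by
    ext w
    show (1 : E)⁻¹ • w ∈ V ↔ _
    simp
  mul_smul e f V := by
    ext w
    show (e * f)⁻¹ • w ∈ V ↔ f⁻¹ • e⁻¹ • w ∈ V
    rw [mul_inv_rev, mul_smul]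

theorem smap_mul (h : SL W π) (e f : E) (V : Submodule Om W) :
    smap h (e * f) V = smap h e (smap h f V) := (smapAct h).mul_smul e f V

theorem smap_one (h : SL W π) (V : Submodule Om W) : smap h 1 V = V := (smapAct h).one_smul V

theorem finrank_smap (h : SL W π) (e : E) (V : Submodule Om W) :
    finrank Om (smap h e V) = finrank Om V := by
  let f : V ≃+ smap h e V :=
    { toFun := fun w => ⟨e • w, (smul_mem_smap h).2 w.2⟩
      invFun := fun w => ⟨e⁻¹ • w, w.2⟩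
      left_inv := fun w => Subtype.ext (inv_smul_smul e _)
      right_inv := fun w => Subtype.ext (smul_inv_smul e _)
      map_add' := fun x y => Subtype.ext (smul_add e _ _) }
  exact (congrArg Cardinal.toNat (rank_eq_of_equiv_equiv (π e) f (π e).bijective
    fun a w => Subtype.ext (h e a w))).symm

variable (π) in
/-- a permuted decomposition -/
def Fam (h : SL W π) (Y : Set (Submodule Om W)) : Prop :=
  Y.Finite ∧ ⊥ ∉ Y ∧ ⊤ ∉ Y ∧ sSupIndep Y ∧ sSup Y = ⊤ ∧ ∀ e : E, ∀ V ∈ Y, smap h e V ∈ Y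

theorem cj_comp (h : SL W π) (e : E) (φ ψ : End Om W) :
    cj h e (φ * ψ) = (cj h e φ : End Om W) * cj h e ψ := by
  ext w
  simp [cj_apply]

theorem cj_id (h : SL W π) (e : E) : cj h e (1 : End Om W) = (1 : End Om W) := by
  ext w
  simp [cj_apply]

theorem cj_neg (h : SL W π) (e : E) (φ : End Om W) : cj h e (-φ) = -cj h e φ := by
  ext w
  simp [cj_apply]

theorem cj_inj (h : SL W π) (e : E) : Function.Injective (cj h e) := fun φ ψ k => by
  rw [← cj_one h φ, ← cj_one h ψ, ← inv_mul_cancel e, cj_mul, cj_mul, k]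

/-- conjugation by an element of the kernel -/
theorem cj_ker (h : SL W π) {g : E} {T : End Om W} {a : Om} (hT : ∀ w, T w = a • g • w)
    (φ : End Om W) : (cj h g φ : End Om W) * T = T * φ := by
  ext w
  simp only [End.mul_apply, hT, map_smul, cj_apply, inv_smul_smul]

/-- multiples of elements of the kernel whose square and commutators are scalars -/
def PB (h : SL W π) (T : End Om W) : Prop :=
  (∃ a : Om, a ≠ 0 ∧ T * T = a • (1 : End Om W)) ∧
    (∃ (g : E) (a : Om), π g = 1 ∧ a ≠ 0 ∧ ∀ w, T w = a • g • w) ∧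
    ∀ g : E, π g = 1 → ∃ a : Om, cj h g T = a • T

theorem SL.ker (h : SL W π) {g : E} (hg : π g = 1) (a : Om) (w : W) : g • a • w = a • g • w := by
  rw [h, hg]
  rfl

theorem PB.one (h : SL W π) : PB h 1 :=
  ⟨⟨1, one_ne_zero, by simp⟩, ⟨1, 1, map_one π, one_ne_zero, by simp⟩,
    fun g _ => ⟨1, by rw [cj_id, one_smul]⟩⟩

theorem PB.smul {h : SL W π} {T : End Om W} (t : PB h T) {c : Om} (hc : c ≠ 0) : PB h (c • T) := by
  obtain ⟨⟨a, h1, h2⟩, ⟨g, b, h3, h4, h5⟩, h6⟩ := t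
  refine ⟨⟨c * c * a, by simp [hc, h1], ?_⟩, ⟨g, c * b, h3, by simp [hc, h4], fun w => ?_⟩,
    fun u hu => (h6 u hu).imp fun d hd => ?_⟩
  · rw [smul_mul_smul_comm, h2, smul_smul]
  · rw [LinearMap.smul_apply, h5, smul_smul]
  · rw [cj_smul, hd, hu, AlgEquiv.one_apply, smul_comm]

theorem PB.pm {h : SL W π} {T T' : End Om W} (t : PB h T) (t' : PB h T') :
    T * T' = T' * T ∨ T * T' = -(T' * T) := by
  obtain ⟨-, ⟨g, b, h3, -, h5⟩, -⟩ := t
  obtain ⟨⟨a, h1, h2⟩, -, h6⟩ := t'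
  obtain ⟨d, hd⟩ := h6 g h3
  have e1 := cj_ker h h5 T'
  have e2 := congrArg (cj h g) h2
  rw [cj_comp, hd, cj_smul, cj_id, h3, AlgEquiv.one_apply, smul_mul_smul_comm, h2, smul_smul] at e2
  rw [hd, smul_mul_assoc] at e1
  by_cases h0 : (1 : End Om W) = 0
  · have := subsingleton_of_zero_eq_one h0.symm
    exact Or.inl (Subsingleton.elim _ _)
  have e3 : d * d = 1 := mul_right_cancel₀ h1 (by
    rw [one_mul]
    exact smul_left_injective Om h0 e2)
  rcases mul_self_eq_one_iff.1 e3 with rfl | rfl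
  · exact Or.inl (by rw [← e1, one_smul])
  · exact Or.inr (by rw [← e1, neg_smul, one_smul])

theorem PB.mul {h : SL W π} {T T' : End Om W} (t : PB h T) (t' : PB h T') : PB h (T * T') := by
  have hp := t'.pm t
  obtain ⟨⟨a, h1, h2⟩, ⟨g, b, h3, h4, h5⟩, h6⟩ := t
  obtain ⟨⟨a', k1, k2⟩, ⟨g', b', k3, k4, k5⟩, k6⟩ := t'
  have e : T * (T * T') * T' = (a * a') • (1 : End Om W) := by
    rw [← mul_assoc, mul_assoc, h2, k2, smul_mul_smul_comm, one_mul]
  refine ⟨?_, ⟨g * g', b * b', by rw [map_mul, h3, k3, mul_one], by simp [h4, k4], fun w => ?_⟩,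
    fun u hu => ?_⟩
  · rcases hp with hp | hp
    · exact ⟨a * a', by simp [h1, k1], by
        rw [← e, mul_assoc T T', ← mul_assoc T', hp]
        simp only [mul_assoc]⟩
    · refine ⟨-(a * a'), by simp [h1, k1], ?_⟩
      rw [neg_smul, ← e, mul_assoc T T', ← mul_assoc T', hp]
      simp only [mul_assoc, neg_mul, mul_neg]
  · rw [End.mul_apply, k5, map_smul, h5, smul_smul, mul_smul g, mul_comm]
  · obtain ⟨d, hd⟩ := h6 u hu
    obtain ⟨d', hd'⟩ := k6 u hu
    exact ⟨d * d', by rw [cj_comp, hd, hd', smul_mul_smul_comm]⟩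

theorem PB.cj {h : SL W π} {T : End Om W} (t : PB h T) (e : E) : PB h (cj h e T) := by
  obtain ⟨⟨a, h1, h2⟩, ⟨g, b, h3, h4, h5⟩, h6⟩ := t
  refine ⟨⟨π e a, by simp [h1], ?_⟩, ⟨e * g * e⁻¹, π e b, by simp [h3], by simp [h4], fun w => ?_⟩,
    fun u hu => ?_⟩
  · rw [← cj_comp, h2, cj_smul, cj_id]
  · rw [cj_apply, h5, h, mul_smul, mul_smul]
  · obtain ⟨d, hd⟩ := h6 (e⁻¹ * u * e) (by simp [hu])
    refine ⟨π e d, ?_⟩
    rw [← cj_mul, show u * e = e * (e⁻¹ * u * e) by group, cj_mul, hd, cj_smul]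

/-- a system of fifteen square roots of minus one -/
structure Hs {R : Type} [Ring R] (h : Fin 6 → Fin 6 → R) : Prop where
  mul : ∀ i j k, h i j * h j k = h i k
  one : ∀ i, h i i = 1
  sq : ∀ i j, i ≠ j → h i j * h i j = -1

theorem Hs.symm {R : Type} [Ring R] {h : Fin 6 → Fin 6 → R} (t : Hs h) {i j : Fin 6} (hij : i ≠ j) :
    h j i = -h i j := by
  have := congrArg (· * h j i) (t.sq i j hij)
  simp only [mul_assoc, t.mul, t.one, mul_one, neg_mul, one_mul] at this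
  rw [this, neg_neg]

/-! ### Subgroups, subspaces, quotients -/

theorem opn_top : Opn π E0 ⊤ := ⟨⊤, isOpen_univ, fun _ _ _ => trivial⟩

theorem Cx.open_map (c : Cx W π E0) (hU : Opn π E0 U) :
    IsOpen ((U.map π : Subgroup Ga) : Set Ga) := by
  obtain ⟨H, q1, q2⟩ := hU
  refine Subgroup.isOpen_mono (H₁ := E0.map π ⊓ H) ?_ (c.op.inter q1)
  rintro _ ⟨⟨e, he, rfl⟩, hH⟩
  exact ⟨e, q2 e he hH, rfl⟩

theorem Cx.open_range (c : Cx W π E0) : IsOpen ((π.range : Subgroup Ga) : Set Ga) :=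
  Subgroup.isOpen_mono (Subgroup.map_le_range π E0) c.op

theorem range_res (U : Subgroup E) : (π.comp U.subtype).range = U.map π := by
  rw [← MonoidHom.map_range, Subgroup.range_subtype]

/-- restriction to an open subgroup -/
theorem Cx.res (c : Cx W π E0) (hU : Opn π E0 U) : Cx W (π.comp U.subtype) (E0.subgroupOf U) := by
  have := c.fin
  refine ⟨fun e => c.sl e, ?_, fun w => (c.st w).imp fun H h => ⟨h.1, fun e he hH => h.2 e he hH⟩,
    Finite.of_injective (fun g : (π.comp U.subtype).ker => (⟨g.1.1, g.2⟩ : π.ker))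
      fun a b h => Subtype.ext (Subtype.ext (Subtype.mk.inj h))⟩
  obtain ⟨H, q1, q2⟩ := hU
  refine Subgroup.isOpen_mono (H₁ := E0.map π ⊓ H) ?_ (c.op.inter q1)
  rintro _ ⟨⟨e, he, rfl⟩, hH⟩
  exact ⟨⟨e, q2 e he hH⟩, he, rfl⟩

theorem opn_map (hU : Opn π E0 U) {U' : Subgroup U}
    (h : Opn (π.comp U.subtype) (E0.subgroupOf U) U') : Opn π E0 (U'.map U.subtype) := by
  obtain ⟨H, q1, q2⟩ := hU
  obtain ⟨H', q3, q4⟩ := h
  exact ⟨H ⊓ H', q1.inter q3, fun e he hH => ⟨⟨e, q2 e he hH.1⟩, q4 _ he hH.2, rfl⟩⟩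

omit [Module Om W] in
theorem Goal.mono {b b' : ℕ} (h : Goal W π E0 b) (hb : b ≤ b') : Goal W π E0 b' :=
  h.imp fun _ h => ⟨h.1, h.2.1, h.2.2.trans hb⟩

omit [Module Om W] in
theorem Goal.res (hU : Opn π E0 U) {a b : ℕ} (ha : (U.map π).relIndex π.range ≤ a)
    (h : Goal W (π.comp U.subtype) (E0.subgroupOf U) b) : Goal W π E0 (a * b) := by
  obtain ⟨U', k1, k2, k3⟩ := h
  refine ⟨U'.map U.subtype, opn_map hU k1, ?_, ?_⟩
  · rintro _ ⟨g, hg, rfl⟩
    exact k2 g hg
  · rw [range_res, ← Subgroup.map_map] at k3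
    rw [← Subgroup.relIndex_mul_relIndex _ _ _ (Subgroup.map_mono (Subgroup.map_subtype_le _))
      (U.map_le_range π), mul_comm]
    exact Nat.mul_le_mul ha k3

/-- the action on a stable subspace -/
@[reducible] def subAct {V : Submodule Om W} (h : Stb E V) : DistribMulAction E V where
  smul e w := ⟨e • w, h e w w.2⟩
  one_smul w := Subtype.ext (one_smul E w.1)
  mul_smul e f w := Subtype.ext (mul_smul e f w.1)
  smul_zero e := Subtype.ext (smul_zero e)
  smul_add e x y := Subtype.ext (smul_add e x.1 y.1)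

theorem Cx.sub (c : Cx W π E0) {V : Submodule Om W} (h : Stb E V) :
    letI := subAct h; Cx V π E0 :=
  letI := subAct h
  ⟨fun e a w => Subtype.ext (c.sl e a w), c.op,
    fun w => (c.st w).imp fun _ k => ⟨k.1, fun e he hH => Subtype.ext (k.2 e he hH)⟩, c.fin⟩

/-- the action on the quotient by a stable subspace -/
@[reducible] noncomputable def quoAct {V : Submodule Om W} (h : Stb E V) : DistribMulAction E (W ⧸ V) where
  smul e := QuotientAddGroup.map V.toAddSubgroup V.toAddSubgroup (DistribSMul.toAddMonoidHom W e)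
    (h e)
  one_smul w := Quotient.inductionOn' w fun w => congrArg V.mkQ (one_smul E w)
  mul_smul e f w := Quotient.inductionOn' w fun w => congrArg V.mkQ (mul_smul e f w)
  smul_zero _ := map_zero _
  smul_add _ := map_add _

theorem quo_mk {V : Submodule Om W} (h : Stb E V) (e : E) (w : W) :
    (letI := quoAct h; e • V.mkQ w) = V.mkQ (e • w) := rfl

theorem Cx.quo (c : Cx W π E0) {V : Submodule Om W} (h : Stb E V) :
    letI := quoAct h; Cx (W ⧸ V) π E0 :=
  letI := quoAct h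
  ⟨fun e a w => Quotient.inductionOn' w fun w => congrArg V.mkQ (c.sl e a w), c.op,
    fun w => Quotient.inductionOn' w fun w =>
      (c.st w).imp fun _ k => ⟨k.1, fun e he hH => congrArg V.mkQ (k.2 e he hH)⟩, c.fin⟩

/-- a unipotent element of the kernel acts trivially -/
theorem Cx.uni (c : Cx W π E0) {V : Submodule Om W} {g : E} (hg : π g = 1)
    (h1 : ∀ w ∈ V, g • w = w) (h2 : ∀ w, g • w - w ∈ V) (w : W) : g • w = w := by
  have := c.fin
  have e : ∀ n : ℕ, g ^ n • w = w + (n : Om) • (g • w - w) := fun n => by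
    induction n with
    | zero => simp
    | succ n ih =>
      rw [pow_succ', mul_smul, ih, smul_add, h1 _ (V.smul_mem _ (h2 w)), Nat.cast_succ, add_smul,
        one_smul]
      abel
  have h3 := e (Nat.card π.ker)
  rw [show g ^ Nat.card π.ker = 1 from
    congrArg Subtype.val (pow_card_eq_one' (x := (⟨g, hg⟩ : π.ker))), one_smul, left_eq_add,
    smul_eq_zero, Nat.cast_eq_zero, sub_eq_zero] at h3
  exact h3.resolve_left Nat.card_pos.ne'

/-- the faithful image -/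
theorem Cx.img (c : Cx W π E0) : ∃ (E' : Type) (_ : Group E') (_ : DistribMulAction E' W)
    (π' : E' →* Ga) (φ : E →* E'), Function.Surjective φ ∧ (∀ e, π' (φ e) = π e) ∧
      (∀ e (w : W), φ e • w = e • w) ∧ Cx W π' (E0.map φ) ∧
      (∀ g, π' g = 1 → (∀ w : W, g • w = w) → g = 1) ∧ (Mn π E0 → Mn π' (E0.map φ)) := by
  have := c.fin
  let ρ : E →* Equiv.Perm W × Ga := (MulAction.toPermHom E W).prod π
  let φ := ρ.rangeRestrict
  have hφ : Function.Surjective φ := ρ.rangeRestrict_surjective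
  let A : DistribMulAction ρ.range W :=
    { smul := fun e w => e.1.1 w
      one_smul := fun _ => rfl
      mul_smul := fun _ _ _ => rfl
      smul_zero := fun e => by
        obtain ⟨e, rfl⟩ := hφ e
        exact smul_zero e
      smul_add := fun e => by
        obtain ⟨e, rfl⟩ := hφ e
        exact smul_add e }
  let π' : ρ.range →* Ga := (MonoidHom.snd _ _).comp ρ.range.subtype
  have ho : ∀ U : Subgroup ρ.range, Opn π E0 (U.comap φ) ↔ Opn π' (E0.map φ) U := fun U =>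
    exists_congr fun H => and_congr_right' ⟨by
      rintro h _ ⟨e, he, rfl⟩
      exact h e he, fun h e he => h _ ⟨e, he, rfl⟩⟩
  refine ⟨ρ.range, inferInstance, A, π', φ, hφ, fun _ => rfl, fun _ _ => rfl,
    ⟨fun e => ?_, ?_, fun w => (ho _).1 (c.st w), ?_⟩,
    fun g h1 h2 => Subtype.ext (Prod.ext (Equiv.ext h2) h1), fun m U hU h g hg => ?_⟩
  · obtain ⟨e, rfl⟩ := hφ e
    exact c.sl e
  · rw [Subgroup.map_map]
    exact c.op
  · refine Finite.of_surjective (fun g : π.ker => (⟨φ g, g.2⟩ : π'.ker)) ?_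
    rintro ⟨g, hg⟩
    obtain ⟨g, rfl⟩ := hφ g
    exact ⟨⟨g, hg⟩, rfl⟩
  · obtain ⟨g, rfl⟩ := hφ g
    refine m _ ((ho U).2 hU) (fun e => ?_) g hg
    obtain ⟨u, h1, h2⟩ := h (φ e)
    obtain ⟨u, rfl⟩ := hφ u
    exact ⟨u, h1, by rwa [← map_mul] at h2⟩

theorem map_eq_range (h : ∀ e, ∃ g, π g = 1 ∧ g * e ∈ U) : U.map π = π.range := by
  refine le_antisymm (U.map_le_range π) ?_
  rintro _ ⟨e, rfl⟩
  obtain ⟨g, h1, h2⟩ := h e
  exact ⟨_, h2, by rw [map_mul, h1, one_mul]⟩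

theorem Cx.exists_min (c : Cx W π E0) : ∃ U : Subgroup E, Opn π E0 U ∧ U.map π = π.range ∧
    Mn (π.comp U.subtype) (E0.subgroupOf U) := by
  classical
  have := c.fin
  have hf : ∀ U : Subgroup E, Finite ↥(U ⊓ π.ker) := fun U =>
    Finite.of_injective _ (Subgroup.inclusion_injective (inf_le_right : U ⊓ π.ker ≤ π.ker))
  have hex : ∃ n, ∃ U, Opn π E0 U ∧ U.map π = π.range ∧ Nat.card ↥(U ⊓ π.ker) = n :=
    ⟨_, ⊤, opn_top, π.range_eq_map.symm, rfl⟩
  obtain ⟨U, h2, h3, h4⟩ := Nat.find_spec hex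
  refine ⟨U, h2, h3, fun U' k1 k2 g hg => ?_⟩
  have k3 : (U'.map U.subtype).map π = π.range := by
    rw [Subgroup.map_map, map_eq_range k2, range_res, h3]
  have k4 : U'.map U.subtype ⊓ π.ker = U ⊓ π.ker :=
    Subgroup.eq_of_le_of_card_ge (inf_le_inf_right _ (Subgroup.map_subtype_le _))
      (h4 ▸ Nat.find_min' hex ⟨_, opn_map h2 k1, k3, rfl⟩)
  obtain ⟨g', hg', e⟩ := (k4.ge (⟨g.2, hg⟩ : (g : E) ∈ U ⊓ π.ker)).1
  rwa [← show g' = g from Subtype.ext e]

/-- reduction to a faithful minimal group acting on the same space -/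
theorem Cx.red (c : Cx W π E0) {b : ℕ} (h : ∀ (E' : Type) [Group E'] [DistribMulAction E' W]
    (π' : E' →* Ga) (E0' : Subgroup E'), Cm W π' E0' →
      (∀ e' : E', ∃ e : E, π e = π' e' ∧ ∀ w : W, e' • w = e • w) → Goal W π' E0' b) :
    Goal W π E0 b := by
  obtain ⟨E', _, _, π', φ, h1, h2, h3, c', h4, -⟩ := c.img
  obtain ⟨U, k1, k2, k3⟩ := c'.exists_min
  have := Goal.res k1 (a := 1) (by rw [k2, Subgroup.relIndex_self]) (h U _ _
    ⟨c'.res k1, fun g hg hw => Subtype.ext (h4 g hg hw), k3⟩ fun e' => by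
      obtain ⟨e, he⟩ := h1 e'
      exact ⟨e, by rw [← h2, he]; rfl, fun w => by rw [← h3, he]; rfl⟩)
  rw [one_mul] at this
  obtain ⟨U', j1, j2, j3⟩ := this
  have e : π'.comp φ = π := MonoidHom.ext h2
  refine ⟨U'.comap φ, j1.imp fun H k => ⟨k.1, fun e he hH => k.2 _ ⟨e, he, rfl⟩ (h2 e ▸ hH)⟩,
    fun g hg hg' w => (h3 g w).symm.trans (j2 _ hg ((h2 g).trans hg') w), ?_⟩
  rwa [← e, ← Subgroup.map_map, Subgroup.map_comap_eq_self_of_surjective h1,
    ← MonoidHom.map_range, MonoidHom.range_eq_top.2 h1, ← MonoidHom.range_eq_map]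

variable [FiniteDimensional Om W]

theorem Cx.op_cj (c : Cx W π E0) (φ : W →ₗ[Om] W) : OP π E0 fun e => cj c.sl e φ = φ := by
  let b := Module.finBasis Om W
  refine ((OP.all fun i => c.st (b i)).and (OP.all fun i => c.st (φ (b i)))).mono
    fun e he => b.ext fun i => ?_
  have h1 : e⁻¹ • b i = b i := (MulAction.stabilizer E (b i)).inv_mem (he.1 i)
  rw [cj_apply, h1]
  exact he.2 i

theorem Cx.op_smap (c : Cx W π E0) (V : Submodule Om W) : OP π E0 fun e => smap c.sl e V = V := by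
  let b := Module.finBasis Om V
  refine (OP.all fun i => c.st (b i : W)).mono fun e he => ?_
  refine (Submodule.eq_of_le_of_finrank_eq ?_ (finrank_smap c.sl e V).symm).symm
  intro w hw
  have : w = ∑ i, b.repr ⟨w, hw⟩ i • (b i : W) := by
    have h1 := congrArg V.subtype (b.sum_repr ⟨w, hw⟩).symm
    rw [map_sum] at h1
    exact h1
  rw [this]
  refine Submodule.sum_mem _ fun i _ => Submodule.smul_mem _ _ ?_
  rw [mem_smap, show e⁻¹ • (b i : W) = b i from (MulAction.stabilizer E (b i : W)).inv_mem (he i)]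
  exact (b i).2

theorem op_fix (a : Om) : OP π E0 fun e => π e a = a :=
  ⟨MulAction.stabilizer Ga a, stabilizer_isOpen_of_isIntegral a, fun _ _ he => he⟩

theorem Cm.op_cent (c : Cm W π E0) : OP π E0 fun e => ∀ g : π.ker, e * g * e⁻¹ = g := by
  have := c.fin
  refine OP.all fun g => (c.op_cj (lin (c.sl.lin ⊤) (g := g) ⟨trivial, g.2⟩)).mono fun e he => ?_
  have h1 := c.faith ((g : E)⁻¹ * (e * g * e⁻¹)) (by
    simp [show π g = 1 from g.2]) fun w => by
      have h2 : e • (g : E) • e⁻¹ • w = (g : E) • w := LinearMap.congr_fun he w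
      rw [mul_smul, mul_smul, mul_smul, h2, inv_smul_smul]
  exact (inv_mul_eq_one.1 h1).symm

theorem Cm.nil (c : Cm W π E0) : Nil π.ker := by
  have := c.fin
  rw [← π.ker.range_subtype]
  refine nil_of_sylow (fun p hp P => ?_) _ π.ker.subtype_injective
  have hF := Sylow.normalizer_sup_eq_top P
  set M : Subgroup E := Subgroup.normalizer ((P : Subgroup π.ker).map π.ker.subtype : Set E)
    with hM
  have k2 : Opn π E0 M := by
    refine c.op_cent.mono fun e he => ?_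
    have : ∀ a : E, a ∈ π.ker → e * a * e⁻¹ = a := fun a ha => he ⟨a, ha⟩
    refine Subgroup.mem_set_normalizer_iff.2 fun a => ⟨fun ha => ?_, fun ha => ?_⟩
    · rwa [this a (Subgroup.map_subtype_le _ ha)]
    · have h5 : a ∈ π.ker := by
        have h6 := π.normal_ker.conj_mem' _ (Subgroup.map_subtype_le _ ha) e
        rwa [mul_assoc, mul_assoc, inv_mul_cancel, mul_one, inv_mul_cancel_left] at h6
      rwa [this a h5] at ha
  have k4 := c.min M k2 fun u => by
    have h5 : u ∈ ((π.ker ⊔ M : Subgroup E) : Set E) := by rw [sup_comm, hF]; trivial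
    rw [Subgroup.normal_mul] at h5
    obtain ⟨a, ha, b, hb, rfl⟩ := h5
    exact ⟨a⁻¹, π.ker.inv_mem ha, by simpa using hb⟩
  refine ⟨fun a ha g => ?_⟩
  obtain ⟨b, hb, e'⟩ := (Subgroup.mem_set_normalizer_iff.1 (k4 g g.2) a.1).1 ⟨a, ha, rfl⟩
  rwa [show g * a * g⁻¹ = b from Subtype.ext e'.symm]

end Defs

/-! ### Lattices -/

/-- every class splits over a subgroup of index at most `b` -/
def PIX (X : Finset Om) (H : Subgroup Ga) (b : ℕ) : Prop :=
  ∀ (N : Subgroup Ga) (M : AddSubgroup (Om →₀ ℤ)) (c : Ga → (Om →₀ ℤ) → Un Om),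
    IsOpen (N : Set Ga) → N ≤ H → (∀ ν ∈ N, ∀ x ∈ X, ν x = x) → (∀ y ∈ M, y.support ⊆ X) →
    Stab H M → Coc H M c → (∀ ν ∈ N, ∀ y ∈ M, c ν y = 0) →
    ∃ H' : Subgroup Ga, IsOpen (H' : Set Ga) ∧ H' ≤ H ∧ H'.relIndex H ≤ b ∧ ∃ β, Bd H' M 1 c β

/-- the same for the full pointwise stabiliser -/
def PIX' (X : Finset Om) (H : Subgroup Ga) (b : ℕ) : Prop :=
  ∀ (N : Subgroup Ga) (M : AddSubgroup (Om →₀ ℤ)) (c : Ga → (Om →₀ ℤ) → Un Om),
    IsOpen (N : Set Ga) → N ≤ H → (∀ ν ∈ N, ∀ x ∈ X, ν x = x) →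
    (∀ σ ∈ H, (∀ x ∈ X, σ x = x) → σ ∈ N) → Nrm H N → (∀ y ∈ M, y.support ⊆ X) →
    Stab H M → Coc H M c → (∀ ν ∈ N, ∀ y ∈ M, c ν y = 0) →
    ∃ H' : Subgroup Ga, IsOpen (H' : Set Ga) ∧ H' ≤ H ∧ H'.relIndex H ≤ b ∧ ∃ β, Bd H' M 1 c β

section Lat

variable {X : Finset Om} {H N : Subgroup Ga} {M : AddSubgroup (Om →₀ ℤ)}
  {c : Ga → (Om →₀ ℤ) → Un Om}

/-- a cocycle is a coboundary on every subgroup that fixes the lattice -/
theorem bd_triv (hX : ∀ σ ∈ H, ∀ x ∈ X, σ x ∈ X) (hN : IsOpen (N : Set Ga)) (hNH : N ≤ H)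
    (h : ∀ ν ∈ N, ∀ x ∈ X, ν x = x) (hs : ∀ y ∈ M, y.support ⊆ X) (hM : Stab H M)
    (hc : Coc H M c) (hcN : ∀ ν ∈ N, ∀ y ∈ M, c ν y = 0) {S : Subgroup Ga} (hS : S ≤ H)
    (h0 : ∀ s ∈ S, ∀ y ∈ M, s • y = y) : ∃ β, Bd S M 1 c β := by
  have : Ope N := ⟨hN⟩
  have : N.FiniteIndex := ⟨index_ne⟩
  have : Ope N.normalCore := ⟨Subgroup.isOpen_of_isClosed_of_finiteIndex _
    (N.normalCore_isClosed (N.isClosed_of_isOpen hN))⟩
  have : Nrm H N.normalCore := ⟨fun s _ t ht => N.normalCore_normal.conj_mem t ht s⟩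
  have h1 := N.normalCore_le
  have := Qt.faithful (S := H) (N := N.normalCore) (T := N.normalCore) inf_le_right
  obtain ⟨β0, h0⟩ := transferX hX (fun ν hν => h ν (h1 hν)) hs (h1.trans hNH) hM hc
    (fun ν hν => hcN ν (h1 hν)) (P := (S.subgroupOf H).map (QuotientGroup.mk' _)) (n := 1) (by
      let _ := Qt.xact (N := N.normalCore) hX (fun ν hν => h ν (h1 hν))
      have := Module.Finite.of_injective (M.comap (jX X)).subtype.toIntLinearMap
        Subtype.val_injective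
      refine kill_triv (rowNT2.h90 _ _ _) ?_
      rintro _ ⟨s, hs, rfl⟩ y hy
      exact Finsupp.mapDomain_injective Subtype.val_injective
        ((jX_smul hX (fun ν hν => h ν (h1 hν)) s y).trans (h0 s hs _ hy)))
  exact ⟨β0, h0.mono (le_pre_map hS) le_rfl⟩

theorem Bd.of_sub {V : Type} [AddCommGroup V] [DistribMulAction Ga V] {M : AddSubgroup V}
    {c : Ga → V → Un Om} {β β0 : V → Un Om} (h0 : AddOn M β0)
    (hβ : Bd H M 1 (fun s y => 1 • c s y - (s • β0 y - β0 (s • y))) β) :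
    Bd H M 1 c fun y => β y + β0 y := by
  refine ⟨fun x hx y hy => ?_, fun s hs y hy => ?_⟩
  · simp only [hβ.1 x hx y hy, h0 x hx y hy]
    abel
  · have := hβ.2 s hs y hy
    rw [one_smul, sub_eq_iff_eq_add] at this
    rw [this, smul_add, add_sub_add_comm]

theorem PIX'.pix {b : ℕ} (hP : PIX' X H b) (hX : ∀ σ ∈ H, ∀ x ∈ X, σ x ∈ X) : PIX X H b := by
  intro N M c hN hNH h hs hM hc hcN
  let N0 := H ⊓ fixingSubgroup Ga (X : Set Om)
  have hN0 : ∀ s, s ∈ N0 ↔ s ∈ H ∧ ∀ x ∈ X, s x = x := fun s =>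
    and_congr_right' ((mem_fixingSubgroup_iff Ga).trans Iff.rfl)
  obtain ⟨β0, h0⟩ := bd_triv hX hN hNH h hs hM hc hcN (S := N0) inf_le_left
    (fix_supp hs fun ν hν => ((hN0 ν).1 hν).2)
  obtain ⟨H', a1, a2, a3, β, hβ⟩ := hP N0 M _
    (Subgroup.isOpen_mono (fun s hs => (hN0 s).2 ⟨hNH hs, h s hs⟩) hN) inf_le_left
    (fun ν hν => ((hN0 ν).1 hν).2) (fun s hs h => (hN0 s).2 ⟨hs, h⟩)
    ⟨fun s hs t ht => (hN0 _).2 ⟨mul_mem (mul_mem hs ht.1) (inv_mem hs), fun x hx => by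
      rw [AlgEquiv.mul_apply, AlgEquiv.mul_apply, ((hN0 t).1 ht).2 _ (hX _ (inv_mem hs) x hx)]
      exact s.apply_symm_apply x⟩⟩ hs hM (hc.sub_bd hM h0.1 1)
    fun ν hν y hy => sub_eq_zero.2 (h0.2 ν hν y hy)
  exact ⟨H', a1, a2, a3, _, Bd.of_sub h0.1 hβ⟩

theorem PIX.res {S : Subgroup Ga} {a b : ℕ} (hP : PIX X S b) (hS : S ≤ H)
    (ho : IsOpen (S : Set Ga)) (ha : S.relIndex H ≤ a) : PIX X H (a * b) := by
  intro N M c hN hNH h hs hM hc hcN
  obtain ⟨H', a1, a2, a3, hβ⟩ := hP (N ⊓ S) M c (hN.inter ho) inf_le_right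
    (fun ν hν => h ν hν.1) hs (hM.mono hS) (hc.mono hS le_rfl) fun ν hν => hcN ν hν.1
  refine ⟨H', a1, a2.trans hS, ?_, hβ⟩
  rw [← Subgroup.relIndex_mul_relIndex _ _ _ a2 hS, mul_comm]
  exact Nat.mul_le_mul ha a3

end Lat

section Kill

variable {G V A : Type} [Group G] [AddCommGroup V] [DistribMulAction G V] [AddCommGroup A]
  [DistribMulAction G A] {U : Subgroup G} {M : AddSubgroup V} {n m : ℕ}

theorem kill_bot : Kill A (⊥ : Subgroup G) M 1 := fun c hc =>
  ⟨0, fun _ _ _ _ => by simp, fun s hs y hy => by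
    rw [Subgroup.mem_bot.1 hs, hc.one hy]
    simp⟩

theorem kill_card [Finite U] (hM : Stab U M) : Kill A U M (Nat.card U) := by
  have := (kill_bot (A := A) (M := M)).cores (U := U) bot_le
    (by rw [Subgroup.relIndex_bot_left]; exact Nat.card_pos.ne') hM
  rwa [Subgroup.relIndex_bot_left, mul_one] at this

theorem kill_gcd (h : Kill A U M n) (h' : Kill A U M m) : Kill A U M (n.gcd m) := fun c hc =>
  (h c hc).elim fun _ k => (h' c hc).elim fun _ k' => k.gcd k'

theorem kill_cop (h : Kill A U M n) (h' : Kill A U M m) (hc : n.Coprime m) : Kill A U M 1 :=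
  hc.gcd_eq_one ▸ kill_gcd h h'

/-- sublattices of permutation lattices are free -/
theorem free_sub {Y : Type} [Finite Y] (M : AddSubgroup (Y →₀ ℤ)) : Module.Free ℤ M :=
  have := Module.Finite.of_injective M.subtype.toIntLinearMap Subtype.val_injective
  inferInstance

/-- gluing along a decomposition of multiplication by `n` -/
theorem bd_split {c : G → V → A} {M1 M2 : AddSubgroup V} {β1 β2 : V → A} (hc : Coc U M c)
    (h1 : M1 ≤ M) (h2 : M2 ≤ M) (a b : V → V) (ha : AddOn M a) (hb : AddOn M b)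
    (ha1 : ∀ y ∈ M, a y ∈ M1) (hb1 : ∀ y ∈ M, b y ∈ M2)
    (ha2 : ∀ s ∈ U, ∀ y ∈ M, a (s • y) = s • a y) (hb2 : ∀ s ∈ U, ∀ y ∈ M, b (s • y) = s • b y)
    (hn : ∀ y ∈ M, n • y = a y + b y) (k1 : Bd U M1 m c β1) (k2 : Bd U M2 m c β2) :
    Bd U M (m * n) c fun y => β1 (a y) + β2 (b y) := by
  refine ⟨fun x hx y hy => ?_, fun s hs y hy => ?_⟩
  · simp only [ha x hx y hy, hb x hx y hy, k1.1 _ (ha1 x hx) _ (ha1 y hy),
      k2.1 _ (hb1 x hx) _ (hb1 y hy)]
    abel
  · rw [mul_smul, ← (hc.1 s hs).nsmul hy, hn y hy, hc.1 s hs _ (h1 (ha1 y hy)) _ (h2 (hb1 y hy)),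
      smul_add, k1.2 s hs _ (ha1 y hy), k2.2 s hs _ (hb1 y hy), smul_add]
    beta_reduce
    rw [ha2 s hs y hy, hb2 s hs y hy]
    abel

end Kill

end Pool.Agent.MP_db5b97_nt.H67
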