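import Pool.Agent.MP_db5b97_nt.H67.RODD
import Pool.Agent.MP_db5b97_nt.H67.RFE
import Pool.Agent.MP_db5b97_nt.H53.DT
import Pool.Agent.MP_db5b97_nt.H61.TOP
import Pool.Agent.MP_db5b97_nt.H41.FIN
import Pool.Agent.MP_db5b97_nt.H75.UpFinal

/-! Small dimensions: assembly. -/

namespace Pool.Agent.MP_db5b97_nt.H67

open H85 H30 Module

theorem rowSTR (hE : RowEIG) (hD : RowDEC) (h1 : RowSYM1) (h2 : RowSYM2) (ha : RowH4a)
    (hH2 : RowH2) (hH4 : RowH4) : RowSTR := by
  intro E W _ _ _ _ _ π E0 c hd hI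
  by_cases hC : Com W π
  · exact Or.inl hC
  have : Nontrivial W := by
    by_contra h
    rw [not_nontrivial_iff_subsingleton] at h
    exact hC fun _ _ _ _ _ => Subsingleton.elim _ _
  by_cases hA : ∀ A : Subgroup E, A.Normal → A ≤ π.ker → (∀ g ∈ A, ∀ u ∈ A, g * u = u * g) →
      ∀ g ∈ A, Sc W g
  · exfalso
    obtain ⟨k1, k2⟩ := h1 E W π E0 c (fun p hp hp2 => rowODD E W π E0 p c hp hp2 (by
      have := hp.two_le
      have : 3 ≤ p := by omega
      nlinarith)) hC hA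
    obtain ⟨I, J, p1, p2, q1, q2, q3, h⟩ := h2 W (PB c.sl) (by omega) (PB.one _)
      (fun _ _ => PB.mul) (fun _ _ t h => t.smul h) (fun _ t => t.1) (fun _ _ => PB.pm) k1 k2
    rcases h with h | ⟨I', J', p3, p4, q4, q5, q6, q7, q8, q9, q10, h⟩
    · exact hH2 E W π E0 c I J p1 p2 q1 q2 q3 h
    obtain ⟨g, g1, g2, g3, g4⟩ := ha _ I J I' J' q1 q2 q3 q4 q5 q6 q7 q8 q9 q10
    have pb : ∀ I J A : End Om W, PB c.sl I → PB c.sl J → A ∈ ({1, I, J, I * J} : Set _) →
        PB c.sl A := fun I J A hI hJ hA => by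
      rcases hA with rfl | rfl | rfl | rfl
      exacts [PB.one _, hI, hJ, hI.mul hJ]
    refine hH4 E W π E0 c g g1 (fun i j => ?_) g2 fun T hT => ?_
    · obtain ⟨a, A, B, a0, hA, hB, e⟩ := g3 i j
      rw [e]
      exact ((pb _ _ _ p1 p2 hA).mul (pb _ _ _ p3 p4 hB)).smul a0
    · obtain ⟨a, A, B, hA, hB, e⟩ := h T hT
      obtain ⟨b, i, j, e'⟩ := g4 A hA B hB
      exact ⟨a * b, i, j, by rw [e, e', smul_smul]⟩
  · push Not at hA
    obtain ⟨A, a1, a2, a3, a4⟩ := hA
    have := c.fin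
    obtain ⟨Y, hY⟩ := hE E W π c.sl A
      (Finite.of_injective _ (Subgroup.inclusion_injective a2)) a1 a2 a3 a4
    exact hD E W π E0 c Y hd hI hY

section

variable {E W : Type} [Group E] [AddCommGroup W] [Module Om W] [FiniteDimensional Om W]
  [DistribMulAction E W] {π : E →* Ga} {E0 : Subgroup E}

omit [FiniteDimensional Om W] in
theorem Frame.stab {X : Finset Om} {w : Om → W} (h : Frame π X w) :
    ∀ σ ∈ π.range, ∀ x ∈ X, σ x ∈ X := by
  rintro _ ⟨e, rfl⟩ x hx
  exact (h.2.2.2 e x hx).1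

theorem two_two (hC : RowCOM) (hF : RowFR) (hP : RowP22) (c : Cx W π E0) {V V' : Submodule Om W}
    (d1 : finrank Om V = 2) (d2 : finrank Om V' = 2) (hc : IsCompl V V') (s1 : Stb E V)
    (s2 : Stb E V') : Goal W π E0 2 := by
  refine c.red fun E' _ _ π' E0' c' h => ?_
  have st : ∀ Z : Submodule Om W, Stb E Z → Stb E' Z := fun Z hZ e w hw => by
    obtain ⟨e', -, he⟩ := h e
    rw [he]
    exact hZ e' w hw
  have com : ∀ Z : Submodule Om W, Stb E Z → finrank Om Z = 2 → ∀ g u, π' g = 1 → π' u = 1 →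
      ∀ w ∈ Z, g • u • w = u • g • w := fun Z hZ d g u hg hu w hw => by
    let _ := subAct (st Z hZ)
    exact congrArg Subtype.val (hC E' Z π' E0' (c'.toCx.sub _) c'.min (by omega) g u hg hu ⟨w, hw⟩)
  have hcom : Com W π' := fun g u hg hu w => by
    obtain ⟨x, hx, y, hy, rfl⟩ := Submodule.mem_sup.1 (hc.sup_eq_top.ge (Submodule.mem_top (x := w)))
    simp only [smul_add, com V s1 d1 g u hg hu x hx, com V' s2 d2 g u hg hu y hy]
  obtain ⟨X, Y, w, k1, k2, k3, k4⟩ := hF E' W π' E0' V V' c'.toCx hcom (st V s1) (st V' s2) hc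
  refine rowFE E' W π' E0' X w 2 c'.toCx k1 ((hP X Y _ ?_ k2 (k3.trans d1) k1.stab ?_).pix k1.stab)
  · rw [k1.1, ← Submodule.finrank_add_eq_of_isCompl hc, d1, d2]
  · rintro _ ⟨e, rfl⟩
    exact k4 e

theorem index_two {U : Subgroup E} (h : ∀ a b : E, a ∉ U → b ∉ U → a * b⁻¹ ∈ U) : (U.map π).relIndex π.range ≤ 2 := by
  have h1 : U.index ∣ 2 := by
    by_cases ht : U = ⊤
    · simp [ht]
    · obtain ⟨a, ha⟩ : ∃ a, a ∉ U := by simpa [Subgroup.eq_top_iff'] using ht
      refine (Subgroup.index_eq_two_iff.2 ⟨a⁻¹, fun b => ?_⟩).dvd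
      by_cases hb : b ∈ U
      · exact Or.inr ⟨hb, fun h' => ha (by simpa using U.mul_mem (U.inv_mem h') hb)⟩
      · exact Or.inl ⟨h b a hb ha, hb⟩
  rw [MonoidHom.range_eq_map, ← Subgroup.relIndex_comap, Subgroup.relIndex_top_right]
  exact Nat.le_of_dvd two_pos ((Subgroup.index_dvd_of_le (Subgroup.le_comap_map π U)).trans h1)

theorem swp_four (hC : RowCOM) (hF : RowFR) (hP : RowP22) (c : Cx W π E0) (h : Swp E W) :
    Goal W π E0 4 := by
  obtain ⟨V, V', d1, d2, hc, h⟩ := h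
  let _ := smapAct c.sl
  have key : ∀ (e : E) (A B : Submodule Om W), finrank Om A = finrank Om B →
      (∀ w ∈ A, e • w ∈ B) → e • A = B := fun e A B d k =>
    Submodule.eq_of_le_of_finrank_eq (fun w hw => by simpa using k _ hw)
      ((finrank_smap c.sl e A).trans d)
  have hne : V ≠ V' := fun e => by
    have := hc.disjoint
    rw [← e, disjoint_self] at this
    rw [this] at d1
    simp at d1
  have h1 : ∀ e : E, (e • V = V ∧ e • V' = V') ∨ (e • V = V' ∧ e • V' = V) := fun e =>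
    (h e).imp (fun k => ⟨key _ _ _ rfl k.1, key _ _ _ rfl k.2⟩)
      fun k => ⟨key _ _ _ (d1.trans d2.symm) k.1, key _ _ _ (d2.trans d1.symm) k.2⟩
  have hU : Opn π E0 (MulAction.stabilizer E V) := c.op_smap V
  refine Goal.res hU (a := 2) (b := 2) (index_two fun a b ha hb => ?_)
    (two_two hC hF hP (c.res hU) d1 d2 hc (fun e w hw => ?_) fun e w hw => ?_)
  · rw [MulAction.mem_stabilizer_iff] at *
    rw [mul_smul, inv_smul_eq_iff.2 ((h1 b).resolve_left fun k => hb k.1).2.symm,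
      ((h1 a).resolve_left fun k => ha k.1).2]
  · have : (e : E) • V = V := e.2
    exact this.le ((smul_mem_smap c.sl).2 hw)
  · have : (e : E) • V' = V' := ((h1 e).resolve_right fun k => hne (e.2.symm.trans k.1)).2
    exact this.le ((smul_mem_smap c.sl).2 hw)

theorem com_irr (hT : RowPT) (hP : RowP22) (hK : KP (finrank Om W)) (c : Cx W π E0)
    (h0 : 0 < finrank Om W) (hI : Ir E W) (hc : Com W π) : Goal W π E0 (finrank Om W) := by
  classical
  obtain ⟨X, w, hX⟩ : ∃ X w, Frame π X w :=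
    H53.rowTOR H53.rowDS E W π E0 c.sl c.op c.st c.fin hc
  refine rowFE E W π E0 X w _ c hX ?_
  rw [← hX.1] at hK h0 ⊢
  by_cases hp : X.card = 4 → ∀ B ⊆ X, B.card = 2 →
      ∃ σ ∈ π.range, (∃ b ∈ B, σ b ∈ B) ∧ ∃ b ∈ B, σ b ∉ B
  · refine (hT X _ (Finset.card_pos.1 h0) hK hX.stab (fun x hx y hy => ?_) hp).pix hX.stab
    by_contra hn
    let O : Set Om := {z | z ∈ X ∧ ∃ σ ∈ π.range, σ x = z}
    rcases hI (Submodule.span Om (w '' O)) (fun e v hv => by
      induction hv using Submodule.span_induction with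
      | mem _ h =>
        obtain ⟨z, ⟨hz, σ, hσ, rfl⟩, rfl⟩ := h
        obtain ⟨k, u, hu⟩ := hX.2.2.2 e _ hz
        rw [hu]
        exact Submodule.smul_mem _ _ (Submodule.subset_span
          ⟨_, ⟨k, π e * σ, mul_mem ⟨e, rfl⟩ hσ, rfl⟩, rfl⟩)
      | zero => simp
      | add a b _ _ ha hb => simpa [smul_add] using add_mem ha hb
      | smul a b _ hb => rw [c.sl]; exact Submodule.smul_mem _ _ hb) with h | h
    · exact hX.2.1.ne_zero ⟨x, hx⟩ ((Submodule.eq_bot_iff _).1 h _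
        (Submodule.subset_span ⟨x, ⟨hx, 1, one_mem _, rfl⟩, rfl⟩))
    · refine hX.2.1.notMem_span_image (s := {z : X | (z : Om) ∈ O}) (x := ⟨y, hy⟩)
        (fun k => hn k.2) ?_
      have : (fun x : X => w x) '' {z : X | (z : Om) ∈ O} = w '' O := by
        ext v
        exact ⟨fun ⟨z, k, e⟩ => ⟨z, k, e⟩, fun ⟨z, k, e⟩ => ⟨⟨z, k.1⟩, k, e⟩⟩
      rw [this, h]
      trivial
  · push Not at hp
    obtain ⟨h4, B, b1, b2, b3⟩ := hp
    let U : Subgroup E :=
      { carrier := {e | ∀ x ∈ X, π e x ∈ B ↔ x ∈ B}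
        one_mem' := fun x _ => by simp
        mul_mem' := fun {a b} ha hb x hx => by
          rw [map_mul, AlgEquiv.mul_apply, ha _ (hX.2.2.2 b x hx).1, hb x hx]
        inv_mem' := fun {a} ha x hx => by
          rw [← ha _ (hX.2.2.2 a⁻¹ x hx).1, ← AlgEquiv.mul_apply, ← map_mul, mul_inv_cancel,
            map_one, AlgEquiv.one_apply] }
    have hU : Opn π E0 U :=
      (OP.all fun x : X => op_fix (π := π) (E0 := E0) (x : Om)).mono fun e he x hx => by
        rw [he ⟨x, hx⟩]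
    have k1 : ∀ e : E, (∀ b ∈ B, π e b ∈ B) → e ∈ U := fun e he x hx => ⟨fun h => by
      have := Finset.eq_of_subset_of_card_le (s := B.image (π e)) (t := B)
        (Finset.image_subset_iff.2 he) (by rw [Finset.card_image_of_injective _ (π e).injective])
      rw [← this] at h
      obtain ⟨y, hy, e⟩ := Finset.mem_image.1 h
      rwa [← (π _).injective e], he x⟩
    have k2 : ∀ e : E, e ∉ U → ∀ x ∈ X, (π e x ∈ B ↔ x ∉ B) := fun e he => by
      have h1 : ∀ b ∈ B, π e b ∉ B := fun b hb h => he (k1 e (b3 _ ⟨e, rfl⟩ ⟨b, hb, h⟩))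
      refine fun x hx => ⟨fun h hb => h1 x hb h, fun h => ?_⟩
      have := Finset.eq_of_subset_of_card_le (s := B.image (π e)) (t := X \ B)
        (Finset.image_subset_iff.2 fun b hb => Finset.mem_sdiff.2
          ⟨(hX.2.2.2 e b (b1 hb)).1, h1 b hb⟩) (by
        rw [Finset.card_image_of_injective _ (π e).injective, Finset.card_sdiff_of_subset b1]
        omega)
      by_contra h'
      have h2 : π e x ∈ B.image (π e) := this ▸ Finset.mem_sdiff.2 ⟨(hX.2.2.2 e x hx).1, h'⟩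
      obtain ⟨y, hy, e⟩ := Finset.mem_image.1 h2
      exact h ((π _).injective e ▸ hy)
    have hs : ∀ σ ∈ U.map π, ∀ x ∈ X, σ x ∈ X := fun σ hσ => hX.stab σ (U.map_le_range π hσ)
    rw [h4]
    refine ((hP X B (U.map π) h4 b1 b2 hs ?_).pix hs).res (a := 2) (U.map_le_range π)
      (c.open_map hU) (index_two fun a b ha hb x hx => ?_)
    · rintro _ ⟨e, he, rfl⟩ y hy
      exact (he y (b1 hy)).2 hy
    · have h1 := (hX.2.2.2 b⁻¹ x hx).1
      have h2 := k2 b hb _ h1
      rw [← AlgEquiv.mul_apply, ← map_mul, mul_inv_cancel, map_one, AlgEquiv.one_apply] at h2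
      rw [map_mul, AlgEquiv.mul_apply, k2 a ha _ h1, h2]

end

/-- the values -/
def bv : ℕ → ℕ
  | 0 => 1
  | 5 => 6
  | n => n

theorem bb_all (hS : RowSTR) (hR : RowPROD) (hC : RowCOM) (hF : RowFR) (hP : RowP22) (hT : RowPT)
    (hK : ∀ n ≤ 5, KP n) : ∀ n ≤ 5, BB n (bv n) := by
  intro n
  induction n using Nat.strong_induction_on with
  | _ n ih =>
    intro hn E W _ _ _ _ _ π E0 hd c
    rcases Nat.eq_zero_or_pos n with rfl | h0
    · have := Module.finrank_zero_iff.1 hd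
      exact ⟨⊤, opn_top, fun _ _ _ _ => Subsingleton.elim _ _, by
        rw [← MonoidHom.range_eq_map, Subgroup.relIndex_self]; exact le_rfl⟩
    refine c.red fun E' _ _ π' E0' c' _ => ?_
    by_cases hI : Ir E' W
    · rcases hS E' W π' E0' c' (hd ▸ hn) hI with h | h
      · refine (com_irr hT hP (hK _ (hd ▸ hn)) c'.toCx (hd ▸ h0) hI h).mono ?_
        rw [hd]
        interval_cases n <;> decide
      · refine (swp_four hC hF hP c'.toCx h).mono ?_
        obtain ⟨V, V', d1, d2, hc, -⟩ := h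
        rw [← hd, ← Submodule.finrank_add_eq_of_isCompl hc, d1, d2]
        decide
    · simp only [Ir, not_forall, not_or] at hI
      obtain ⟨V, s, v0, v1⟩ := hI
      have d0 : finrank Om V ≠ 0 := fun h => v0 (Submodule.finrank_eq_zero.1 h)
      have d1 : finrank Om V < n := hd ▸ Submodule.finrank_lt v1
      refine (hR E' W π' E0' V _ _ c'.toCx s (ih _ d1 (by omega))
        (ih _ (by omega) (by omega))).mono ?_
      rw [hd]
      generalize finrank Om V = a at d0 d1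
      interval_cases n <;> interval_cases a <;> decide

open H61 in
theorem top_of_bb {N b : ℕ} (hB : BB (N + 1) b) : H31.TOPn N b := by
  intro d hd f hf h0 K hK
  have hE := open_E0 (f := f) (A := ⊤) isOpen_univ
  have c : Cx (Fin (N + 1) → Om) (pr f ⊤) (E0 f ⊤) :=
    ⟨semi, hE, opn_stab, finite_ker rowFIN hd hf h0⟩
  obtain ⟨U, hU, hk, hb⟩ := hB _ _ _ _ (Module.finrank_fin_fun _) c
  obtain ⟨φ, a, ha, hφ⟩ := descent U h0 (H53.rowDS _ _ _ _ U semi hE opn_stab hU hk)
  have l1 := U.map_le_range (pr f ⊤)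
  obtain ⟨h1, h2⟩ := field_part (c.open_map hU) l1
  obtain rfl : K = IntermediateField.fixedField (pr f ⊤).range := by
    ext x
    rw [hK, IntermediateField.mem_fixedField_iff]
    simp only [mem_range_iff hf]
  refine ⟨_, h1, IntermediateField.fixedField_antitone l1, ⟨φ, a, ha, fun j m => ?_⟩, ?_⟩
  · rw [IntermediateField.mem_fixedField_iff]
    rintro _ ⟨e, he, rfl⟩
    exact hφ j m e he
  · rw [h2]
    exact_mod_cast hb

open H31 MvPolynomial in
theorem le_ff {N d : ℕ} (hd : 2 ≤ d) (S : Finset ℕ) (hS : ∀ n ∈ S, n ∣ d - 1)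
    (hs : ∑ n ∈ S, n ≤ N + 1) {b : ℕ} (hb : S.lcm id = b) : (b : ℕ∞) ≤ FF N d := by
  subst hb
  obtain ⟨M, hM, h1, h2⟩ := H58.exists_matrix N d hd S hS hs
  have hmor : IsMor d (H58.pw d M) := by
    refine ⟨fun i => IsHomogeneous.sum _ _ _ fun l _ => (isHomogeneous_X_pow l d).C_mul _,
      fun x hx => ?_⟩
    have h3 : (fun l => x l ^ d) = 0 := Matrix.mulVec_injective_iff_isUnit.mpr hM
      (by rw [← H58.eval_pw, Matrix.mulVec_zero]; exact funext hx)
    exact funext fun l => pow_eq_zero_iff (by omega) |>.mp (congrFun h3 l)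
  have hbot : fom (H58.pw d M) = ⊥ := by
    refine eq_bot_iff.mpr fun x hx => ?_
    rw [InfiniteGalois.mem_bot_iff_fixed]
    intro σ
    obtain ⟨φ, h⟩ := H58.conj_of_mod h1 σ
    exact (H75.mem_fom _ x).mp hx σ ⟨φ, 1, one_ne_zero, fun i => by rw [h, C_1, one_mul]⟩
  refine le_iSup₂_of_le (H58.pw d M) hmor (le_iInf₂ fun L hL => ?_)
  rw [hbot, IntermediateField.relrank_bot_left]
  by_cases hf : Module.Finite ℚ L
  · obtain ⟨φ, c, hc, h⟩ := hL
    have h3 := h2 L φ.val φ.isUnit (H58.desc_of_def hd hM hc h)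
    rw [← Module.finrank_eq_rank, map_natCast]
    exact_mod_cast Nat.le_of_dvd Module.finrank_pos h3
  · rw [← Module.rank_lt_aleph0_iff, not_lt] at hf
    rw [Cardinal.toENat_eq_top.mpr hf]
    exact le_top

theorem ss_eq (h : ∀ n ≤ 5, BB n (bv n)) {N : ℕ} (h1 : 1 ≤ N) (h4 : N ≤ 4) :
    H31.SS N = (bv (N + 1) : ℕ) := by
  refine le_antisymm (by simpa using H75.ss_le (top_of_bb (h (N + 1) (by omega)))) ?_
  interval_cases N
  · exact le_iSup₂_of_le 3 (by norm_num) (le_ff (by norm_num) {2} (by decide) (by decide) (by simp [bv]))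
  · exact le_iSup₂_of_le 4 (by norm_num) (le_ff (by norm_num) {3} (by decide) (by decide) (by simp [bv]))
  · exact le_iSup₂_of_le 5 (by norm_num) (le_ff (by norm_num) {4} (by decide) (by decide) (by simp [bv]))
  · exact le_iSup₂_of_le 7 (by norm_num) (le_ff (by norm_num) {2, 3} (by decide) (by decide) (by decide))

end Pool.Agent.MP_db5b97_nt.H67
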