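import Pool.Agent.MP_db5b97_nt.H67.Spec

/-! Transpositions. -/

namespace Pool.Agent.MP_db5b97_nt.H67

open H85 H30 Module

namespace RC2X

theorem odd_fun {V : Type} [AddCommGroup V] {M : AddSubgroup V} [Module.Free ℤ M] {s : V}
    (hs : s ∈ M) (h : ∀ s' ∈ M, s ≠ s' + s') : ∃ ψ : V → ℤ, AddOn M ψ ∧ Odd (ψ s) := by
  let b := Module.Free.chooseBasis ℤ M
  by_contra hc
  have h1 : ∀ i, Even (b.repr ⟨s, hs⟩ i) := fun i => Int.not_odd_iff_even.1 fun ho =>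
    hc ⟨extH (b.coord i).toAddMonoidHom, extH_addOn _, by rwa [extH_apply _ hs]⟩
  let s' := b.repr.symm ((b.repr ⟨s, hs⟩).mapRange (· / 2) (by simp))
  refine h s' s'.2 (congrArg Subtype.val (b.repr.injective (a₁ := ⟨s, hs⟩) (a₂ := s' + s') ?_))
  ext i
  obtain ⟨r, hr⟩ := h1 i
  simp only [s', map_add, LinearEquiv.apply_symm_apply, Finsupp.add_apply, Finsupp.mapRange_apply]
  omega

theorem main {G V A : Type} [Group G] [AddCommGroup V] [DistribMulAction G V] [AddCommGroup A]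
    [DistribMulAction G A] (hf : ∀ M : AddSubgroup V, Module.Free ℤ M) {M : AddSubgroup V}
    {Q : Subgroup G} {t : G} (δ : V →+ ℤ) (h1 : ∀ m, δ (t • m) = -δ m)
    (h0 : ∀ m, δ m = 0 → t • m = m) (h90 : H90 A Q) (hQ : ∀ q, q ∈ Q ↔ q = 1 ∨ q = t)
    (ht : t * t = 1) (hM : Stab Q M) (hm : ∀ m ∈ M, t • m = -m → ∃ m' ∈ M, m = m' - t • m') :
    Kill A Q M 1 := by
  have tQ : t ∈ Q := (hQ t).2 (Or.inr rfl)
  have triv : ∀ N : AddSubgroup V, (∀ m ∈ N, δ m = 0) → Kill A Q N 1 := fun N hN =>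
    have := hf N
    kill_triv h90 fun s hs y hy => by
      rcases (hQ s).1 hs with rfl | rfl
      exacts [one_smul _ _, h0 y (hN y hy)]
  obtain ⟨d, hd⟩ := Int.subgroup_cyclic (M.map δ)
  have hk : ∀ m ∈ M, δ m / d * d = δ m := fun m hm => by
    obtain ⟨n, hn⟩ := AddSubgroup.mem_closure_singleton.1 (hd.le ⟨m, hm, rfl⟩)
    exact Int.ediv_mul_cancel ⟨n, by rw [← hn, smul_eq_mul, mul_comm]⟩
  by_cases d0 : d = 0
  · exact triv M fun m hm => by rw [← hk m hm, d0, mul_zero]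
  obtain ⟨m0, m0M, hm0⟩ : d ∈ M.map δ := hd.ge (AddSubgroup.subset_closure rfl)
  obtain ⟨k, hk⟩ : ∃ k : V → ℤ, ∀ m ∈ M, k m * d = δ m := ⟨_, hk⟩
  have k1 : AddOn M k := fun x hx y hy => mul_right_cancel₀ d0 (by
    rw [add_mul, hk x hx, hk y hy, hk _ (add_mem hx hy), map_add])
  have k2 : ∀ m ∈ M, k (t • m) = -k m := fun m hm => mul_right_cancel₀ d0 (by
    rw [neg_mul, hk m hm, hk _ (hM t tQ m hm), h1])
  have k3 : ∀ m ∈ M, m - k m • m0 ∈ M ⊓ δ.ker := fun m hm =>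
    ⟨M.sub_mem hm (M.zsmul_mem m0M _), show δ _ = 0 by
      rw [map_sub, map_zsmul, hm0, smul_eq_mul, hk m hm, sub_self]⟩
  have hs : m0 + t • m0 ∈ M ⊓ δ.ker :=
    ⟨M.add_mem m0M (hM t tQ _ m0M), show δ _ = 0 by rw [map_add, h1, add_neg_cancel]⟩
  have := hf (M ⊓ δ.ker)
  obtain ⟨ψ, p1, j, p2⟩ := odd_fun hs fun s' hs' e => by
    obtain ⟨m', hm', e'⟩ := hm (m0 - s') (sub_mem m0M hs'.1) (by
      rw [smul_sub, h0 s' hs'.2, eq_sub_of_add_eq' e]
      abel)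
    have e2 := congrArg δ e'
    rw [map_sub, map_sub, h1, show δ s' = 0 from hs'.2, hm0, ← hk m' hm'] at e2
    have e3 : (2 * k m') * d = 1 * d := by linarith
    have := mul_right_cancel₀ d0 e3
    omega
  clear hm
  intro c hc
  obtain ⟨β, b1, b2⟩ := triv (M ⊓ δ.ker) (fun m hm => hm.2) c (hc.mono le_rfl inf_le_left)
  replace b2 : ∀ x ∈ M ⊓ δ.ker, t • β x = c t x + β x := fun x hx => by
    rw [← one_smul ℕ (c t x), b2 t tQ x hx, h0 x hx.2, sub_add_cancel]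
  obtain ⟨y, hy⟩ : ∃ y, c t m0 = y - β (m0 + t • m0) := ⟨_, (add_sub_cancel_right _ _).symm⟩
  have y1 : t • y = y := by
    have e := hc.2 t tQ t tQ m0 m0M
    rw [ht, hc.one m0M] at e
    rw [← sub_add_cancel y (β (m0 + t • m0)), ← hy, smul_add, b2 _ hs,
      hc.1 t tQ _ m0M _ (hM t tQ _ m0M), eq_neg_of_add_eq_zero_right e.symm]
    abel
  refine ⟨fun m => β (m - k m • m0) - (ψ (m - k m • m0) + k m * j) • y, fun x hx z hz => ?_,
    fun s hs' m hm => ?_⟩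
  · beta_reduce
    rw [k1 x hx z hz, add_smul (k x), ← sub_add_sub_comm, b1 _ (k3 x hx) _ (k3 z hz),
      p1 _ (k3 x hx) _ (k3 z hz)]
    module
  rcases (hQ s).1 hs' with rfl | rfl
  · simp [hc.one hm]
  have e1 : s • m - k (s • m) • m0 = (m - k m • m0) + k m • (m0 + s • m0) := by
    have e := h0 _ (k3 m hm).2
    rw [smul_sub, smul_comm, sub_eq_iff_eq_add] at e
    rw [k2 m hm, e]
    generalize s • m0 = u
    module
  have e2 : c s m = c s (m - k m • m0) + k m • c s m0 := by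
    rw [← (hc.1 s tQ).zsmul m0M, ← hc.1 s tQ _ (k3 m hm).1 _ (zsmul_mem m0M _), sub_add_cancel]
  beta_reduce
  rw [e1, k2 m hm, b1 _ (k3 m hm) _ (zsmul_mem hs _), p1 _ (k3 m hm) _ (zsmul_mem hs _),
    b1.zsmul hs, p1.zsmul hs, p2, smul_sub, b2 _ (k3 m hm), smul_comm s, y1, e2, hy, smul_eq_mul]
  module

end RC2X

theorem rowC2 : RowC2 := by
  intro G Y A _ _ _ _ _ _ M Q t a b h90 hQ ht hs hM hm
  have e : ∀ (m : Y →₀ ℤ) y, (t • m) y = m (Equiv.swap a b y) := fun m y => by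
    rw [← hs]
    exact (Finsupp.comapSMul_apply t m y).trans (by rw [inv_eq_of_mul_eq_one_right ht])
  refine RC2X.main free_sub (Finsupp.applyAddHom a - Finsupp.applyAddHom b) (fun m => ?_)
    (fun m h => ?_) h90 hQ ht hM hm
  · simp [e]
  · ext y
    rw [e]
    exact Equiv.apply_swap_eq_self (sub_eq_zero.1 h) y

end Pool.Agent.MP_db5b97_nt.H67
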