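import Pool.Agent.MP_db5b97_nt.H67.Spec

/-! Square roots of the differents of six points. -/

namespace Pool.Agent.MP_db5b97_nt.H67

open H85 H30 Module

namespace RMUX

theorem prod_lam (α : Fin 6 → Om) :
    ∏ i, ∏ j ∈ ({i}ᶜ : Finset (Fin 6)), (α i - α j) = -(Matrix.vandermonde α).det ^ 2 := by
  rw [Matrix.det_vandermonde, ← Finset.prod_prod_Ioi_mul_eq_prod_prod_off_diag fun j i => α i - α j,
    ← Finset.prod_pow]
  have : ∀ i : Fin 6, ∏ j ∈ Finset.Ioi i, (α i - α j) * (α j - α i) =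
      (-1) ^ (Finset.Ioi i).card * (∏ j ∈ Finset.Ioi i, (α j - α i)) ^ 2 := fun i => by
    rw [← Finset.prod_pow, ← Finset.prod_const, ← Finset.prod_mul_distrib]
    exact Finset.prod_congr rfl fun j _ => by ring
  rw [Finset.prod_congr rfl fun i _ => this i, Finset.prod_mul_distrib, Finset.prod_pow_eq_pow_sum,
    show ∑ i : Fin 6, (Finset.Ioi i).card = 15 by decide]
  ring

end RMUX

open RMUX

theorem rowMU : RowMU := by
  intro α hα
  choose μ hμ using fun i : Fin 6 =>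
    IsAlgClosed.exists_pow_nat_eq (∏ j ∈ ({i}ᶜ : Finset (Fin 6)), (α i - α j)) two_pos
  have h0 : ∀ i, μ i ≠ 0 := fun i h => by
    have := hμ i
    rw [h, zero_pow two_ne_zero, eq_comm, Finset.prod_eq_zero_iff] at this
    obtain ⟨j, h1, h2⟩ := this
    exact Finset.mem_compl.1 h1 (Finset.mem_singleton.2 (hα (sub_eq_zero.1 h2)).symm)
  refine ⟨μ, h0, fun s σ hs => ?_⟩
  have h1 : ∀ i, ∃ t : ℤˣ, s (μ i) = ((t : ℤ) : Om) * μ (σ i) := fun i => by
    have : s (μ i) ^ 2 = μ (σ i) ^ 2 := by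
      rw [← map_pow, hμ, hμ, map_prod]
      exact Finset.prod_equiv σ (by simp) fun j _ => by rw [map_sub, hs, hs]
    rcases sq_eq_sq_iff_eq_or_eq_neg.1 this with h | h
    · exact ⟨1, by simpa using h⟩
    · exact ⟨-1, by simpa using h⟩
  choose t ht using h1
  refine ⟨t, ht, fun z hz => ?_⟩
  have hD : (Matrix.vandermonde α).det ≠ 0 := Matrix.det_vandermonde_ne_zero_iff.2 hα
  have hP : (∏ i, μ i) ^ 2 = (z * (Matrix.vandermonde α).det) ^ 2 := by
    rw [← Finset.prod_pow, Finset.prod_congr rfl fun i _ => hμ i, prod_lam, mul_pow, hz, neg_one_mul]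
  have hsD : s (Matrix.vandermonde α).det =
      ((Equiv.Perm.sign σ : ℤˣ) : ℤ) * (Matrix.vandermonde α).det := by
    rw [← Matrix.det_permute, AlgEquiv.map_det]
    congr 1
    ext i j
    simp [hs]
  have hsP : s (∏ i, μ i) = (((∏ i, t i : ℤˣ) : ℤ) : Om) * ∏ i, μ i := by
    rw [map_prod, Finset.prod_congr rfl fun i _ => ht i, Finset.prod_mul_distrib, Equiv.prod_comp σ μ]
    simp
  have hu : (((Equiv.Perm.sign σ : ℤˣ) : ℤ) : Om) * ((Equiv.Perm.sign σ : ℤˣ) : ℤ) = 1 := by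
    rw [← Int.cast_mul, ← Units.val_mul, Int.units_mul_self]
    simp
  have key : s (z * (Matrix.vandermonde α).det) =
      (((∏ i, t i : ℤˣ) : ℤ) : Om) * (z * (Matrix.vandermonde α).det) := by
    rcases sq_eq_sq_iff_eq_or_eq_neg.1 hP with h | h
    · rwa [h] at hsP
    · rwa [h, map_neg, mul_neg, neg_inj] at hsP
  rw [map_mul, hsD] at key
  rw [Units.val_mul, Int.cast_mul]
  apply mul_right_cancel₀ hD
  linear_combination (((Equiv.Perm.sign σ : ℤˣ) : ℤ) : Om) * key -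
    s z * (Matrix.vandermonde α).det * hu

end Pool.Agent.MP_db5b97_nt.H67
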