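import Pool.Agent.MP_db5b97_nt.H67.Spec
import Pool.Agent.MP_db5b97_nt.H79.NA
import Pool.Agent.MP_db5b97_nt.H16.SUP

/-! Odd Sylow subgroups of the kernel of a minimal group are commutative. -/

namespace Pool.Agent.MP_db5b97_nt.H67

open H85 H30 H31 H79 Module MulAction

theorem odd_aux (E W : Type) [Group E] [AddCommGroup W] [Module Om W] [FiniteDimensional Om W]
    [DistribMulAction E W] (π : E →* Ga) (E0 U : Subgroup E) (p : ℕ) (c : Cm W π E0)
    (hU : Opn π E0 U) (hmin : ∀ U' ≤ U, Opn π E0 U' → U'.map π = U.map π → U ⊓ π.ker ≤ U')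
    (hN : Nil (U ⊓ π.ker)) (hp : p.Prime) (h2 : p ≠ 2) (hd : finrank Om W < p ^ 2) :
    ¬ NA (U ⊓ π.ker) p (⊤ : Submodule Om W) := by
  intro hna
  have hS := H16.rowSUP
  classical
  have := c.fin
  have : Finite ↥(U ⊓ π.ker) :=
    Finite.of_injective _ (Subgroup.inclusion_injective (inf_le_right : U ⊓ π.ker ≤ π.ker))
  set G := U ⊓ π.ker with hG
  let P : Subgroup E :=
    { carrier := {g | g ∈ G ∧ IsP p g}
      one_mem' := ⟨G.one_mem, 0, by simp⟩
      mul_mem' := fun {a b} ha hb => ⟨G.mul_mem ha.1 hb.1, hN.mul p hp a ha.1 b hb.1 ha.2 hb.2⟩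
      inv_mem' := fun ha => ⟨G.inv_mem ha.1, ha.2.inv⟩ }
  have hPG : P ≤ G := fun g hg => hg.1
  have : Finite P := Finite.of_injective _ (Subgroup.inclusion_injective hPG)
  have hL : Lin W P := (c.sl.lin U).mono hPG
  have hπ : ∀ g ∈ P, π g = 1 := fun g hg => hg.1.2
  have hc : ∀ u ∈ U, ∀ g ∈ P, u⁻¹ * g * u ∈ P := fun u hu g hg =>
    ⟨⟨U.mul_mem (U.mul_mem (U.inv_mem hu) hg.1.1) hu, π.normal_ker.conj_mem' g hg.1.2 u⟩, by
      simpa using hg.2.conj u⁻¹⟩
  have hz : ∀ u ∈ U, Nz P u := fun u hu g =>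
    ⟨hc u hu g, fun h => by simpa [mul_assoc] using hc _ (U.inv_mem hu) _ h⟩
  obtain ⟨h, hh⟩ : ∃ h, 2 * h = p + 1 := by
    obtain ⟨k, hk⟩ := hp.odd_of_ne_two h2
    exact ⟨k + 1, by omega⟩
  obtain ⟨l0, hl0⟩ : ∃ l, Good W P p h l := by
    obtain ⟨g, hg, u, hu, pg, pu, w, -, hw⟩ := hna
    obtain ⟨y, hy, g, hg, h1⟩ := exists_dd (P := P) hN hp (fun _ => Iff.rfl) (g := g) (u := u)
      ⟨hg, pg⟩ ⟨hu, pu⟩ fun h => hw (by rw [← mul_smul, h, mul_smul])
    exact exists_good hL hh (fun g hg => c.faith g (hπ g hg)) hy hg h1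
  let Y : Type := {l : E → Om // Good W P p h l}
  let _ : MulAction U Y :=
    { smul := fun u l => ⟨fun x => π u (l.1 ((u : E)⁻¹ * x * u)), l.2.act c.sl (hz u u.2)⟩
      one_smul := fun l => Subtype.ext (funext fun x => by
        show π 1 (l.1 (1⁻¹ * x * 1)) = l.1 x
        simp)
      mul_smul := fun u v l => Subtype.ext (funext fun x => by
        show π (u * v) (l.1 (((u : E) * v)⁻¹ * x * (u * v))) =
          π u (π v (l.1 ((v : E)⁻¹ * ((u : E)⁻¹ * x * u) * v)))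
        rw [map_mul, AlgEquiv.mul_apply]
        simp [mul_assoc]) }
  have ev : ∀ (u : U) (l : Y) (x : E), (u • l).1 x = π u (l.1 ((u : E)⁻¹ * x * u)) :=
    fun _ _ _ => rfl
  have ev' : ∀ u : U, (u : E) ∈ P → ∀ (l : Y) (x : E), (u • l).1 x = l.1 (kp x u) * l.1 x :=
    fun u hu l x => by rw [ev, hπ u hu, l.2.tw.conj hu]; rfl
  let S : Set Om := {a | a = 0 ∨ a ^ Nat.card P = 1}
  have hSf : Finite S := by
    refine Set.Finite.subset ((Polynomial.nthRootsFinset (Nat.card P) (1 : Om)).finite_toSet.insert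
      0) fun a ha => ha.imp id fun ha => ?_
    exact (Polynomial.mem_nthRootsFinset Nat.card_pos 1).2 ha
  have hval : ∀ (l : Y) (x : E), l.1 x ∈ S := fun l x => by
    by_cases hx : x ∈ Dd P p
    · refine Or.inr ?_
      rw [← l.2.tw.pow hx, show x ^ Nat.card P = 1 from
        congrArg Subtype.val (pow_card_eq_one' (x := (⟨x, hx.1⟩ : P))), l.2.tw.one]
    · exact Or.inl (l.2.tw.off x hx)
  have hext : ∀ l l' : Y, (∀ x ∈ Dd P p, l.1 x = l'.1 x) → l = l' := fun l l' h =>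
    Subtype.ext (funext fun x => by
      by_cases hx : x ∈ Dd P p
      · exact h x hx
      · rw [l.2.tw.off x hx, l'.2.tw.off x hx])
  have : Finite Y := Finite.of_injective (fun (l : Y) (x : P) => (⟨l.1 x, hval l x⟩ : S))
    fun l l' h => hext l l' fun x hx => congrArg Subtype.val (congrFun h ⟨x, hx.1⟩)
  obtain ⟨U', k1, k2, k3⟩ := hS U Y (P.subgroupOf U) p hp
    ⟨fun g hg u => Subgroup.mem_subgroupOf.2 (by simpa using hc _ (U.inv_mem u.2) _ hg)⟩
    (card_lt hL hp hd (fun i => (Quotient.out i).1) (fun i => (Quotient.out i).2) (by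
      rintro i j ⟨g, hg, h1⟩
      rw [← Quotient.out_eq i, ← Quotient.out_eq j]
      refine Quotient.sound' (orbitRel_apply.2 (mem_orbit_symm.1 ⟨⟨⟨g, hg.1.1⟩, hg⟩, ?_⟩))
      refine Subtype.ext (funext fun x => ?_)
      rw [← h1 x]
      show π g _ = _
      rw [hπ g hg]
      rfl))
    (fun g hg u hu l => hext _ _ fun x hx => by
      rw [Subgroup.mem_subgroupOf] at hg hu
      rw [← mul_smul, ← mul_smul, ev' _ (P.mul_mem hg hu), ev' _ (P.mul_mem hu hg),
        Subgroup.coe_mul, Subgroup.coe_mul, l.2.tw.right hx hg hu, l.2.tw.right hx hu hg,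
        mul_comm (l.1 (kp x g))])
    (fun g hg l => hext _ _ fun x hx => by
      rw [Subgroup.mem_subgroupOf] at hg
      rw [ev' _ (P.pow_mem hg p), Subgroup.coe_pow, l.2.tw.right_pow hx hg, l.2.tw.root hx hg,
        one_mul])
    (by
      obtain ⟨x, hx, g, hg, h1⟩ := hl0.nt
      refine ⟨⟨g, hg.1.1⟩, hg, ⟨l0, hl0⟩, fun h3 => h1 ?_⟩
      have h4 := ev' ⟨g, hg.1.1⟩ hg ⟨l0, hl0⟩ x
      rw [h3] at h4
      exact mul_right_cancel₀ (hl0.tw.ne x hx) (h4.symm.trans (one_mul _).symm))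
  have k4 := hmin (U'.map U.subtype) (Subgroup.map_subtype_le _) (by
    have : Algebra.IsAlgebraic ℚ Om := AlgebraicClosure.isAlgebraic ℚ
    have o1 : OP π E0 fun e => ∀ a : S, π e a = a := OP.all fun a =>
      ⟨stabilizer Ga (a : Om), stabilizer_isOpen_of_isIntegral _, fun e _ he => he⟩
    refine ((OP.and hU c.op_cent).and o1).mono fun e he => ⟨⟨e, he.1.1⟩, k1 _ fun l => ?_, rfl⟩
    refine hext _ _ fun x hx => ?_
    have h3 : e * x * e⁻¹ = x := he.1.2 ⟨x, hπ x hx.1⟩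
    have h4 : e⁻¹ * x * e = x := by
      conv_lhs => rw [← h3]
      group
    rw [ev]
    show π e (l.1 (e⁻¹ * x * e)) = _
    rw [h4]
    exact he.2 ⟨_, hval l x⟩) (by
    refine le_antisymm (Subgroup.map_mono (Subgroup.map_subtype_le _)) ?_
    rintro _ ⟨u, hu, rfl⟩
    obtain ⟨g, hg, h3⟩ := k2 ⟨u, hu⟩
    refine ⟨g * u, ⟨_, h3, rfl⟩, ?_⟩
    rw [map_mul, hπ (g : E) hg, one_mul])
  refine k3 fun g hg => ?_
  obtain ⟨g', hg', e⟩ := k4 (hPG hg)
  rwa [← show g' = g from Subtype.ext e]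

theorem rowODD : RowODD := by
  intro E W _ _ _ _ _ π E0 p c hp h2 hd
  have := odd_aux E W π E0 ⊤ p c opn_top (fun U _ hU h g hg => c.min U hU (fun e => by
    obtain ⟨u, hu, e'⟩ := h.ge (⟨e, trivial, rfl⟩ : π e ∈ (⊤ : Subgroup E).map π)
    exact ⟨u * e⁻¹, by simp [e'], by simpa using hu⟩) g hg.2) (by rw [top_inf_eq]; exact c.nil)
    hp h2 hd
  rwa [top_inf_eq] at this

end Pool.Agent.MP_db5b97_nt.H67
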