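import Pool.Agent.MP_db5b97_nt.H67.Base

/-! Small dimensions: statements of the pieces. -/

namespace Pool.Agent.MP_db5b97_nt.H67

open H85 H30 Module MulAction NumberField IsDedekindDomain Polynomial

/-! ### Semilinear actions -/

/-- a stable subspace -/
def RowPROD : Prop :=
  ∀ (E W : Type) [Group E] [AddCommGroup W] [Module Om W] [FiniteDimensional Om W]
    [DistribMulAction E W] (π : E →* Ga) (E0 : Subgroup E) (V : Submodule Om W) (a b : ℕ),
    Cx W π E0 → Stb E V → BB (finrank Om V) a → BB (finrank Om W - finrank Om V) b →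
    Goal W π E0 (a * b)

/-- eigenspaces of a normal commutative subgroup -/
def RowEIG : Prop :=
  ∀ (E W : Type) [Group E] [AddCommGroup W] [Module Om W] [FiniteDimensional Om W]
    [DistribMulAction E W] (π : E →* Ga) (h : SL W π) (A : Subgroup E), Finite A → A.Normal →
    A ≤ π.ker → (∀ g ∈ A, ∀ u ∈ A, g * u = u * g) → (∃ g ∈ A, ¬ Sc W g) → ∃ Y, Fam π h Y

/-- permuted decompositions in small dimension -/
def RowDEC : Prop :=
  ∀ (E W : Type) [Group E] [AddCommGroup W] [Module Om W] [FiniteDimensional Om W]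
    [DistribMulAction E W] [Nontrivial W] (π : E →* Ga) (E0 : Subgroup E) (c : Cm W π E0)
    (Y : Set (Submodule Om W)), finrank Om W ≤ 5 → Ir E W → Fam π c.sl Y → Com W π ∨ Swp E W

/-- odd Sylow subgroups -/
def RowODD : Prop :=
  ∀ (E W : Type) [Group E] [AddCommGroup W] [Module Om W] [FiniteDimensional Om W]
    [DistribMulAction E W] (π : E →* Ga) (E0 : Subgroup E) (p : ℕ), Cm W π E0 → p.Prime → p ≠ 2 →
    finrank Om W < p ^ 2 → ¬ NA π.ker p (⊤ : Submodule Om W)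

/-- the symplectic part of the kernel -/
def RowSYM1 : Prop :=
  ∀ (E W : Type) [Group E] [AddCommGroup W] [Module Om W] [FiniteDimensional Om W]
    [DistribMulAction E W] (π : E →* Ga) (E0 : Subgroup E) (c : Cm W π E0),
    (∀ p, p.Prime → p ≠ 2 → ¬ NA π.ker p (⊤ : Submodule Om W)) → ¬ Com W π →
    (∀ A : Subgroup E, A.Normal → A ≤ π.ker → (∀ g ∈ A, ∀ u ∈ A, g * u = u * g) →
      ∀ g ∈ A, Sc W g) →
    (∃ T, PB c.sl T ∧ ∀ a : Om, T ≠ a • (1 : End Om W)) ∧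
      ∀ T, PB c.sl T → (∀ a : Om, T ≠ a • (1 : End Om W)) → ∃ T', PB c.sl T' ∧ T * T' = -(T' * T)

/-- symplectic bases -/
def RowSYM2 : Prop :=
  ∀ (W : Type) [AddCommGroup W] [Module Om W] [FiniteDimensional Om W] [Nontrivial W]
    (P : End Om W → Prop), finrank Om W < 8 → P 1 → (∀ T T', P T → P T' → P (T * T')) →
    (∀ T (a : Om), P T → a ≠ 0 → P (a • T)) →
    (∀ T, P T → ∃ a : Om, a ≠ 0 ∧ T * T = a • (1 : End Om W)) →
    (∀ T T', P T → P T' → T * T' = T' * T ∨ T * T' = -(T' * T)) →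
    (∃ T, P T ∧ ∀ a : Om, T ≠ a • (1 : End Om W)) →
    (∀ T, P T → (∀ a : Om, T ≠ a • (1 : End Om W)) → ∃ T', P T' ∧ T * T' = -(T' * T)) →
    ∃ I J, P I ∧ P J ∧ I * I = -1 ∧ J * J = -1 ∧ I * J = -(J * I) ∧
      ((∀ T, P T → ∃ (a : Om) (A : End Om W), A ∈ ({1, I, J, I * J} : Set _) ∧ T = a • A) ∨
        ∃ I' J', P I' ∧ P J' ∧ I' * I' = -1 ∧ J' * J' = -1 ∧ I' * J' = -(J' * I') ∧
          I * I' = I' * I ∧ I * J' = J' * I ∧ J * I' = I' * J ∧ J * J' = J' * J ∧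
          ∀ T, P T → ∃ (a : Om) (A B : End Om W), A ∈ ({1, I, J, I * J} : Set _) ∧
            B ∈ ({1, I', J', I' * J'} : Set _) ∧ T = a • (A * B))

/-- from a symplectic basis to a system of fifteen elements -/
def RowH4a : Prop :=
  ∀ (R : Type) [Ring R] [Algebra Om R] (I J I' J' : R), I * I = -1 → J * J = -1 →
    I * J = -(J * I) → I' * I' = -1 → J' * J' = -1 → I' * J' = -(J' * I') → I * I' = I' * I →
    I * J' = J' * I → J * I' = I' * J → J * J' = J' * J →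
    ∃ h : Fin 6 → Fin 6 → R, Hs h ∧ (∃ z : Om, h 0 1 * h 2 3 * h 4 5 = z • (1 : R)) ∧
      (∀ i j, ∃ (a : Om) (A B : R), a ≠ 0 ∧ A ∈ ({1, I, J, I * J} : Set _) ∧
        B ∈ ({1, I', J', I' * J'} : Set _) ∧ h i j = a • (A * B)) ∧
      ∀ A ∈ ({1, I, J, I * J} : Set R), ∀ B ∈ ({1, I', J', I' * J'} : Set R),
        ∃ (a : Om) (i j : Fin 6), A * B = a • h i j

/-- comparison of two systems -/
def RowH4b : Prop :=
  ∀ (R : Type) [Ring R] [Algebra Om R] [Nontrivial R] (h : Fin 6 → Fin 6 → R), Hs h →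
    (∀ h' : Fin 6 → Fin 6 → R, Hs h' → (∀ i j, ∃ (a : Om) (k l : Fin 6), h' i j = a • h k l) →
      ∃ (σ : Equiv.Perm (Fin 6)) (s : Fin 6 → ℤˣ),
        ∀ i j, h' i j = ((s i * s j : ℤˣ) : ℤ) • h (σ i) (σ j)) ∧
    ∀ σ τ : Equiv.Perm (Fin 6), (∀ i j, ∃ a : Om, h (σ i) (σ j) = a • h (τ i) (τ j)) → σ = τ

/-- signs -/
def RowH4s : Prop :=
  ∀ (R : Type) [Ring R] (h : Fin 6 → Fin 6 → R), Hs h →
    (∀ σ : Equiv.Perm (Fin 6), h (σ 0) (σ 1) * h (σ 2) (σ 3) * h (σ 4) (σ 5) =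
      ((Equiv.Perm.sign σ : ℤˣ) : ℤ) • (h 0 1 * h 2 3 * h 4 5)) ∧
    ∀ v : Fin 6 → ℤˣ, ∏ i, v i = 1 → ∃ l : List (Fin 6), ∀ i j,
      (l.map (h 0)).prod * h i j = ((v i * v j : ℤˣ) : ℤ) • (h i j * (l.map (h 0)).prod)

/-- square roots of the differents -/
def RowMU : Prop :=
  ∀ α : Fin 6 → Om, Function.Injective α → ∃ μ : Fin 6 → Om, (∀ i, μ i ≠ 0) ∧
    ∀ (s : Ga) (σ : Equiv.Perm (Fin 6)), (∀ i, s (α i) = α (σ i)) →
      ∃ t : Fin 6 → ℤˣ, (∀ i, s (μ i) = ((t i : ℤ) : Om) * μ (σ i)) ∧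
        ∀ z : Om, z ^ 2 = -1 → s z = ((((∏ i, t i) * Equiv.Perm.sign σ : ℤˣ) : ℤ) : Om) * z

/-- equivariant labels -/
def RowLAB : Prop :=
  ∀ (E Y : Type) [Group E] [Finite Y] (π : E →* Ga) (E0 : Subgroup E) (σ : E →* Equiv.Perm Y),
    IsOpen ((E0.map π : Subgroup Ga) : Set Ga) → (∀ g, π g = 1 → σ g = 1) →
    OP π E0 (fun e => σ e = 1) →
    ∃ α : Y → Om, Function.Injective α ∧ ∀ e y, π e (α y) = α (σ e y)

/-- rank one -/
def RowH2 : Prop :=
  ∀ (E W : Type) [Group E] [AddCommGroup W] [Module Om W] [FiniteDimensional Om W]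
    [DistribMulAction E W] [Nontrivial W] (π : E →* Ga) (E0 : Subgroup E) (c : Cm W π E0)
    (I J : End Om W), PB c.sl I → PB c.sl J → I * I = -1 → J * J = -1 → I * J = -(J * I) →
    (∀ T, PB c.sl T → ∃ (a : Om) (A : End Om W), A ∈ ({1, I, J, I * J} : Set _) ∧ T = a • A) →
    False

/-- rank two -/
def RowH4 : Prop :=
  ∀ (E W : Type) [Group E] [AddCommGroup W] [Module Om W] [FiniteDimensional Om W]
    [DistribMulAction E W] [Nontrivial W] (π : E →* Ga) (E0 : Subgroup E) (c : Cm W π E0)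
    (h : Fin 6 → Fin 6 → End Om W), Hs h → (∀ i j, PB c.sl (h i j)) →
    (∃ z : Om, h 0 1 * h 2 3 * h 4 5 = z • (1 : End Om W)) →
    (∀ T, PB c.sl T → ∃ (a : Om) (i j : Fin 6), T = a • h i j) → False

/-- the structure theorem -/
def RowSTR : Prop :=
  ∀ (E W : Type) [Group E] [AddCommGroup W] [Module Om W] [FiniteDimensional Om W]
    [DistribMulAction E W] (π : E →* Ga) (E0 : Subgroup E), Cm W π E0 → finrank Om W ≤ 5 →
    Ir E W → Com W π ∨ Swp E W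

/-- dimension at most three -/
def RowCOM : Prop :=
  ∀ (E W : Type) [Group E] [AddCommGroup W] [Module Om W] [FiniteDimensional Om W]
    [DistribMulAction E W] (π : E →* Ga) (E0 : Subgroup E), Cx W π E0 → Mn π E0 →
    finrank Om W ≤ 3 → Com W π

/-- frames adapted to a decomposition -/
def RowFR : Prop :=
  ∀ (E W : Type) [Group E] [AddCommGroup W] [Module Om W] [FiniteDimensional Om W]
    [DistribMulAction E W] (π : E →* Ga) (E0 : Subgroup E) (V V' : Submodule Om W), Cx W π E0 →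
    Com W π → Stb E V → Stb E V' → IsCompl V V' →
    ∃ (X Y : Finset Om) (w : Om → W), Frame π X w ∧ Y ⊆ X ∧ Y.card = finrank Om V ∧
      ∀ e : E, ∀ y ∈ Y, π e y ∈ Y

/-- from lattices to frames -/
def RowFE : Prop :=
  ∀ (E W : Type) [Group E] [AddCommGroup W] [Module Om W] [FiniteDimensional Om W]
    [DistribMulAction E W] (π : E →* Ga) (E0 : Subgroup E) (X : Finset Om) (w : Om → W) (b : ℕ),
    Cx W π E0 → Frame π X w → PIX X π.range b → Goal W π E0 b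

/-! ### Lattices -/

/-- Frobenius groups -/
def RowFROB : Prop :=
  ∀ (G Y A : Type) [Group G] [Finite G] [Finite Y] [MulAction G Y] [AddCommGroup A]
    [DistribMulAction G A] (N H : Subgroup G) (M : AddSubgroup (Y →₀ ℤ)), H90 A H →
    (∀ h ∈ H, ∀ n ∈ N, h * n * h⁻¹ ∈ N) → (∀ h ∈ H, ∀ n ∈ N, h * n * h⁻¹ = n → h = 1 ∨ n = 1) →
    Stab H M → Stab N M → (∀ h ∈ H, ∀ y ∈ M, (∀ n ∈ N, n • y = y) → h • y = y) →
    Kill A H M (Nat.card N)

/-- large groups -/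
def RowALT : Prop :=
  ∀ (G Y A : Type) [Group G] [Fintype Y] [MulAction G Y] [AddCommGroup A] [DistribMulAction G A]
    (M : AddSubgroup (Y →₀ ℤ)) (y : Y), (∀ Q : Subgroup G, H90 A Q) → 5 ≤ Fintype.card Y →
    Stab (⊤ : Subgroup G) M →
    (∀ i j k : Y, i ≠ j → i ≠ k → j ≠ k → ∃ g : G, g • i = j ∧ g • j = k ∧ g • k = i ∧
      ∀ l, l ≠ i → l ≠ j → l ≠ k → g • l = l) →
    Kill A (stabilizer G y) M (Fintype.card Y)

/-- point stabilisers of transitive groups of degree `n` -/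
def KP (n : ℕ) : Prop :=
  ∀ (G Y A : Type) [Group G] [Finite G] [Fintype Y] [MulAction G Y] [FaithfulSMul G Y]
    [IsPretransitive G Y] [AddCommGroup A] [DistribMulAction G A] (M : AddSubgroup (Y →₀ ℤ))
    (y : Y), Fintype.card Y = n → (∀ Q : Subgroup G, H90 A Q) → Stab (⊤ : Subgroup G) M →
    (n = 4 → ∀ B : Finset Y, B.card = 2 → ∃ g : G, (∃ b ∈ B, g • b ∈ B) ∧ ∃ b ∈ B, g • b ∉ B) →
    Kill A (stabilizer G y) M 1

/-- transpositions -/
def RowC2 : Prop :=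
  ∀ (G Y A : Type) [Group G] [Finite Y] [DecidableEq Y] [MulAction G Y] [AddCommGroup A]
    [DistribMulAction G A] (M : AddSubgroup (Y →₀ ℤ)) (Q : Subgroup G) (t : G) (a b : Y),
    H90 A Q → (∀ q, q ∈ Q ↔ q = 1 ∨ q = t) → t * t = 1 → (∀ y, t • y = Equiv.swap a b y) →
    Stab Q M → (∀ m ∈ M, t • m = -m → ∃ m' ∈ M, m = m' - t • m') → Kill A Q M 1

/-- transitive actions -/
def RowPT : Prop :=
  ∀ (X : Finset Om) (H : Subgroup Ga), X.Nonempty → KP X.card → (∀ σ ∈ H, ∀ x ∈ X, σ x ∈ X) →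
    (∀ x ∈ X, ∀ y ∈ X, ∃ σ ∈ H, σ x = y) →
    (X.card = 4 → ∀ B ⊆ X, B.card = 2 → ∃ σ ∈ H, (∃ b ∈ B, σ b ∈ B) ∧ ∃ b ∈ B, σ b ∉ B) →
    PIX' X H X.card

/-- groups that move two points only -/
def RowC2G : Prop :=
  ∀ (X : Finset Om) (H N : Subgroup Ga) (M : AddSubgroup (Om →₀ ℤ))
    (c : Ga → (Om →₀ ℤ) → Un Om) (a b : Om), IsOpen (N : Set Ga) → N ≤ H →
    (∀ σ ∈ H, ∀ x ∈ X, σ x ∈ X) → (∀ ν ∈ N, ∀ x ∈ X, ν x = x) →
    (∀ σ ∈ H, (∀ x ∈ X, σ x = x) → σ ∈ N) → (∀ y ∈ M, y.support ⊆ X) → Stab H M → Coc H M c →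
    (∀ ν ∈ N, ∀ y ∈ M, c ν y = 0) → (∀ σ ∈ H, ∀ x ∈ X, x ≠ a → x ≠ b → σ x = x) →
    (∀ σ ∈ H, (∃ x ∈ X, σ x ≠ x) → ∀ m ∈ M, σ • m = -m → ∃ m' ∈ M, m = m' - σ • m') →
    ∃ β, Bd H M 1 c β

/-- a common quadratic splitting field: equations -/
def RowQN : Prop :=
  ∀ (K ι : Type) [Field K] [NumberField K] [Finite ι] (a x : ι → K), (∀ j, a j ≠ 0) →
    (∀ j, x j ≠ 0) → ∃ d : K, ∀ j, ∃ s s' t t' : K,
      s ^ 2 + d * s' ^ 2 - a j * (t ^ 2 + d * t' ^ 2) = x j ∧ s * s' = a j * (t * t')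

/-- a common quadratic splitting field: cocycles on lattices of rank one -/
def RowQG : Prop :=
  ∀ (ι : Type) [Finite ι] (X : Finset Om) (H N : Subgroup Ga) (M : AddSubgroup (Om →₀ ℤ))
    (c : Ga → (Om →₀ ℤ) → Un Om) (u : ι → Om →₀ ℤ) (δ : ι → Om), IsOpen (N : Set Ga) → N ≤ H →
    (∀ σ ∈ H, ∀ x ∈ X, σ x ∈ X) → (∀ ν ∈ N, ∀ x ∈ X, ν x = x) → (∀ y ∈ M, y.support ⊆ X) →
    Stab H M → Coc H M c → (∀ ν ∈ N, ∀ y ∈ M, c ν y = 0) → (∀ j, u j ∈ M) → (∀ j, δ j ≠ 0) →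
    (∀ j, ∀ σ ∈ H, (σ (δ j) = δ j ∧ σ • u j = u j) ∨ (σ (δ j) = -δ j ∧ σ • u j = -u j)) →
    ∃ H' : Subgroup Ga, IsOpen (H' : Set Ga) ∧ H' ≤ H ∧ H'.relIndex H ≤ 2 ∧
      ∀ j, ∃ β, Bd H' (AddSubgroup.zmultiples (u j)) 1 c β

/-- four points with a stable pair -/
def RowP22 : Prop :=
  ∀ (X Y : Finset Om) (H : Subgroup Ga), X.card = 4 → Y ⊆ X → Y.card = 2 →
    (∀ σ ∈ H, ∀ x ∈ X, σ x ∈ X) → (∀ σ ∈ H, ∀ y ∈ Y, σ y ∈ Y) → PIX' X H 2

/-! ### Local computations -/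

/-- a valuation that is discrete with perfect residue field on `k` and for which quadratic
polynomials over `k` have approximate roots in `F` -/
structure Loc (k : Type) {F : Type} [Field k] [Field F] [Algebra k F]
    (w : Valuation F (WithZero (Multiplicative ℤ))) (p : k) : Prop where
  two : (2 : k) ≠ 0
  int : w 2 ≤ 1
  ne : p ≠ 0
  lt : w (algebraMap k F p) < 1
  dis : ∀ x : k, x ≠ 0 → ∃ n : ℤ, w (algebraMap k F x) = w (algebraMap k F p) ^ n
  per : w 2 < 1 → ∀ x : k, w (algebraMap k F x) ≤ 1 → ∃ y : k, w (algebraMap k F (y ^ 2 - x)) < 1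
  qua : ∀ b c : k, w (algebraMap k F b) ≤ 1 → w (algebraMap k F c) ≤ 1 →
    ∃ z : F, w (z ^ 2 + algebraMap k F b * z + algebraMap k F c) < 1

/-- units are squares or discriminants of Eisenstein polynomials -/
def RowLA : Prop :=
  ∀ (k F : Type) [Field k] [Field F] [Algebra k F] (w : Valuation F (WithZero (Multiplicative ℤ)))
    (p a : k), Loc k w p → a ≠ 0 →
    (∀ δ, δ ≠ 0 → ∃ r : F, w (r ^ 2 - algebraMap k F a) ≤ δ) ∨
      ∃ b q r : k, r ≠ 0 ∧ a * r ^ 2 = b ^ 2 - 4 * q ∧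
        w (algebraMap k F q) = w (algebraMap k F p) ∧ w (algebraMap k F b) < 1

/-- Eisenstein forms are universal -/
def RowLB : Prop :=
  ∀ (k F : Type) [Field k] [Field F] [Algebra k F] (w : Valuation F (WithZero (Multiplicative ℤ)))
    (p b q c : k), Loc k w p → w (algebraMap k F q) = w (algebraMap k F p) →
    w (algebraMap k F b) < 1 → w (algebraMap k F c) = 1 → ∀ δ, δ ≠ 0 → ∃ x y : F,
      w (x ^ 2 + algebraMap k F b * x * y + algebraMap k F q * y ^ 2 - algebraMap k F c) ≤ δ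

/-- the local statement -/
def RowLOC : Prop :=
  ∀ (k F : Type) [Field k] [Field F] [Algebra k F] (w : Valuation F (WithZero (Multiplicative ℤ)))
    (p a c : k), Loc k w p → a ≠ 0 → c ≠ 0 → ∀ δ, δ ≠ 0 → ∃ s t : F,
      w (s ^ 2 - algebraMap k F a * t ^ 2 - algebraMap k F c) ≤ δ

/-- primes whose residue field contains the quadratic extension -/
def RowRQ : Prop :=
  ∀ (k F : Type) [Field k] [NumberField k] [Field F] [NumberField F] [Algebra k F] (w : Sp F)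
    (g : (𝓞 k)[X]) (α : 𝓞 F), g.Monic → g.natDegree = 2 → aeval α g = 0 →
    Irreducible (g.map (Ideal.Quotient.mk (und k w).asIdeal)) → ∃ p : k, Loc k (w.valuation F) p

/-- primes of good reduction -/
def RowGD : Prop :=
  ∀ (F : Type) [Field F] [NumberField F] (w : Sp F) (a c : F), w.valuation F 2 = 1 →
    w.valuation F a = 1 → w.valuation F c = 1 → ∀ δ, δ ≠ 0 → ∃ s t : F,
      w.valuation F (s ^ 2 - a * t ^ 2 - c) ≤ δ

section Val

variable {k : Type} [Field k] (v : Valuation k (WithZero (Multiplicative ℤ)))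

/-- the method of Newton for a quadratic polynomial -/
theorem newton {p c y : k} (h2 : v 2 ≤ 1) (hd : v (2 * y + p) = 1)
    (hf : v (y ^ 2 + p * y - c) < 1) {δ : WithZero (Multiplicative ℤ)} (hδ : δ ≠ 0) :
    ∃ z, v (z ^ 2 + p * z - c) ≤ δ := by
  generalize hr : v (y ^ 2 + p * y - c) = r at hf
  have key : ∀ n : ℕ, ∃ z, v (2 * z + p) = 1 ∧ v (z ^ 2 + p * z - c) ≤ r ^ (n + 1) := by
    intro n
    induction n with
    | zero => exact ⟨y, hd, by simp [hr]⟩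
    | succ n ih =>
      obtain ⟨z, hz, hf'⟩ := ih
      have h0 : 2 * z + p ≠ 0 := fun h => by simp [h] at hz
      have hle : r ^ (n + 1) ≤ r := pow_le_of_le_one zero_le hf.le (by omega)
      obtain ⟨h, hh⟩ : ∃ h, h * (2 * z + p) = z ^ 2 + p * z - c := ⟨_, div_mul_cancel₀ _ h0⟩
      have hv : v h ≤ r ^ (n + 1) := by
        rw [← hh, map_mul, hz, mul_one] at hf'
        exact hf'
      refine ⟨z - h, ?_, ?_⟩
      · have e : 2 * (z - h) + p = (2 * z + p) + -(2 * h) := by ring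
        rw [e, v.map_add_eq_of_lt_left, hz]
        rw [hz, v.map_neg, map_mul]
        exact mul_lt_one_of_nonneg_of_lt_one_right h2 zero_le ((hv.trans hle).trans_lt hf)
      · have e : (z - h) ^ 2 + p * (z - h) - c = h * h := by linear_combination -hh
        rw [e, map_mul, pow_succ r (n + 1)]
        exact mul_le_mul' hv (hv.trans hle)
  obtain ⟨n, hn⟩ := exists_pow_lt₀ hf (Units.mk0 δ hδ)
  obtain ⟨z, -, hz⟩ := key n
  exact ⟨z, hz.trans ((pow_le_pow_of_le_one zero_le hf.le (by omega)).trans hn.le)⟩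

end Val

end Pool.Agent.MP_db5b97_nt.H67
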